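import Pool.Agent.Helper48.Cons.Theory

set_option autoImplicit false

namespace Pool.Agent.Helper48.Cons

open FinStr

variable {D : Set FinStr} {w : ℕ}

/-- Joint embedding property. -/
def JEP (D : Set FinStr) : Prop := ∀ x ∈ D, ∀ y ∈ D, ∃ z ∈ D, ConsEmb x z ∧ ConsEmb y z

/-- `e` is an edge leaving the set of vertices not reachable from `u₂`. -/
def Cross (D : Set FinStr) (w : ℕ) (u₂ e : FinStr) : Prop :=
  ¬ Reach D w u₂ (e.win 0 w) ∧ Reach D w u₂ (e.win 1 w)

lemma reach_mono (hD : Good D w) {u₂ z : FinStr} (hz : z ∈ D) {i j : ℕ} (hij : i ≤ j)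
    (hj : j + w ≤ z.size) (h : Reach D w u₂ (z.win i w)) : Reach D w u₂ (z.win j w) :=
  hD.reach_trans le_rfl h (hD.reach_win hz hij hj)

lemma cross_win {u₂ z : FinStr} {i : ℕ} :
    Cross D w u₂ (z.win i (w + 1)) ↔
      ¬ Reach D w u₂ (z.win i w) ∧ Reach D w u₂ (z.win (i + 1) w) := by
  unfold Cross
  rw [win_win _ _ _ _ _ (by omega), win_win _ _ _ _ _ (by omega), Nat.add_zero]

lemma exists_cross {u₂ z : FinStr} {i j : ℕ} (hij : i ≤ j)
    (h1 : ¬ Reach D w u₂ (z.win i w)) (h2 : Reach D w u₂ (z.win j w)) :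
    ∃ p, i ≤ p ∧ p < j ∧ Cross D w u₂ (z.win p (w + 1)) := by
  classical
  have hex : ∃ q, Reach D w u₂ (z.win (i + q) w) := ⟨j - i, by rwa [show i + (j - i) = j by omega]⟩
  have hs := Nat.find_spec hex
  have hm := fun k hk => Nat.find_min hex (m := k) hk
  have hle : Nat.find hex ≤ j - i :=
    Nat.find_min' hex (by rwa [show i + (j - i) = j by omega])
  set q := Nat.find hex with hq
  have hq0 : q ≠ 0 := by
    intro h0
    rw [h0] at hs
    exact h1 hs
  refine ⟨i + (q - 1), by omega, by omega, ?_⟩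
  rw [cross_win]
  refine ⟨hm (q - 1) (by omega), ?_⟩
  rwa [show i + (q - 1) + 1 = i + q by omega]

lemma cross_unique_pos (hD : Good D w) {u₂ z : FinStr} (hz : z ∈ D) {i j : ℕ}
    (hi : i + (w + 1) ≤ z.size) (hj : j + (w + 1) ≤ z.size)
    (h1 : Cross D w u₂ (z.win i (w + 1))) (h2 : Cross D w u₂ (z.win j (w + 1))) : i = j := by
  rw [cross_win] at h1 h2
  rcases Nat.lt_trichotomy i j with h | h | h
  · exact absurd (reach_mono hD hz (show i + 1 ≤ j by omega) (by omega) h1.2) h2.1
  · exact h
  · exact absurd (reach_mono hD hz (show j + 1 ≤ i by omega) (by omega) h2.2) h1.1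

theorem jep_of_bounded {N : ℕ} (hD : Good D w) (hP : Pump D w N) (N2 : ℕ)
    (hN2 : N + 4 * w + C w + 10 ≤ N2)
    (hj : ∀ x ∈ D, ∀ y ∈ D, x.size ≤ N2 → y.size ≤ N2 → ∃ z ∈ D, ConsEmb x z ∧ ConsEmb y z) :
    JEP D := by
  classical
  by_cases hsmall : ∀ x ∈ D, x.size ≤ N2
  · exact fun x hx y hy => hj x hx y hy (hsmall x hx) (hsmall y hy)
  push Not at hsmall
  obtain ⟨x0, hx0, hx0s⟩ := hsmall
  -- every member extends to one of size at least `w`
  have hplus : ∀ x ∈ D, ∃ y ∈ D, w ≤ y.size ∧ ConsEmb x y := by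
    intro x hx
    rcases Nat.lt_or_ge x.size w with h | h
    · obtain ⟨z, hz, h1, h2⟩ := hj x hx (x0.win 0 w) (hD.win_mem _ hx0 _ _ (by omega))
        (by omega) (by simp; omega)
      exact ⟨z, hz, by simpa using h2.size_le, h1⟩
    · exact ⟨x, hx, h, ConsEmb.refl x⟩
  by_cases hconn : ∀ u ∈ D, ∀ u' ∈ D, u.size = w → u'.size = w → Reach D w u u'
  · -- strongly connected case
    intro x hx y hy
    obtain ⟨x', hx', hxw, hxx⟩ := hplus x hx
    obtain ⟨y', hy', hyw, hyy⟩ := hplus y hy
    obtain ⟨r, hr, m, hm, hr0, hr1⟩ := hconn (x'.win (x'.size - w) w)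
      (hD.win_mem _ hx' _ _ (by omega)) (y'.win 0 w) (hD.win_mem _ hy' _ _ (by omega))
      (by simp) (by simp)
    obtain ⟨z, hz, hzs, hz0, hz1⟩ := hD.glue x' hx' r hr (x'.size - w) w m le_rfl (by omega)
      (by omega) (by rw [hr0])
    obtain ⟨z', hz', hzs', hz0', hz1'⟩ := hD.glue z hz y' hy' (x'.size - w + m) w (y'.size - w)
      le_rfl (by omega) (by omega) (by
        rw [← hr1, ← hz1, win_win _ _ _ _ _ (by omega)])
    refine ⟨z', hz', hxx.trans ?_, hyy.trans ?_⟩
    · rw [consEmb_iff]
      refine ⟨0, by omega, ?_⟩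
      have h1 : (z'.win 0 (x'.size - w + m + w)).win 0 x'.size = z.win 0 x'.size := by rw [hz0']
      rw [win_win _ _ _ _ _ (by omega)] at h1
      rw [h1]
      rw [show x'.size = x'.size - w + w by omega]
      exact hz0
    · rw [consEmb_iff]
      refine ⟨x'.size - w + m, by omega, ?_⟩
      rw [show y'.size = w + (y'.size - w) by omega]
      exact hz1'
  · push Not at hconn
    obtain ⟨u₂, hu₂, u₁, hu₁, hs₂, hs₁, hnr⟩ := hconn
    -- the crossing edge
    obtain ⟨e, he, hes, hec⟩ : ∃ e ∈ D, e.size = w + 1 ∧ Cross D w u₂ e := by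
      obtain ⟨z, hz, h1, h2⟩ := hj u₁ hu₁ u₂ hu₂ (by omega) (by omega)
      obtain ⟨i, hi, hi'⟩ := consEmb_iff.mp h1
      obtain ⟨j, hj, hj'⟩ := consEmb_iff.mp h2
      rw [hs₁] at hi hi'
      rw [hs₂] at hj hj'
      have hij : i ≤ j := by
        by_contra h
        apply hnr
        rw [← hi', ← hj']
        exact hD.reach_win hz (by omega) hi
      obtain ⟨p, hp1, hp2, hp3⟩ := exists_cross (D := D) (w := w) (u₂ := u₂) (z := z) hij
        (by rw [hi']; exact hnr) (by rw [hj']; exact Reach.refl hu₂ hs₂)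
      exact ⟨z.win p (w + 1), hD.win_mem _ hz _ _ (by omega), by simp, hp3⟩
    have huniq : ∀ e' ∈ D, e'.size = w + 1 → Cross D w u₂ e' → e' = e := by
      intro e' he' hs' hc'
      obtain ⟨z, hz, h1, h2⟩ := hj e' he' e he (by omega) (by omega)
      obtain ⟨i, hi, hi'⟩ := consEmb_iff.mp h1
      obtain ⟨j, hj, hj'⟩ := consEmb_iff.mp h2
      rw [hs'] at hi hi'
      rw [hes] at hj hj'
      have := cross_unique_pos hD (u₂ := u₂) hz hi hj (by rwa [hi']) (by rwa [hj'])
      subst this
      rw [← hi', hj']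
    have hcw : ∀ x ∈ D, ∀ p, p + (w + 1) ≤ x.size → Cross D w u₂ (x.win p (w + 1)) →
        x.win p (w + 1) = e := fun x hx p hp hc =>
      huniq _ (hD.win_mem _ hx _ _ hp) (by simp) hc
    -- small rigidity
    have hrs : ∀ x ∈ D, ∀ x' ∈ D, ∀ n, x.size = n → x'.size = n → n ≤ N2 → ∀ p,
        p + (w + 1) ≤ n → Cross D w u₂ (x.win p (w + 1)) → Cross D w u₂ (x'.win p (w + 1)) →
        x = x' := by
      intro x hx x' hx' n hn hn' hle p hp hc hc'
      obtain ⟨z, hz, h1, h2⟩ := hj x hx x' hx' (by omega) (by omega)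
      obtain ⟨i, hi, hi'⟩ := consEmb_iff.mp h1
      obtain ⟨j, hj, hj'⟩ := consEmb_iff.mp h2
      rw [hn] at hi hi'
      rw [hn'] at hj hj'
      have e1 : z.win (i + p) (w + 1) = x.win p (w + 1) := by
        rw [← hi', win_win _ _ _ _ _ hp]
      have e2 : z.win (j + p) (w + 1) = x'.win p (w + 1) := by
        rw [← hj', win_win _ _ _ _ _ hp]
      have := cross_unique_pos hD (u₂ := u₂) hz (i := i + p) (j := j + p) (by omega) (by omega)
        (by rwa [e1]) (by rwa [e2])
      have : i = j := by omega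
      subst this
      rw [← hi', hj']
    -- extension to the right / left up to the crossing edge, short
    have hextR : ∀ t ∈ D, t.size = w → ¬ Reach D w u₂ t → ∃ r ∈ D, ∃ m, m ≤ 3 * w + 1 + C w ∧
        r.size = m + (w + 1) ∧ r.win 0 w = t ∧ Cross D w u₂ (r.win m (w + 1)) := by
      intro t ht hts hnt
      obtain ⟨z₀, hz₀, h1₀, h2₀⟩ := hj t ht e he (by omega) (by omega)
      obtain ⟨z, hz, hzs, h1, h2⟩ := hD.joint_short le_rfl hz₀ h1₀ h2₀
      obtain ⟨i, hi, hi'⟩ := consEmb_iff.mp h1
      obtain ⟨j, hj, hj'⟩ := consEmb_iff.mp h2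
      rw [hts] at hi hi' hzs
      rw [hes] at hj hj' hzs
      have hij : i ≤ j := by
        by_contra h
        apply hnt
        rw [← hi']
        refine reach_mono hD hz (show j + 1 ≤ i by omega) hi ?_
        have := hec
        rw [← hj', cross_win] at this
        exact this.2
      refine ⟨z.win i (j - i + (w + 1)), hD.win_mem _ hz _ _ (by omega), j - i, by omega,
        by simp, ?_, ?_⟩
      · rw [win_win _ _ _ _ _ (by omega), Nat.add_zero, hi']
      · rw [win_win _ _ _ _ _ (by omega), show i + (j - i) = j by omega, hj']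
        exact hec
    have hextL : ∀ t ∈ D, t.size = w → Reach D w u₂ t → ∃ r ∈ D, ∃ m, m ≤ 3 * w + 1 + C w ∧
        r.size = m + 1 + w ∧ r.win (m + 1) w = t ∧ Cross D w u₂ (r.win 0 (w + 1)) := by
      intro t ht hts hnt
      obtain ⟨z₀, hz₀, h1₀, h2₀⟩ := hj t ht e he (by omega) (by omega)
      obtain ⟨z, hz, hzs, h1, h2⟩ := hD.joint_short le_rfl hz₀ h1₀ h2₀
      obtain ⟨i, hi, hi'⟩ := consEmb_iff.mp h1
      obtain ⟨j, hj, hj'⟩ := consEmb_iff.mp h2
      rw [hts] at hi hi' hzs
      rw [hes] at hj hj' hzs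
      have hij : j < i := by
        by_contra h
        have hc := hec
        rw [← hj', cross_win] at hc
        exact hc.1 (reach_mono hD hz (show i ≤ j by omega) (by omega) (by rwa [hi']))
      refine ⟨z.win j (i - j - 1 + 1 + w), hD.win_mem _ hz _ _ (by omega), i - j - 1, by omega,
        by simp, ?_, ?_⟩
      · rw [win_win _ _ _ _ _ (by omega), show j + (i - j - 1 + 1) = i by omega, hi']
      · rw [win_win _ _ _ _ _ (by omega), Nat.add_zero, hj']
        exact hec
    -- full rigidity
    have hrig : ∀ x ∈ D, ∀ x' ∈ D, ∀ n, x.size = n → x'.size = n → ∀ p,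
        p + (w + 1) ≤ n → Cross D w u₂ (x.win p (w + 1)) → Cross D w u₂ (x'.win p (w + 1)) →
        x = x' := by
      intro x hx x' hx' n hn hn' p hp hc hc'
      -- (a) all short windows agree
      have hright : ∀ t, p + t + (w + 1) ≤ n → x.win (p + t) (w + 1) = x'.win (p + t) (w + 1) := by
        intro t
        induction t with
        | zero =>
          intro _
          rw [Nat.add_zero, hcw x hx p (by omega) hc, hcw x' hx' p (by omega) hc']
        | succ t ih =>
          intro ht
          have ih' := ih (by omega)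
          have hg : x.win (p + t + 1) w = x'.win (p + t + 1) w :=
            win_eq_of_win_eq ih' 1 w (by omega)
          obtain ⟨r, hr, m, hmC, hm, hr0, hr1⟩ := hD.reach_short le_rfl
            (hD.reach_win (v := w) hx (show p + 1 ≤ p + t + 1 by omega) (by omega))
          obtain ⟨y, hy, hys, hy0, hy1⟩ := hD.glue (x.win p (w + 1)) (hD.win_mem _ hx _ _
            (by omega)) r hr 1 w m le_rfl (by simp; omega) (by omega)
            (by rw [win_win _ _ _ _ _ (by omega), hr0])
          have hyg : y.win (1 + m) w = x.win (p + t + 1) w := by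
            rw [← hr1, ← hy1, win_win _ _ _ _ _ (by omega)]
          have hye : y.win 0 (w + 1) = x.win p (w + 1) := by rw [← hy0, Nat.add_comm 1 w]
          obtain ⟨Y, hY, hYs, hY0, hY1⟩ := hD.glue y hy (x.win (p + (t + 1)) (w + 1))
            (hD.win_mem _ hx _ _ (by omega)) (1 + m) w 1 le_rfl (by omega) (by simp)
            (by rw [hyg, win_win _ _ _ _ _ (by omega)]; rfl)
          obtain ⟨Y', hY', hYs', hY0', hY1'⟩ := hD.glue y hy (x'.win (p + (t + 1)) (w + 1))
            (hD.win_mem _ hx' _ _ (by omega)) (1 + m) w 1 le_rfl (by omega) (by simp)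
            (by rw [hyg, win_win _ _ _ _ _ (by omega)]; exact hg)
          have c1 : Y.win 0 (w + 1) = x.win p (w + 1) := by
            rw [← hye, ← hY0, win_win _ _ _ _ _ (by omega)]
          have c2 : Y'.win 0 (w + 1) = x.win p (w + 1) := by
            rw [← hye, ← hY0', win_win _ _ _ _ _ (by omega)]
          have := hrs Y hY Y' hY' _ hYs hYs' (by omega) 0 (by omega) (by rwa [c1]) (by rwa [c2])
          rw [← hY1, this, hY1']
      have hleft : ∀ t, t ≤ p → x.win (p - t) (w + 1) = x'.win (p - t) (w + 1) := by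
        intro t
        induction t with
        | zero =>
          intro _
          rw [Nat.sub_zero, hcw x hx p (by omega) hc, hcw x' hx' p (by omega) hc']
        | succ t ih =>
          intro ht
          have ih' := ih (by omega)
          have hg : x.win (p - t) w = x'.win (p - t) w :=
            win_eq_of_win_eq ih' 0 w (by omega)
          obtain ⟨r, hr, m, hmC, hm, hr0, hr1⟩ := hD.reach_short le_rfl
            (hD.reach_win (v := w) hx (show p - t ≤ p by omega) (by omega))
          -- glue `r` and `e`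
          obtain ⟨y, hy, hys, hy0, hy1⟩ := hD.glue r hr (x.win p (w + 1)) (hD.win_mem _ hx _ _
            (by omega)) m w 1 le_rfl (by omega) (by simp)
            (by rw [win_win _ _ _ _ _ (by omega), hr1, Nat.add_zero])
          have hyg : y.win 0 w = x.win (p - t) w := by
            rw [← hr0, ← hy0, win_win _ _ _ _ _ (by omega)]
          have hA : (x.win (p - (t + 1)) (w + 1)).win 1 w = y.win 0 w := by
            rw [hyg, win_win _ _ _ _ _ (by omega)]
            congr 1
            omega
          have hB : (x'.win (p - (t + 1)) (w + 1)).win 1 w = y.win 0 w := by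
            rw [hyg, hg, win_win _ _ _ _ _ (by omega)]
            congr 1
            omega
          obtain ⟨Y, hY, hYs, hY0, hY1⟩ := hD.glue (x.win (p - (t + 1)) (w + 1))
            (hD.win_mem _ hx _ _ (by omega)) y hy 1 w (m + 1) le_rfl (by simp; omega) (by omega) hA
          obtain ⟨Y', hY', hYs', hY0', hY1'⟩ := hD.glue (x'.win (p - (t + 1)) (w + 1))
            (hD.win_mem _ hx' _ _ (by omega)) y hy 1 w (m + 1) le_rfl (by simp; omega) (by omega) hB
          have c0 : y.win m (w + 1) = x.win p (w + 1) := hy1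
          have c1 : Y.win (1 + m) (w + 1) = x.win p (w + 1) := by
            rw [← c0, ← hY1, win_win _ _ _ _ _ (by omega)]
          have c2 : Y'.win (1 + m) (w + 1) = x.win p (w + 1) := by
            rw [← c0, ← hY1', win_win _ _ _ _ _ (by omega)]
          have := hrs Y hY Y' hY' _ hYs hYs' (by omega) (1 + m) (by omega)
            (by rwa [c1]) (by rwa [c2])
          rw [← hY0, this, hY0']
      have hall : ∀ k, k + (w + 1) ≤ n → x.win k (w + 1) = x'.win k (w + 1) := by
        intro k hk
        rcases le_total p k with h | h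
        · have := hright (k - p) (by omega)
          rwa [show p + (k - p) = k by omega] at this
        · have := hleft (p - k) (by omega)
          rwa [show p - (p - k) = k by omega] at this
      -- (b) otherwise there are twins
      by_contra hne
      obtain ⟨k, l, hl1, hkl, hne', htw⟩ := exists_twins hn hn' hne
      have hl : w + 1 < l := by
        by_contra hl
        apply hne'
        have h1 := hall (min k (n - (w + 1))) (by omega)
        have h2 := win_eq_of_win_eq h1 (k - min k (n - (w + 1))) l (by omega)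
        rwa [show min k (n - (w + 1)) + (k - min k (n - (w + 1))) = k by omega] at h2
      obtain ⟨n₁, hn₁, hn₁', y, hy, y', hy', hyne, hyt⟩ := small_twins hP hl
        ⟨_, hD.win_mem _ hx _ _ (by omega), _, hD.win_mem _ hx' _ _ (by omega), hne', htw⟩
      have hys := hyt.1
      have hys' := hyt.2.1
      apply hyne
      by_cases hU0 : Reach D w u₂ (y.win 0 w)
      · obtain ⟨r, hr, m, hmb, hm, hrt, hrc⟩ := hextL (y.win 0 w) (hD.win_mem _ hy _ _ (by omega))
          (by simp) hU0
        obtain ⟨Y, hY, hYs, hY0, hY1⟩ := hD.glue r hr y hy (m + 1) w (n₁ - w) le_rfl (by omega)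
          (by omega) hrt
        obtain ⟨Y', hY', hYs', hY0', hY1'⟩ := hD.glue r hr y' hy' (m + 1) w (n₁ - w) le_rfl
          (by omega) (by omega) (by rw [hrt]; exact hyt.win_eq (by omega) (by omega))
        have c1 : Y.win 0 (w + 1) = r.win 0 (w + 1) := by
          rw [← hY0, win_win _ _ _ _ _ (by omega)]
        have c2 : Y'.win 0 (w + 1) = r.win 0 (w + 1) := by
          rw [← hY0', win_win _ _ _ _ _ (by omega)]
        have := hrs Y hY Y' hY' _ hYs hYs' (by omega) 0 (by omega) (by rwa [c1]) (by rwa [c2])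
        rw [← hY1, this, hY1']
      · by_cases hU1 : Reach D w u₂ (y.win (n₁ - w) w)
        · obtain ⟨p', _, hp2, hp3⟩ := exists_cross (D := D) (w := w) (u₂ := u₂) (z := y)
            (Nat.zero_le (n₁ - w)) hU0 hU1
          refine hrs y hy y' hy' n₁ hys hys' (by omega) p' (by omega) hp3 ?_
          rwa [← hyt.win_eq (by omega) (by omega)]
        · obtain ⟨r, hr, m, hmb, hm, hrt, hrc⟩ := hextR (y.win (n₁ - w) w)
            (hD.win_mem _ hy _ _ (by omega)) (by simp) hU1
          obtain ⟨Y, hY, hYs, hY0, hY1⟩ := hD.glue y hy r hr (n₁ - w) w (m + 1) le_rfl (by omega)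
            (by omega) hrt.symm
          obtain ⟨Y', hY', hYs', hY0', hY1'⟩ := hD.glue y' hy' r hr (n₁ - w) w (m + 1) le_rfl
            (by omega) (by omega)
            (by rw [hrt]; exact (hyt.win_eq (by omega) (by omega)).symm)
          have c1 : Y.win (n₁ - w + m) (w + 1) = r.win m (w + 1) := by
            rw [← hY1, win_win _ _ _ _ _ (by omega)]
          have c2 : Y'.win (n₁ - w + m) (w + 1) = r.win m (w + 1) := by
            rw [← hY1', win_win _ _ _ _ _ (by omega)]
          have := hrs Y hY Y' hY' _ hYs hYs' (by omega) (n₁ - w + m) (by omega)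
            (by rwa [c1]) (by rwa [c2])
          rw [← hY0, this, hY0']
    -- every member extends to one containing the crossing edge
    have hext : ∀ x ∈ D, ∃ y ∈ D, ∃ p, p + (w + 1) ≤ y.size ∧ Cross D w u₂ (y.win p (w + 1)) ∧
        ConsEmb x y := by
      intro x₀ hx₀
      obtain ⟨x, hx, hxw, hxx⟩ := hplus x₀ hx₀
      by_cases hU0 : Reach D w u₂ (x.win 0 w)
      · obtain ⟨r, hr, m, hmb, hm, hrt, hrc⟩ := hextL (x.win 0 w) (hD.win_mem _ hx _ _ (by omega))
          (by simp) hU0
        obtain ⟨Y, hY, hYs, hY0, hY1⟩ := hD.glue r hr x hx (m + 1) w (x.size - w) le_rfl (by omega)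
          (by omega) hrt
        refine ⟨Y, hY, 0, by omega, ?_, hxx.trans ?_⟩
        · have c1 : Y.win 0 (w + 1) = r.win 0 (w + 1) := by
            rw [← hY0, win_win _ _ _ _ _ (by omega)]
          rwa [c1]
        · rw [consEmb_iff]
          refine ⟨m + 1, by omega, ?_⟩
          rw [show x.size = w + (x.size - w) by omega]
          exact hY1
      · by_cases hU1 : Reach D w u₂ (x.win (x.size - w) w)
        · obtain ⟨p', _, hp2, hp3⟩ := exists_cross (D := D) (w := w) (u₂ := u₂) (z := x)
            (Nat.zero_le (x.size - w)) hU0 hU1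
          exact ⟨x, hx, p', by omega, hp3, hxx⟩
        · obtain ⟨r, hr, m, hmb, hm, hrt, hrc⟩ := hextR (x.win (x.size - w) w)
            (hD.win_mem _ hx _ _ (by omega)) (by simp) hU1
          obtain ⟨Y, hY, hYs, hY0, hY1⟩ := hD.glue x hx r hr (x.size - w) w (m + 1) le_rfl
            (by omega) (by omega) hrt.symm
          refine ⟨Y, hY, x.size - w + m, by omega, ?_, hxx.trans ?_⟩
          · have c1 : Y.win (x.size - w + m) (w + 1) = r.win m (w + 1) := by
              rw [← hY1, win_win _ _ _ _ _ (by omega)]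
            rwa [c1]
          · rw [consEmb_iff]
            refine ⟨0, by omega, ?_⟩
            have : x.size = x.size - w + w := by omega
            rw [this]
            exact hY0
    -- combine a left part and a right part
    have hcomb : ∀ a ∈ D, ∀ c ∈ D, ∀ pa pc, pa + (w + 1) ≤ a.size → pc + (w + 1) ≤ c.size →
        Cross D w u₂ (a.win pa (w + 1)) → Cross D w u₂ (c.win pc (w + 1)) →
        ∃ z ∈ D, ∀ x ∈ D, ∀ p, p + (w + 1) ≤ x.size → Cross D w u₂ (x.win p (w + 1)) →
          p ≤ pa → x.size - p ≤ c.size - pc → ConsEmb x z := by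
      intro a ha c hc pa pc hpa hpc hca hcc
      obtain ⟨z, hz, hzs, hz0, hz1⟩ := hD.glue (a.win 0 (pa + (w + 1)))
        (hD.win_mem _ ha _ _ (by omega)) (c.win pc (c.size - pc)) (hD.win_mem _ hc _ _ (by omega))
        pa (w + 1) (c.size - pc - (w + 1)) (by omega) (by simp) (by simp; omega)
        (by
          rw [win_win _ _ _ _ _ (by omega), win_win _ _ _ _ _ (by omega), Nat.zero_add,
            hcw a ha pa hpa hca]
          exact (hcw c hc pc hpc hcc).symm)
      refine ⟨z, hz, ?_⟩
      intro x hx p hp hcx hle1 hle2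
      rw [consEmb_iff]
      refine ⟨pa - p, by omega, ?_⟩
      refine hrig _ (hD.win_mem _ hz _ _ (by omega)) x hx x.size (by simp) rfl p hp ?_ hcx
      rw [win_win _ _ _ _ _ (by omega), show pa - p + p = pa by omega]
      have := win_eq_of_win_eq (x := z) (y := a) (k := 0) (k' := 0) hz0 pa (w + 1) (by omega)
      simp only [Nat.zero_add] at this
      rwa [this]
    intro x hx y hy
    obtain ⟨x', hx', p, hp, hcx, hxx⟩ := hext x hx
    obtain ⟨y', hy', q, hq, hcy, hyy⟩ := hext y hy
    rcases le_total p q with hpq | hpq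
    · rcases le_total (x'.size - p) (y'.size - q) with hr | hr
      · obtain ⟨z, hz, h⟩ := hcomb y' hy' y' hy' q q hq hq hcy hcy
        exact ⟨z, hz, hxx.trans (h x' hx' p hp hcx hpq hr),
          hyy.trans (h y' hy' q hq hcy le_rfl le_rfl)⟩
      · obtain ⟨z, hz, h⟩ := hcomb y' hy' x' hx' q p hq hp hcy hcx
        exact ⟨z, hz, hxx.trans (h x' hx' p hp hcx hpq le_rfl),
          hyy.trans (h y' hy' q hq hcy le_rfl hr)⟩
    · rcases le_total (x'.size - p) (y'.size - q) with hr | hr
      · obtain ⟨z, hz, h⟩ := hcomb x' hx' y' hy' p q hp hq hcx hcy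
        exact ⟨z, hz, hxx.trans (h x' hx' p hp hcx le_rfl hr),
          hyy.trans (h y' hy' q hq hcy hpq le_rfl)⟩
      · obtain ⟨z, hz, h⟩ := hcomb x' hx' x' hx' p p hp hp hcx hcx
        exact ⟨z, hz, hxx.trans (h x' hx' p hp hcx le_rfl le_rfl),
          hyy.trans (h y' hy' q hq hcy hpq hr)⟩

/-- The union definition of atomicity agrees with the joint embedding property. -/
lemma isAtomic_iff_jep (hdc : DownClosed D) : IsAtomic D ↔ JEP D := by
  constructor
  · intro h
    by_contra hn
    unfold JEP at hn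
    push Not at hn
    obtain ⟨x, hx, y, hy, hxy⟩ := hn
    apply h
    refine ⟨{z | z ∈ D ∧ ¬ ConsEmb x z}, {z | z ∈ D ∧ ¬ ConsEmb y z}, ?_, ?_, ?_, ?_, ?_⟩
    · refine ⟨fun z hz => hz.1, fun hsub => ?_⟩
      exact (hsub hx).2 (ConsEmb.refl x)
    · refine ⟨fun z hz => hz.1, fun hsub => ?_⟩
      exact (hsub hy).2 (ConsEmb.refl y)
    · intro a b hab hb
      exact ⟨hdc a b hab hb.1, fun h => hb.2 (h.trans hab)⟩
    · intro a b hab hb
      exact ⟨hdc a b hab hb.1, fun h => hb.2 (h.trans hab)⟩
    · ext z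
      constructor
      · intro hz
        by_cases hxz : ConsEmb x z
        · exact Or.inr ⟨hz, hxy z hz hxz⟩
        · exact Or.inl ⟨hz, hxz⟩
      · rintro (h | h)
        · exact h.1
        · exact h.1
  · rintro h ⟨D₁, D₂, h1, h2, hd1, hd2, hu⟩
    obtain ⟨x, hx, hx1⟩ := Set.exists_of_ssubset h1
    obtain ⟨y, hy, hy2⟩ := Set.exists_of_ssubset h2
    obtain ⟨z, hz, hxz, hyz⟩ := h x hx y hy
    rw [hu] at hz
    rcases hz with hz | hz
    · exact hx1 (hd1 x z hxz hz)
    · exact hy2 (hd2 y z hyz hz)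

/-- The bounded criterion for atomicity. -/
theorem jep_iff_bounded {N : ℕ} (hD : Good D w) (hP : Pump D w N) :
    JEP D ↔ ∀ x ∈ D, ∀ y ∈ D, x.size ≤ N + 4 * w + C w + 10 → y.size ≤ N + 4 * w + C w + 10 →
      ∃ z ∈ D, z.size ≤ 2 * (N + 4 * w + C w + 10) + w + C w ∧ ConsEmb x z ∧ ConsEmb y z := by
  constructor
  · intro h x hx y hy hxs hys
    obtain ⟨z, hz, h1, h2⟩ := h x hx y hy
    obtain ⟨z', hz', hs, h1', h2'⟩ := hD.joint_short le_rfl hz h1 h2
    exact ⟨z', hz', by omega, h1', h2'⟩
  · intro h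
    refine jep_of_bounded hD hP _ le_rfl ?_
    intro x hx y hy hxs hys
    obtain ⟨z, hz, _, h1, h2⟩ := h x hx y hy hxs hys
    exact ⟨z, hz, h1, h2⟩

end Pool.Agent.Helper48.Cons
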