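import Pool.Agent.Helper48.Cons.Defs

set_option autoImplicit false

namespace Pool.Agent.Helper48.Cons

namespace FinStr

/-- The relation, extended to all naturals by `False`. -/
def r (x : FinStr) (i j : ℕ) : Prop :=
  ∃ (hi : i < x.size) (hj : j < x.size), x.rel ⟨i, hi⟩ ⟨j, hj⟩

/-- Structure from a relation on the naturals. -/
def mk' (n : ℕ) (R : ℕ → ℕ → Prop) : FinStr := ⟨n, fun i j => R i j⟩

@[simp] lemma size_mk' (n : ℕ) (R : ℕ → ℕ → Prop) : (mk' n R).size = n := rfl

@[simp] lemma r_mk' (n : ℕ) (R : ℕ → ℕ → Prop) (i j : ℕ) :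
    (mk' n R).r i j ↔ i < n ∧ j < n ∧ R i j := by
  constructor
  · rintro ⟨hi, hj, h⟩
    exact ⟨hi, hj, h⟩
  · rintro ⟨hi, hj, h⟩
    exact ⟨hi, hj, h⟩

lemma r_lt {x : FinStr} {i j : ℕ} (h : x.r i j) : i < x.size ∧ j < x.size :=
  ⟨h.1, h.2.1⟩

lemma rel_iff (x : FinStr) (i j : Fin x.size) : x.rel i j ↔ x.r i j :=
  ⟨fun h => ⟨i.2, j.2, h⟩, fun h => h.2.2⟩

lemma ext' {x y : FinStr} (h : x.size = y.size)
    (h' : ∀ i j, i < x.size → j < x.size → (x.r i j ↔ y.r i j)) : x = y := by
  obtain ⟨n, R⟩ := x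
  obtain ⟨m, Q⟩ := y
  simp only at h
  subst h
  congr 1
  funext i j
  have := h' i j i.2 j.2
  apply propext
  constructor
  · intro hR
    exact (this.mp ⟨i.2, j.2, hR⟩).2.2
  · intro hQ
    exact (this.mpr ⟨i.2, j.2, hQ⟩).2.2

/-- The window of length `l` starting at `k`. -/
def win (x : FinStr) (k l : ℕ) : FinStr := mk' l (fun i j => x.r (k + i) (k + j))

@[simp] lemma size_win (x : FinStr) (k l : ℕ) : (x.win k l).size = l := rfl

@[simp] lemma r_win (x : FinStr) (k l i j : ℕ) :
    (x.win k l).r i j ↔ i < l ∧ j < l ∧ x.r (k + i) (k + j) := by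
  simp [win]

lemma win_win (x : FinStr) (k l k' l' : ℕ) (h : k' + l' ≤ l) :
    (x.win k l).win k' l' = x.win (k + k') l' := by
  refine ext' (by simp) ?_
  intro i j hi hj
  simp only [size_win] at hi hj
  simp only [r_win]
  constructor
  · rintro ⟨_, _, _, _, h⟩
    refine ⟨hi, hj, ?_⟩
    rwa [add_assoc, add_assoc]
  · rintro ⟨_, _, h'⟩
    refine ⟨hi, hj, by omega, by omega, ?_⟩
    rwa [← add_assoc, ← add_assoc]

lemma win_full (x : FinStr) : x.win 0 x.size = x := by
  refine ext' (by simp) ?_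
  intro i j hi hj
  simp only [size_win] at hi hj
  simp [hi, hj]

lemma win_full' (x : FinStr) {n : ℕ} (h : x.size = n) : x.win 0 n = x := by
  subst h; exact x.win_full

/-- Windows of equal structures. -/
lemma win_eq_iff (x y : FinStr) (k k' l : ℕ) :
    x.win k l = y.win k' l ↔
      ∀ i j, i < l → j < l → (x.r (k + i) (k + j) ↔ y.r (k' + i) (k' + j)) := by
  constructor
  · intro h i j hi hj
    have h1 : (x.win k l).r i j ↔ (y.win k' l).r i j := by rw [h]
    simpa [hi, hj] using h1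
  · intro h
    refine ext' (by simp) ?_
    intro i j hi hj
    simp only [size_win] at hi hj
    simp [hi, hj, h i j hi hj]

/-- Equality of sub-windows. -/
lemma win_eq_of_win_eq {x y : FinStr} {k k' l : ℕ} (h : x.win k l = y.win k' l) (a m : ℕ)
    (ham : a + m ≤ l) : x.win (k + a) m = y.win (k' + a) m := by
  rw [← win_win x k l a m ham, ← win_win y k' l a m ham, h]

end FinStr

open FinStr

lemma consEmb_iff {x y : FinStr} :
    ConsEmb x y ↔ ∃ k, k + x.size ≤ y.size ∧ y.win k x.size = x := by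
  constructor
  · rintro ⟨k, hk, h⟩
    refine ⟨k, hk, ?_⟩
    refine ext' (by simp) ?_
    intro i j hi hj
    simp only [size_win] at hi hj
    simp only [r_win]
    have := h ⟨i, hi⟩ ⟨j, hj⟩
    rw [rel_iff, rel_iff] at this
    simp only at this
    rw [this]
    simp [hi, hj]
  · rintro ⟨k, hk, h⟩
    refine ⟨k, hk, ?_⟩
    intro i j
    rw [rel_iff, rel_iff]
    have h1 : (y.win k x.size).r i j ↔ x.r i j := by rw [h]
    rw [← h1]
    simp

lemma ConsEmb.size_le {x y : FinStr} (h : ConsEmb x y) : x.size ≤ y.size := by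
  obtain ⟨k, hk, _⟩ := h
  omega

lemma ConsEmb.refl (x : FinStr) : ConsEmb x x :=
  consEmb_iff.mpr ⟨0, by omega, x.win_full⟩

lemma consEmb_win (x : FinStr) {k l : ℕ} (h : k + l ≤ x.size) : ConsEmb (x.win k l) x :=
  consEmb_iff.mpr ⟨k, by simpa using h, by simp⟩

lemma ConsEmb.trans {x y z : FinStr} (h1 : ConsEmb x y) (h2 : ConsEmb y z) : ConsEmb x z := by
  rw [consEmb_iff] at *
  obtain ⟨k, hk, h⟩ := h1
  obtain ⟨k', hk', h'⟩ := h2
  refine ⟨k' + k, by omega, ?_⟩
  rw [← h] at hk ⊢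
  simp only [size_win] at hk ⊢
  rw [← FinStr.win_win z k' y.size k x.size (by omega), h']

lemma ConsEmb.antisymm {x y : FinStr} (h1 : ConsEmb x y) (h2 : ConsEmb y x) : x = y := by
  have s1 := h1.size_le
  have s2 := h2.size_le
  rw [consEmb_iff] at h1
  obtain ⟨k, hk, h⟩ := h1
  have : k = 0 := by omega
  subst this
  rw [← h, show x.size = y.size by omega, y.win_full]

/-! ### Coding structures of size `n` by numbers `< 2 ^ (n * n)` -/

/-- The structure with `n` vertices coded by the bits of `c`. -/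
def dec (n c : ℕ) : FinStr := mk' n (fun i j => c.testBit (i * n + j) = true)

@[simp] lemma size_dec (n c : ℕ) : (dec n c).size = n := rfl

lemma r_dec (n c i j : ℕ) : (dec n c).r i j ↔ i < n ∧ j < n ∧ c.testBit (i * n + j) = true := by
  simp [dec]

lemma exists_code (x : FinStr) : ∃ c < 2 ^ (x.size * x.size), dec x.size c = x := by
  classical
  let f : Fin (x.size * x.size) → Bool := fun t => decide (x.r (t / x.size) (t % x.size))
  refine ⟨Nat.ofBits f, Nat.ofBits_lt_two_pow f, ?_⟩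
  refine ext' (by simp) ?_
  intro i j hi hj
  simp only [size_dec] at hi hj
  rw [r_dec]
  have hlt : i * x.size + j < x.size * x.size := by nlinarith
  rw [Nat.testBit_ofBits_lt f _ hlt]
  have h1 : (i * x.size + j) / x.size = i := by
    rw [mul_comm, Nat.mul_add_div (by omega), Nat.div_eq_of_lt hj, add_zero]
  have h2 : (i * x.size + j) % x.size = j := by
    rw [mul_comm, Nat.mul_add_mod, Nat.mod_eq_of_lt hj]
  simp [f, h1, h2, hi, hj]

/-- bound for the number of structures of size `v` -/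
def C (v : ℕ) : ℕ := 2 ^ (v * v)

lemma C_pos (v : ℕ) : 0 < C v := by unfold C; positivity

/-- Pigeonhole: among `C v + 1` structures of size `v` two are equal. -/
lemma pigeonhole (v : ℕ) (f : ℕ → FinStr) (hf : ∀ i ≤ C v, (f i).size = v) :
    ∃ p q, p < q ∧ q ≤ C v ∧ f p = f q := by
  classical
  have hc : ∀ i, ∃ c, i ≤ C v → c < C v ∧ dec v c = f i := by
    intro i
    by_cases hi : i ≤ C v
    · obtain ⟨c, hc, hd⟩ := exists_code (f i)
      rw [hf i hi] at hc hd
      exact ⟨c, fun _ => ⟨hc, hd⟩⟩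
    · exact ⟨0, fun h => absurd h hi⟩
  choose g hg using hc
  have hcard : (Finset.range (C v)).card < (Finset.range (C v + 1)).card := by simp
  obtain ⟨p, hp, q, hq, hpq, he⟩ := Finset.exists_ne_map_eq_of_card_lt_of_maps_to hcard
    (f := g) (fun i hi => by
      have : i ≤ C v := by simpa [Nat.lt_succ_iff] using hi
      simpa using (hg i this).1)
  have hp' : p ≤ C v := by simpa [Nat.lt_succ_iff] using hp
  have hq' : q ≤ C v := by simpa [Nat.lt_succ_iff] using hq
  have hfe : f p = f q := by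
    rw [← (hg p hp').2, ← (hg q hq').2, he]
  rcases lt_or_gt_of_ne hpq with h | h
  · exact ⟨p, q, h, hq', hfe⟩
  · exact ⟨q, p, h, hp', hfe.symm⟩

lemma finite_size_le (M : ℕ) : {x : FinStr | x.size ≤ M}.Finite := by
  have : {x : FinStr | x.size ≤ M} ⊆
      (fun p : ℕ × ℕ => dec p.1 p.2) '' ((Set.Iic M) ×ˢ (Set.Iio (2 ^ (M * M)))) := by
    intro x hx
    simp only [Set.mem_ofPred_eq] at hx
    obtain ⟨c, hc, hd⟩ := exists_code x
    refine ⟨(x.size, c), ⟨hx, ?_⟩, hd⟩
    refine lt_of_lt_of_le hc ?_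
    exact Nat.pow_le_pow_right (by norm_num) (Nat.mul_le_mul hx hx)
  exact (((Set.finite_Iic M).prod (Set.finite_Iio _)).image _).subset this

end Pool.Agent.Helper48.Cons
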