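import Pool.Agent.Helper48.Cons.Theory

set_option autoImplicit false

namespace Pool.Agent.Helper48.Cons

open FinStr

/-- closure of a class under windows -/
def KWin (K : FinStr → Prop) : Prop := ∀ x, K x → ∀ k l, k + l ≤ x.size → K (x.win k l)

/-- closure of a class under gluing -/
def KGlue (K : FinStr → Prop) : Prop :=
  ∀ x y, K x → K y → ∀ a o b, x.size = a + o → y.size = o + b → x.win a o = y.win 0 o →
    ∃ z, K z ∧ z.size = a + o + b ∧ z.win 0 (a + o) = x ∧ z.win a (o + b) = y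

/-- all short windows of `F` are windows of `z` -/
def SubWin (w : ℕ) (F z : FinStr) : Prop :=
  ∀ k l, l ≤ w + 1 → k + l ≤ F.size → ∃ k', k' + l ≤ z.size ∧ F.win k l = z.win k' l

/-- the pair of distinct twins `F, F'` of size `n'` in `K` with all short windows from `z` -/
def GoodTwins (K : FinStr → Prop) (w : ℕ) (z : FinStr) (n' : ℕ) : Prop :=
  ∃ F F', K F ∧ K F' ∧ F ≠ F' ∧ Twins F F' n' ∧ SubWin w F z ∧ SubWin w F' z

/-- The type of the window of `z` at position `i`: the window with the relation to the first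
and the last element. -/
def typ (w : ℕ) (z : FinStr) (n i : ℕ) : FinStr :=
  mk' (w + 2) (fun a b =>
    (a < w ∧ b < w ∧ z.r (i + a) (i + b)) ∨ (a < w ∧ b = w ∧ z.r (i + a) 0) ∨
    (a = w ∧ b < w ∧ z.r 0 (i + b)) ∨ (a < w ∧ b = w + 1 ∧ z.r (i + a) (n - 1)) ∨
    (a = w + 1 ∧ b < w ∧ z.r (n - 1) (i + b)))

lemma typ_spec {w : ℕ} {z : FinStr} {n p q : ℕ} (h : typ w z n p = typ w z n q) :
    z.win p w = z.win q w ∧ ∀ c, c < w → ((z.r (p + c) 0 ↔ z.r (q + c) 0) ∧
      (z.r 0 (p + c) ↔ z.r 0 (q + c)) ∧ (z.r (p + c) (n - 1) ↔ z.r (q + c) (n - 1)) ∧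
      (z.r (n - 1) (p + c) ↔ z.r (n - 1) (q + c))) := by
  have key : ∀ a b, (typ w z n p).r a b ↔ (typ w z n q).r a b := by rw [h]; simp
  simp only [typ, r_mk'] at key
  refine ⟨?_, ?_⟩
  · rw [win_eq_iff]
    intro i j hi hj
    have := key i j
    have h1 : i < w + 2 := by omega
    have h2 : j < w + 2 := by omega
    have h3 : i ≠ w := by omega
    have h4 : j ≠ w := by omega
    have h5 : i ≠ w + 1 := by omega
    have h6 : j ≠ w + 1 := by omega
    simpa [h1, h2, hi, hj, h3, h4, h5, h6] using this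
  · intro c hc
    have h1 : c < w + 2 := by omega
    have h3 : c ≠ w := by omega
    have h5 : c ≠ w + 1 := by omega
    refine ⟨?_, ?_, ?_, ?_⟩
    · simpa [h1, h3, h5, hc] using key c w
    · simpa [h1, h3, h5, hc] using key w c
    · simpa [h1, h3, h5, hc] using key c (w + 1)
    · simpa [h1, h3, h5, hc] using key (w + 1) c

/-- One pumping step: replace the segment between two positions with the same type. -/
def KStep (K : FinStr → Prop) (w : ℕ) : Prop :=
  ∀ n z z', K z → K z' → z ≠ z' → Twins z z' n → w + 2 ≤ n →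
    ∃ z₀ : FinStr, z₀.size = n ∧
      ∀ p q, 1 ≤ p → 1 ≤ q → p + w < n → q + w < n → typ w z₀ n p = typ w z₀ n q →
        w + 2 ≤ p + (n - q) → GoodTwins K w z (p + (n - q))

/-- the pumping constant -/
def Nc (w : ℕ) : ℕ := C (w + 2) + w + 3

lemma exists_typ_eq (w : ℕ) (z : FinStr) (n : ℕ) :
    ∃ p q, 1 ≤ p ∧ p < q ∧ q ≤ 1 + C (w + 2) ∧ typ w z n p = typ w z n q := by
  obtain ⟨p, q, hpq, hq, he⟩ := pigeonhole (w + 2) (fun i => typ w z n (1 + i))
    (fun i _ => by simp [typ])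
  exact ⟨1 + p, 1 + q, by omega, by omega, by omega, he⟩

lemma good_av {K : FinStr → Prop} (hw : KWin K) (hg : KGlue K) (L : List (ℕ × List (ℕ × ℕ)))
    (w : ℕ) (hL : ∀ c ∈ L, c.1 ≤ w + 1) : Good (Av K L) w := by
  refine ⟨?_, ?_⟩
  · rintro x ⟨hx, hx'⟩ k l hkl
    exact ⟨hw x hx k l hkl, fun c hc h => hx' c hc (h.trans (consEmb_win x hkl))⟩
  · rintro x ⟨hx, hx'⟩ y ⟨hy, hy'⟩ a o b ho hxs hys he
    obtain ⟨z, hz, hzs, hz0, hz1⟩ := hg x y hx hy a o b hxs hys he
    refine ⟨z, ⟨hz, ?_⟩, hzs, hz0, hz1⟩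
    intro c hc h
    obtain ⟨k, hk, hke⟩ := consEmb_iff.mp h
    have hcw := hL c hc
    have hcs : (toStr c).size = c.1 := rfl
    rcases Nat.lt_or_ge (a + o) (k + c.1) with h1 | h1
    · apply hy' c hc
      rw [consEmb_iff]
      refine ⟨k - a, by omega, ?_⟩
      rw [← hz1, win_win _ _ _ _ _ (by omega), show a + (k - a) = k by omega, hke]
    · apply hx' c hc
      rw [consEmb_iff]
      refine ⟨k, by omega, ?_⟩
      rw [← hz0, win_win _ _ _ _ _ (by omega), Nat.zero_add, hke]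

lemma av_of_subWin {K : FinStr → Prop} {L : List (ℕ × List (ℕ × ℕ))} {w : ℕ}
    (hL : ∀ c ∈ L, c.1 ≤ w + 1) {F z : FinStr} (hz : z ∈ Av K L) (hF : K F)
    (h : SubWin w F z) : F ∈ Av K L := by
  refine ⟨hF, fun c hc hcF => ?_⟩
  obtain ⟨k, hk, hke⟩ := consEmb_iff.mp hcF
  have hcs : (toStr c).size = c.1 := rfl
  obtain ⟨k', hk', he⟩ := h k c.1 (hL c hc) (by omega)
  apply hz.2 c hc
  rw [consEmb_iff]
  refine ⟨k', by omega, ?_⟩
  rw [hcs, ← he, ← hcs, hke]

lemma pump_av {K : FinStr → Prop} {w : ℕ} (hs : KStep K w) (L : List (ℕ × List (ℕ × ℕ)))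
    (hL : ∀ c ∈ L, c.1 ≤ w + 1) : Pump (Av K L) w (Nc w) := by
  refine ⟨by unfold Nc; omega, ?_⟩
  rintro n hn ⟨z, hz, z', hz', hne, htw⟩
  unfold Nc at hn ⊢
  obtain ⟨z₀, hz₀, hstep⟩ := hs n z z' hz.1 hz'.1 hne htw (by omega)
  obtain ⟨p, q, hp, hpq, hq, he⟩ := exists_typ_eq w z₀ n
  have conv : ∀ n', GoodTwins K w z n' → HasTwins (Av K L) n' := by
    rintro n' ⟨F, F', hF, hF', hne', htw', hs1, hs2⟩
    exact ⟨F, av_of_subWin hL hz hF hs1, F', av_of_subWin hL hz hF' hs2, hne', htw'⟩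
  refine ⟨⟨p + (n - q), by omega, by omega, by omega, ?_⟩, ⟨q + (n - p), by omega, ?_⟩⟩
  · exact conv _ (hstep p q hp (by omega) (by omega) (by omega) he (by omega))
  · exact conv _ (hstep q p (by omega) hp (by omega) (by omega) he.symm (by omega))

lemma downClosed_av {K : FinStr → Prop} (hw : KWin K) (L : List (ℕ × List (ℕ × ℕ))) :
    DownClosed (Av K L) := by
  intro x y hxy hy
  obtain ⟨k, hk, he⟩ := consEmb_iff.mp hxy
  refine ⟨?_, fun c hc h => hy.2 c hc (h.trans hxy)⟩
  rw [← he]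
  exact hw y hy.1 _ _ hk

/-! ### Classes given by a condition on pairs: digraphs and tournaments -/

/-- Irreflexive, with a condition on every pair `i < j`. -/
def KT (θ : Prop → Prop → Prop) (x : FinStr) : Prop :=
  (∀ i, ¬ x.r i i) ∧ ∀ i j, i < j → j < x.size → θ (x.r i j) (x.r j i)

lemma isDigraph_iff (x : FinStr) : IsDigraph x ↔ KT (fun _ _ => True) x := by
  unfold IsDigraph KT
  constructor
  · intro h
    refine ⟨?_, fun _ _ _ _ => trivial⟩
    rintro i ⟨hi, _, hr⟩
    exact h ⟨i, hi⟩ hr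
  · rintro ⟨h, _⟩ i hi
    exact h i ((rel_iff x i i).mp hi)

lemma isTournament_iff (x : FinStr) : IsTournament x ↔ KT (fun a b => (a ↔ ¬ b)) x := by
  unfold IsTournament KT
  constructor
  · rintro ⟨h1, h2⟩
    refine ⟨?_, ?_⟩
    · rintro i ⟨hi, _, hr⟩
      exact h1 ⟨i, hi⟩ hr
    · intro i j hij hj
      have := h2 ⟨i, by omega⟩ ⟨j, hj⟩ (by simp [Fin.ext_iff]; omega)
      rw [rel_iff, rel_iff] at this
      exact this
  · rintro ⟨h1, h2⟩
    refine ⟨fun i hi => h1 i ((rel_iff x i i).mp hi), ?_⟩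
    intro i j hij
    rw [rel_iff, rel_iff]
    rcases Nat.lt_trichotomy i.1 j.1 with h | h | h
    · exact h2 _ _ h j.2
    · exact absurd (Fin.ext h) hij
    · have := h2 _ _ h i.2
      tauto

lemma kt_win (θ : Prop → Prop → Prop) : KWin (KT θ) := by
  rintro x ⟨h1, h2⟩ k l hkl
  refine ⟨?_, ?_⟩
  · intro i hi
    rw [r_win] at hi
    exact h1 _ hi.2.2
  · intro i j hij hj
    simp only [size_win] at hj
    have := h2 (k + i) (k + j) (by omega) (by omega)
    have e1 : (x.win k l).r i j = x.r (k + i) (k + j) := by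
      apply propext; rw [r_win]; exact ⟨fun h => h.2.2, fun h => ⟨by omega, hj, h⟩⟩
    have e2 : (x.win k l).r j i = x.r (k + j) (k + i) := by
      apply propext; rw [r_win]; exact ⟨fun h => h.2.2, fun h => ⟨hj, by omega, h⟩⟩
    rw [e1, e2]
    exact this

/-- Gluing with prescribed values `d₁, d₂` on the new pairs. -/
def glueT (d₁ d₂ : Prop) (x y : FinStr) (a o b : ℕ) : FinStr :=
  mk' (a + o + b) (fun i j =>
    (i < a + o ∧ j < a + o ∧ x.r i j) ∨ (a ≤ i ∧ a ≤ j ∧ y.r (i - a) (j - a)) ∨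
    (i < a ∧ a + o ≤ j ∧ d₁) ∨ (j < a ∧ a + o ≤ i ∧ d₂))

lemma glueT_left {d₁ d₂ : Prop} {x y : FinStr} {a o b : ℕ} (he : x.win a o = y.win 0 o)
    {i j : ℕ} (hi : i < a + o) (hj : j < a + o) : (glueT d₁ d₂ x y a o b).r i j ↔ x.r i j := by
  unfold glueT
  rw [r_mk']
  constructor
  · rintro ⟨_, _, h | h | h | h⟩
    · exact h.2.2
    · rw [win_eq_iff] at he
      have := (he (i - a) (j - a) (by omega) (by omega)).mpr (by simpa using h.2.2)
      rwa [show a + (i - a) = i by omega, show a + (j - a) = j by omega] at this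
    · omega
    · omega
  · intro h
    exact ⟨by omega, by omega, Or.inl ⟨hi, hj, h⟩⟩

lemma glueT_right {d₁ d₂ : Prop} {x y : FinStr} {a o b : ℕ} (hy : y.size = o + b)
    (he : x.win a o = y.win 0 o)
    {i j : ℕ} (hi : a ≤ i) (hj : a ≤ j) :
    (glueT d₁ d₂ x y a o b).r i j ↔ y.r (i - a) (j - a) := by
  unfold glueT
  rw [r_mk']
  constructor
  · rintro ⟨_, _, h | h | h | h⟩
    · rw [win_eq_iff] at he
      have := (he (i - a) (j - a) (by omega) (by omega)).mp (by
        rw [show a + (i - a) = i by omega, show a + (j - a) = j by omega]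
        exact h.2.2)
      simpa using this
    · exact h.2.2
    · omega
    · omega
  · intro h
    have := r_lt h
    exact ⟨by omega, by omega, Or.inr (Or.inl ⟨hi, hj, h⟩)⟩

lemma glueT_cross {d₁ d₂ : Prop} {x y : FinStr} {a o b : ℕ}
    {i j : ℕ} (hi : i < a) (hj : a + o ≤ j) (hj' : j < a + o + b) :
    ((glueT d₁ d₂ x y a o b).r i j ↔ d₁) ∧ ((glueT d₁ d₂ x y a o b).r j i ↔ d₂) := by
  unfold glueT
  rw [r_mk', r_mk']
  constructor
  · constructor
    · rintro ⟨_, _, h | h | h | h⟩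
      · omega
      · omega
      · exact h.2.2
      · omega
    · intro h
      exact ⟨by omega, by omega, Or.inr (Or.inr (Or.inl ⟨hi, hj, h⟩))⟩
  · constructor
    · rintro ⟨_, _, h | h | h | h⟩
      · omega
      · omega
      · omega
      · exact h.2.2
    · intro h
      exact ⟨by omega, by omega, Or.inr (Or.inr (Or.inr ⟨hi, hj, h⟩))⟩

lemma glueT_size {d₁ d₂ : Prop} {x y : FinStr} {a o b : ℕ} :
    (glueT d₁ d₂ x y a o b).size = a + o + b := rfl

lemma glueT_win0 {d₁ d₂ : Prop} {x y : FinStr} {a o b : ℕ} (hx : x.size = a + o)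
    (he : x.win a o = y.win 0 o) : (glueT d₁ d₂ x y a o b).win 0 (a + o) = x := by
  refine ext' (by simp [hx]) ?_
  intro i j hi hj
  simp only [size_win] at hi hj
  rw [r_win, Nat.zero_add, Nat.zero_add, glueT_left he hi hj]
  simp [hi, hj]

lemma glueT_win1 {d₁ d₂ : Prop} {x y : FinStr} {a o b : ℕ} (hy : y.size = o + b)
    (he : x.win a o = y.win 0 o) : (glueT d₁ d₂ x y a o b).win a (o + b) = y := by
  refine ext' (by simp [hy]) ?_
  intro i j hi hj
  simp only [size_win] at hi hj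
  rw [r_win, glueT_right hy he (by omega) (by omega)]
  simp [hi, hj]

lemma glueT_kt {θ : Prop → Prop → Prop} {d₁ d₂ : Prop} (hd : θ d₁ d₂) {x y : FinStr}
    {a o b : ℕ} (hxk : KT θ x) (hyk : KT θ y) (hx : x.size = a + o) (hy : y.size = o + b)
    (he : x.win a o = y.win 0 o) : KT θ (glueT d₁ d₂ x y a o b) := by
  refine ⟨?_, ?_⟩
  · intro i hi
    rcases Nat.lt_or_ge i (a + o) with h | h
    · exact hxk.1 i ((glueT_left he h h).mp hi)
    · exact hyk.1 (i - a) ((glueT_right hy he (by omega) (by omega)).mp hi)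
  · intro i j hij hj
    rw [glueT_size] at hj
    rcases Nat.lt_or_ge j (a + o) with h | h
    · have e1 := propext (glueT_left (d₁ := d₁) (d₂ := d₂) (b := b) he (hij.trans h) h)
      have e2 := propext (glueT_left (d₁ := d₁) (d₂ := d₂) (b := b) he h (hij.trans h))
      rw [e1, e2]
      exact hxk.2 i j hij (by omega)
    · rcases Nat.lt_or_ge i a with h' | h'
      · have e := glueT_cross (d₁ := d₁) (d₂ := d₂) (x := x) (y := y) (b := b) h' h hj
        rw [propext e.1, propext e.2]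
        exact hd
      · have e1 := propext (glueT_right (d₁ := d₁) (d₂ := d₂) hy he h' (h'.trans hij.le))
        have e2 := propext (glueT_right (d₁ := d₁) (d₂ := d₂) hy he (h'.trans hij.le) h')
        rw [e1, e2]
        exact hyk.2 (i - a) (j - a) (by omega) (by omega)

lemma kt_glue {θ : Prop → Prop → Prop} {d₁ d₂ : Prop} (hd : θ d₁ d₂) : KGlue (KT θ) := by
  intro x y hxk hyk a o b hx hy he
  exact ⟨glueT d₁ d₂ x y a o b, glueT_kt hd hxk hyk hx hy he, rfl, glueT_win0 hx he,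
    glueT_win1 hy he⟩

/-- glued structures have short windows from the parts -/
lemma subWin_of_glue {w n p q : ℕ} {z F : FinStr} (hz : z.size = n) (hp : p + w ≤ n)
    (hq : q + w ≤ n) (hF : F.size = p + (n - q)) (h0 : F.win 0 (p + w) = z.win 0 (p + w))
    (h1 : F.win p (n - q) = z.win q (n - q)) : SubWin w F z := by
  intro k l hl hkl
  rcases Nat.lt_or_ge (p + w) (k + l) with h | h
  · refine ⟨q + (k - p), by omega, ?_⟩
    have := win_eq_of_win_eq h1 (k - p) l (by omega)
    rwa [show p + (k - p) = k by omega] at this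
  · refine ⟨k, by omega, ?_⟩
    have := win_eq_of_win_eq h0 k l h
    simpa using this

/-- Two structures agreeing except on the pair of end points. -/
lemma twins_of_agree {F F' : FinStr} {n : ℕ} (hF : F.size = n) (hF' : F'.size = n)
    (h : ∀ i j, i < n → j < n → ¬ (i = 0 ∧ j = n - 1) → ¬ (i = n - 1 ∧ j = 0) →
      (F.r i j ↔ F'.r i j)) : Twins F F' n := by
  refine ⟨hF, hF', ?_, ?_⟩
  · rw [win_eq_iff]
    intro i j hi hj
    exact h _ _ (by omega) (by omega) (by omega) (by omega)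
  · rw [win_eq_iff]
    intro i j hi hj
    exact h _ _ (by omega) (by omega) (by omega) (by omega)

/-- Short windows of structures agreeing except on the pair of end points. -/
lemma subWin_of_agree {F F' z : FinStr} {n w : ℕ} (hF : F.size = n) (hF' : F'.size = n)
    (hn : w + 2 ≤ n) (h : ∀ i j, i < n → j < n → i ≤ j + w → j ≤ i + w →
      (F.r i j ↔ F'.r i j)) (hs : SubWin w F z) : SubWin w F' z := by
  intro k l hl hkl
  obtain ⟨k', hk', he⟩ := hs k l hl (by omega)
  refine ⟨k', hk', ?_⟩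
  rw [← he, win_eq_iff]
  intro i j hi hj
  exact (h _ _ (by omega) (by omega) (by omega) (by omega)).symm

lemma kt_step {θ : Prop → Prop → Prop} {d₁ d₂ e₁ e₂ : Prop} (hd : θ d₁ d₂) (he : θ e₁ e₂)
    (hne : ¬ ((d₁ ↔ e₁) ∧ (d₂ ↔ e₂))) (w : ℕ) : KStep (KT θ) w := by
  intro n z z' hz hz' _ htw _
  refine ⟨z, htw.1, ?_⟩
  intro p q hp hq hpn hqn htyp hbig
  have hzs := htw.1
  obtain ⟨hwin, _⟩ := typ_spec htyp
  set x := z.win 0 (p + w) with hx
  set y := z.win q (n - q) with hy
  set b := n - q - w with hb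
  have hxs : x.size = p + w := rfl
  have hys : y.size = w + b := by simp only [hy, size_win]; omega
  have hov : x.win p w = y.win 0 w := by
    rw [hx, hy, win_win _ _ _ _ _ (by omega), win_win _ _ _ _ _ (by omega)]
    simpa using hwin
  have hxk : KT θ x := kt_win θ z hz _ _ (by omega)
  have hyk : KT θ y := kt_win θ z hz _ _ (by omega)
  set F := glueT d₁ d₂ x y p w b with hF
  have hFk : KT θ F := glueT_kt hd hxk hyk hxs hys hov
  have hFs : F.size = p + (n - q) := by rw [hF, glueT_size]; omega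
  set m := p + (n - q) with hm
  let F' : FinStr := mk' m (fun i j =>
    if i = 0 ∧ j = m - 1 then e₁ else if i = m - 1 ∧ j = 0 then e₂ else F.r i j)
  have hF's : F'.size = m := rfl
  have hagree : ∀ i j, i < m → j < m → ¬ (i = 0 ∧ j = m - 1) → ¬ (i = m - 1 ∧ j = 0) →
      (F.r i j ↔ F'.r i j) := by
    intro i j hi hj h1 h2
    simp only [F', r_mk']
    rw [if_neg h1, if_neg h2]
    exact ⟨fun h => ⟨hi, hj, h⟩, fun h => h.2.2⟩
  have hcross := glueT_cross (d₁ := d₁) (d₂ := d₂) (x := x) (y := y) (a := p) (o := w) (b := b)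
    (i := 0) (j := m - 1) (by omega) (by omega) (by omega)
  have hF'0 : F'.r 0 (m - 1) ↔ e₁ := by
    have := r_mk' m (fun i j =>
      if i = 0 ∧ j = m - 1 then e₁ else if i = m - 1 ∧ j = 0 then e₂ else F.r i j) 0 (m - 1)
    rw [if_pos ⟨rfl, rfl⟩] at this
    exact this.trans ⟨fun h => h.2.2, fun h => ⟨by omega, by omega, h⟩⟩
  have hF'1 : F'.r (m - 1) 0 ↔ e₂ := by
    have := r_mk' m (fun i j =>
      if i = 0 ∧ j = m - 1 then e₁ else if i = m - 1 ∧ j = 0 then e₂ else F.r i j) (m - 1) 0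
    rw [if_neg (by omega), if_pos ⟨rfl, rfl⟩] at this
    exact this.trans ⟨fun h => h.2.2, fun h => ⟨by omega, by omega, h⟩⟩
  have hsub : SubWin w F z := by
    refine subWin_of_glue hzs hpn.le hqn.le hFs (glueT_win0 hxs hov) ?_
    have := glueT_win1 (d₁ := d₁) (d₂ := d₂) hys hov
    rw [show w + b = n - q by omega] at this
    exact this
  refine ⟨F, F', hFk, ?_, ?_, twins_of_agree hFs hF's hagree, hsub, ?_⟩
  · refine ⟨?_, ?_⟩
    · intro i hi
      have hlt := (r_lt hi).1
      rw [hF's] at hlt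
      exact hFk.1 i ((hagree i i hlt hlt (by omega) (by omega)).mpr hi)
    · intro i j hij hj
      rw [hF's] at hj
      by_cases h0 : i = 0 ∧ j = m - 1
      · obtain ⟨rfl, rfl⟩ := h0
        rw [propext hF'0, propext hF'1]
        exact he
      · rw [← propext (hagree i j (by omega) hj h0 (by omega)),
          ← propext (hagree j i hj (by omega) (by omega) (by omega))]
        exact hFk.2 i j hij (by omega)
  · intro hEq
    apply hne
    rw [← hEq] at hF'0 hF'1
    exact ⟨hcross.1.symm.trans hF'0, hcross.2.symm.trans hF'1⟩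
  · exact subWin_of_agree hFs hF's hbig (fun i j hi hj h1 h2 =>
      hagree i j hi hj (by omega) (by omega)) hsub

end Pool.Agent.Helper48.Cons
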