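import Pool.Agent.Helper48.Cons.Classes

set_option autoImplicit false

namespace Pool.Agent.Helper48.Cons

open FinStr

/-! ### Amalgamation of two partial orders on overlapping sets -/

/-- `R` is a partial order on the set `A` (and nothing outside). -/
structure POn (A : ℕ → Prop) (R : ℕ → ℕ → Prop) : Prop where
  dom : ∀ i j, R i j → A i ∧ A j
  refl : ∀ i, A i → R i i
  antisymm : ∀ i j, R i j → R j i → i = j
  trans : ∀ i j k, R i j → R j k → R i k

/-- The free amalgam. -/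
def am (A S : ℕ → Prop) (rA rS : ℕ → ℕ → Prop) (i j : ℕ) : Prop :=
  rA i j ∨ rS i j ∨ (∃ c, A c ∧ S c ∧ rA i c ∧ rS c j) ∨ (∃ c, A c ∧ S c ∧ rS i c ∧ rA c j)

lemma am_comm (A S : ℕ → Prop) (rA rS : ℕ → ℕ → Prop) (i j : ℕ) :
    am A S rA rS i j ↔ am S A rS rA i j := by
  constructor
  · rintro (h | h | ⟨c, h1, h2, h3, h4⟩ | ⟨c, h1, h2, h3, h4⟩)
    · exact Or.inr (Or.inl h)
    · exact Or.inl h
    · exact Or.inr (Or.inr (Or.inr ⟨c, h2, h1, h3, h4⟩))
    · exact Or.inr (Or.inr (Or.inl ⟨c, h2, h1, h3, h4⟩))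
  · rintro (h | h | ⟨c, h1, h2, h3, h4⟩ | ⟨c, h1, h2, h3, h4⟩)
    · exact Or.inr (Or.inl h)
    · exact Or.inl h
    · exact Or.inr (Or.inr (Or.inr ⟨c, h2, h1, h3, h4⟩))
    · exact Or.inr (Or.inr (Or.inl ⟨c, h2, h1, h3, h4⟩))

section
variable {A S : ℕ → Prop} {rA rS : ℕ → ℕ → Prop}

lemma am_AA (hA : POn A rA) (hS : POn S rS)
    (hO : ∀ i j, A i → S i → A j → S j → (rA i j ↔ rS i j)) {i j : ℕ} (hi : A i) (hj : A j) :
    am A S rA rS i j ↔ rA i j := by
  constructor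
  · rintro (h | h | ⟨c, h1, h2, h3, h4⟩ | ⟨c, h1, h2, h3, h4⟩)
    · exact h
    · have := hS.dom _ _ h
      exact (hO i j hi this.1 hj this.2).mpr h
    · have := hS.dom _ _ h4
      exact hA.trans _ _ _ h3 ((hO c j h1 h2 hj this.2).mpr h4)
    · have := hS.dom _ _ h3
      exact hA.trans _ _ _ ((hO i c hi this.1 h1 h2).mpr h3) h4
  · exact fun h => Or.inl h

lemma am_AS (hA : POn A rA) (hS : POn S rS)
    (hO : ∀ i j, A i → S i → A j → S j → (rA i j ↔ rS i j)) {i j : ℕ} (hi : A i) (hj : S j) :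
    am A S rA rS i j ↔ ∃ c, A c ∧ S c ∧ rA i c ∧ rS c j := by
  constructor
  · rintro (h | h | h | ⟨c, h1, h2, h3, h4⟩)
    · have := hA.dom _ _ h
      exact ⟨j, this.2, hj, h, hS.refl j hj⟩
    · have := hS.dom _ _ h
      exact ⟨i, hi, this.1, hA.refl i hi, h⟩
    · exact h
    · have e1 := hS.dom _ _ h3
      have e2 := hA.dom _ _ h4
      exact ⟨c, h1, h2, (hO i c hi e1.1 h1 h2).mpr h3, (hO c j h1 h2 e2.2 hj).mp h4⟩
  · exact fun h => Or.inr (Or.inr (Or.inl h))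

lemma am_SS (hA : POn A rA) (hS : POn S rS)
    (hO : ∀ i j, A i → S i → A j → S j → (rA i j ↔ rS i j)) {i j : ℕ} (hi : S i) (hj : S j) :
    am A S rA rS i j ↔ rS i j := by
  rw [am_comm]
  exact am_AA hS hA (fun i j h1 h2 h3 h4 => (hO i j h2 h1 h4 h3).symm) hi hj

lemma am_SA (hA : POn A rA) (hS : POn S rS)
    (hO : ∀ i j, A i → S i → A j → S j → (rA i j ↔ rS i j)) {i j : ℕ} (hi : S i) (hj : A j) :
    am A S rA rS i j ↔ ∃ c, A c ∧ S c ∧ rS i c ∧ rA c j := by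
  rw [am_comm, am_AS hS hA (fun i j h1 h2 h3 h4 => (hO i j h2 h1 h4 h3).symm) hi hj]
  constructor
  · rintro ⟨c, h1, h2, h3, h4⟩
    exact ⟨c, h2, h1, h3, h4⟩
  · rintro ⟨c, h1, h2, h3, h4⟩
    exact ⟨c, h2, h1, h3, h4⟩

lemma am_dom (hA : POn A rA) (hS : POn S rS) {i j : ℕ} (h : am A S rA rS i j) :
    (A i ∨ S i) ∧ (A j ∨ S j) := by
  rcases h with h | h | ⟨c, _, _, h3, h4⟩ | ⟨c, _, _, h3, h4⟩
  · exact ⟨Or.inl (hA.dom _ _ h).1, Or.inl (hA.dom _ _ h).2⟩
  · exact ⟨Or.inr (hS.dom _ _ h).1, Or.inr (hS.dom _ _ h).2⟩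
  · exact ⟨Or.inl (hA.dom _ _ h3).1, Or.inr (hS.dom _ _ h4).2⟩
  · exact ⟨Or.inr (hS.dom _ _ h3).1, Or.inl (hA.dom _ _ h4).2⟩

lemma am_trans_aux (hA : POn A rA) (hS : POn S rS)
    (hO : ∀ i j, A i → S i → A j → S j → (rA i j ↔ rS i j)) {i j k : ℕ} (hi : A i)
    (h1 : am A S rA rS i j) (h2 : am A S rA rS j k) : am A S rA rS i k := by
  obtain ⟨_, hj⟩ := am_dom hA hS h1
  obtain ⟨_, hk⟩ := am_dom hA hS h2
  rcases hj with hj | hj
  · rw [am_AA hA hS hO hi hj] at h1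
    rcases hk with hk | hk
    · rw [am_AA hA hS hO hj hk] at h2
      exact Or.inl (hA.trans _ _ _ h1 h2)
    · rw [am_AS hA hS hO hj hk] at h2
      obtain ⟨c, c1, c2, c3, c4⟩ := h2
      exact Or.inr (Or.inr (Or.inl ⟨c, c1, c2, hA.trans _ _ _ h1 c3, c4⟩))
  · rw [am_AS hA hS hO hi hj] at h1
    obtain ⟨c, c1, c2, c3, c4⟩ := h1
    rcases hk with hk | hk
    · rw [am_SA hA hS hO hj hk] at h2
      obtain ⟨d, d1, d2, d3, d4⟩ := h2
      have h5 := hS.trans _ _ _ c4 d3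
      have h6 := (hO c d c1 c2 d1 d2).mpr h5
      exact Or.inl (hA.trans _ _ _ c3 (hA.trans _ _ _ h6 d4))
    · rw [am_SS hA hS hO hj hk] at h2
      exact Or.inr (Or.inr (Or.inl ⟨c, c1, c2, c3, hS.trans _ _ _ c4 h2⟩))

lemma am_antisymm_aux (hA : POn A rA) (hS : POn S rS)
    (hO : ∀ i j, A i → S i → A j → S j → (rA i j ↔ rS i j)) {i j : ℕ} (hi : A i)
    (h1 : am A S rA rS i j) (h2 : am A S rA rS j i) : i = j := by
  obtain ⟨_, hj⟩ := am_dom hA hS h1
  rcases hj with hj | hj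
  · rw [am_AA hA hS hO hi hj] at h1
    rw [am_AA hA hS hO hj hi] at h2
    exact hA.antisymm _ _ h1 h2
  · rw [am_AS hA hS hO hi hj] at h1
    rw [am_SA hA hS hO hj hi] at h2
    obtain ⟨c, c1, c2, c3, c4⟩ := h1
    obtain ⟨d, d1, d2, d3, d4⟩ := h2
    have h5 := hS.trans _ _ _ c4 d3
    have h6 := (hO c d c1 c2 d1 d2).mpr h5
    have h7 := hA.trans _ _ _ h6 d4
    have h8 := hA.antisymm _ _ c3 h7
    subst h8
    have h9 := (hO d i d1 d2 c1 c2).mp d4
    exact hS.antisymm _ _ c4 (hS.trans _ _ _ d3 h9)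

lemma am_pon (hA : POn A rA) (hS : POn S rS)
    (hO : ∀ i j, A i → S i → A j → S j → (rA i j ↔ rS i j)) :
    POn (fun i => A i ∨ S i) (am A S rA rS) := by
  have hO' : ∀ i j, S i → A i → S j → A j → (rS i j ↔ rA i j) :=
    fun i j h1 h2 h3 h4 => (hO i j h2 h1 h4 h3).symm
  refine ⟨fun i j h => am_dom hA hS h, ?_, ?_, ?_⟩
  · rintro i (hi | hi)
    · exact Or.inl (hA.refl i hi)
    · exact Or.inr (Or.inl (hS.refl i hi))
  · intro i j h1 h2
    rcases (am_dom hA hS h1).1 with hi | hi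
    · exact am_antisymm_aux hA hS hO hi h1 h2
    · rw [am_comm] at h1 h2
      exact am_antisymm_aux hS hA hO' hi h1 h2
  · intro i j k h1 h2
    rcases (am_dom hA hS h1).1 with hi | hi
    · exact am_trans_aux hA hS hO hi h1 h2
    · rw [am_comm] at h1 h2 ⊢
      exact am_trans_aux hS hA hO' hi h1 h2

end

/-! ### Posets -/

/-- Partial orders, in terms of `r`. -/
def PO (x : FinStr) : Prop := POn (fun i => i < x.size) x.r

lemma isPoset_iff (x : FinStr) : IsPoset x ↔ PO x := by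
  constructor
  · rintro ⟨h1, h2, h3⟩
    refine ⟨fun i j h => r_lt h, fun i hi => ⟨hi, hi, h1 _⟩, ?_, ?_⟩
    · rintro i j ⟨hi, hj, h⟩ ⟨_, _, h'⟩
      exact congrArg Fin.val (h2 _ _ h h')
    · rintro i j k ⟨hi, hj, h⟩ ⟨_, hk, h'⟩
      exact ⟨hi, hk, h3 _ _ _ h h'⟩
  · intro h
    refine ⟨fun i => (rel_iff x i i).mpr (h.refl _ i.2), ?_, ?_⟩
    · intro i j hij hji
      rw [rel_iff] at hij hji
      exact Fin.ext (h.antisymm _ _ hij hji)
    · intro i j k hij hjk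
      rw [rel_iff] at hij hjk ⊢
      exact h.trans _ _ _ hij hjk

lemma po_win : KWin PO := by
  intro x hx k l hkl
  refine ⟨fun i j h => r_lt h, ?_, ?_, ?_⟩
  · intro i hi
    simp only [size_win] at hi
    rw [r_win]
    exact ⟨hi, hi, hx.refl _ (by omega)⟩
  · intro i j h1 h2
    rw [r_win] at h1 h2
    have := hx.antisymm _ _ h1.2.2 h2.2.2
    omega
  · intro i j m h1 h2
    rw [r_win] at h1 h2 ⊢
    exact ⟨h1.1, h2.2.1, hx.trans _ _ _ h1.2.2 h2.2.2⟩

lemma po_mk' {n : ℕ} {R : ℕ → ℕ → Prop} (h : POn (fun i => i < n) R) : PO (mk' n R) := by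
  refine ⟨fun i j h => r_lt h, ?_, ?_, ?_⟩
  · intro i hi
    rw [r_mk']
    exact ⟨hi, hi, h.refl i hi⟩
  · intro i j h1 h2
    rw [r_mk'] at h1 h2
    exact h.antisymm _ _ h1.2.2 h2.2.2
  · intro i j m h1 h2
    rw [r_mk'] at h1 h2 ⊢
    exact ⟨h1.1, h2.2.1, h.trans _ _ _ h1.2.2 h2.2.2⟩

/-- the shifted relation -/
def shr (y : FinStr) (a : ℕ) (i j : ℕ) : Prop := a ≤ i ∧ a ≤ j ∧ y.r (i - a) (j - a)

/-- Free amalgam of posets over an overlap. -/
def glueP (x y : FinStr) (a o b : ℕ) : FinStr :=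
  mk' (a + o + b) (am (fun i => i < a + o) (fun i => a ≤ i ∧ i < a + o + b) x.r (shr y a))

lemma shr_pon {y : FinStr} (hy : PO y) {a o b : ℕ} (hs : y.size = o + b) :
    POn (fun i => a ≤ i ∧ i < a + o + b) (shr y a) := by
  refine ⟨?_, ?_, ?_, ?_⟩
  · rintro i j ⟨h1, h2, h3⟩
    have := r_lt h3
    exact ⟨⟨h1, by omega⟩, ⟨h2, by omega⟩⟩
  · rintro i ⟨h1, h2⟩
    exact ⟨h1, h1, hy.refl _ (by omega)⟩
  · rintro i j ⟨h1, h2, h3⟩ ⟨_, _, h4⟩
    have := hy.antisymm _ _ h3 h4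
    omega
  · rintro i j k ⟨h1, h2, h3⟩ ⟨_, h5, h4⟩
    exact ⟨h1, h5, hy.trans _ _ _ h3 h4⟩

section
variable {x y : FinStr} {a o b : ℕ} (hx : PO x) (hy : PO y) (hxs : x.size = a + o)
  (hys : y.size = o + b) (he : x.win a o = y.win 0 o)
include hx hy hxs hys he

omit hy hys he in
lemma glueP_hA : POn (fun i => i < a + o) x.r := by
  have := hx
  unfold PO at this
  rwa [hxs] at this

omit hx hy hxs hys in
lemma glueP_hO : ∀ i j, i < a + o → (a ≤ i ∧ i < a + o + b) → j < a + o →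
    (a ≤ j ∧ j < a + o + b) → (x.r i j ↔ shr y a i j) := by
  intro i j hi hi' hj hj'
  rw [win_eq_iff] at he
  have := he (i - a) (j - a) (by omega) (by omega)
  rw [show a + (i - a) = i by omega, show a + (j - a) = j by omega, Nat.zero_add,
    Nat.zero_add] at this
  rw [this]
  exact ⟨fun h => ⟨hi'.1, hj'.1, h⟩, fun h => h.2.2⟩

lemma glueP_am_pon : POn (fun i => i < a + o + b)
    (am (fun i => i < a + o) (fun i => a ≤ i ∧ i < a + o + b) x.r (shr y a)) := by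
  have h := am_pon (glueP_hA hx hxs) (shr_pon hy hys) (glueP_hO (b := b) he)
  refine ⟨?_, ?_, h.antisymm, h.trans⟩
  · intro i j hij
    have := h.dom i j hij
    constructor
    · rcases this.1 with h | h
      · omega
      · exact h.2
    · rcases this.2 with h | h
      · omega
      · exact h.2
  · intro i hi
    apply h.refl
    omega

lemma glueP_po : PO (glueP x y a o b) := po_mk' (glueP_am_pon hx hy hxs hys he)

lemma glueP_r (i j : ℕ) : (glueP x y a o b).r i j ↔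
    am (fun i => i < a + o) (fun i => a ≤ i ∧ i < a + o + b) x.r (shr y a) i j := by
  unfold glueP
  rw [r_mk']
  constructor
  · exact fun h => h.2.2
  · intro h
    have := (glueP_am_pon hx hy hxs hys he).dom _ _ h
    exact ⟨this.1, this.2, h⟩

lemma glueP_AA {i j : ℕ} (hi : i < a + o) (hj : j < a + o) :
    (glueP x y a o b).r i j ↔ x.r i j := by
  rw [glueP_r hx hy hxs hys he]
  exact am_AA (glueP_hA hx hxs) (shr_pon hy hys) (glueP_hO (b := b) he) hi hj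

lemma glueP_SS {i j : ℕ} (hi : a ≤ i ∧ i < a + o + b) (hj : a ≤ j ∧ j < a + o + b) :
    (glueP x y a o b).r i j ↔ shr y a i j := by
  rw [glueP_r hx hy hxs hys he]
  exact am_SS (glueP_hA hx hxs) (shr_pon hy hys) (glueP_hO (b := b) he) hi hj

lemma glueP_AS {i j : ℕ} (hi : i < a + o) (hj : a ≤ j ∧ j < a + o + b) :
    (glueP x y a o b).r i j ↔
      ∃ c, c < a + o ∧ (a ≤ c ∧ c < a + o + b) ∧ x.r i c ∧ shr y a c j := by
  rw [glueP_r hx hy hxs hys he]
  exact am_AS (glueP_hA hx hxs) (shr_pon hy hys) (glueP_hO (b := b) he) hi hj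

lemma glueP_SA {i j : ℕ} (hi : a ≤ i ∧ i < a + o + b) (hj : j < a + o) :
    (glueP x y a o b).r i j ↔
      ∃ c, c < a + o ∧ (a ≤ c ∧ c < a + o + b) ∧ shr y a i c ∧ x.r c j := by
  rw [glueP_r hx hy hxs hys he]
  exact am_SA (glueP_hA hx hxs) (shr_pon hy hys) (glueP_hO (b := b) he) hi hj

lemma glueP_win0 : (glueP x y a o b).win 0 (a + o) = x := by
  refine ext' (by simp [hxs]) ?_
  intro i j hi hj
  simp only [size_win] at hi hj
  rw [r_win, Nat.zero_add, Nat.zero_add, glueP_AA hx hy hxs hys he hi hj]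
  simp [hi, hj]

lemma glueP_win1 : (glueP x y a o b).win a (o + b) = y := by
  refine ext' (by simp [hys]) ?_
  intro i j hi hj
  simp only [size_win] at hi hj
  rw [r_win, glueP_SS hx hy hxs hys he ⟨by omega, by omega⟩ ⟨by omega, by omega⟩]
  simp [hi, hj, shr]

end

lemma po_glue : KGlue PO := by
  intro x y hx hy a o b hxs hys he
  exact ⟨glueP x y a o b, glueP_po hx hy hxs hys he, rfl, glueP_win0 hx hy hxs hys he,
    glueP_win1 hx hy hxs hys he⟩

/-- Adding the relation `u ≤ v` to a partial order in which `u, v` are incomparable. -/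
lemma pon_add {A : ℕ → Prop} {R : ℕ → ℕ → Prop} (h : POn A R) {u v : ℕ}
    (hvu : ¬ R v u) : POn A (fun i j => R i j ∨ (R i u ∧ R v j)) := by
  refine ⟨?_, fun i hi => Or.inl (h.refl i hi), ?_, ?_⟩
  · rintro i j (hij | ⟨h1, h2⟩)
    · exact h.dom _ _ hij
    · exact ⟨(h.dom _ _ h1).1, (h.dom _ _ h2).2⟩
  · rintro i j (h1 | ⟨h1, h1'⟩) (h2 | ⟨h2, h2'⟩)
    · exact h.antisymm _ _ h1 h2
    · exact absurd (h.trans _ _ _ h2' (h.trans _ _ _ h1 h2)) hvu
    · exact absurd (h.trans _ _ _ h1' (h.trans _ _ _ h2 h1)) hvu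
    · exact absurd (h.trans _ _ _ h1' h2) hvu
  · rintro i j k (h1 | ⟨h1, h1'⟩) (h2 | ⟨h2, h2'⟩)
    · exact Or.inl (h.trans _ _ _ h1 h2)
    · exact Or.inr ⟨h.trans _ _ _ h1 h2, h2'⟩
    · exact Or.inr ⟨h1, h.trans _ _ _ h1' h2⟩
    · exact absurd (h.trans _ _ _ h1' h2) hvu

/-- Removing the pair `(u, v)` again. -/
lemma pon_add_sub {A : ℕ → Prop} {R : ℕ → ℕ → Prop} (h : POn A R) {u v : ℕ}
    (huv : ¬ R u v) (hvu : ¬ R v u) (hne : u ≠ v) :
    POn A (fun i j => (R i j ∨ (R i u ∧ R v j)) ∧ ¬ (i = u ∧ j = v)) := by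
  have h' := pon_add h hvu
  refine ⟨fun i j hij => h'.dom i j hij.1, ?_, fun i j h1 h2 => h'.antisymm i j h1.1 h2.1, ?_⟩
  · intro i hi
    refine ⟨Or.inl (h.refl i hi), ?_⟩
    rintro ⟨rfl, rfl⟩
    exact hne rfl
  · rintro i j k ⟨h1, h1n⟩ ⟨h2, h2n⟩
    refine ⟨h'.trans i j k h1 h2, ?_⟩
    rintro ⟨rfl, rfl⟩
    rcases h1 with h1 | ⟨h1, h1'⟩
    · rcases h2 with h2 | ⟨h2, h2'⟩
      · exact huv (h.trans _ _ _ h1 h2)
      · exact h2n ⟨h.antisymm _ _ h2 h1, rfl⟩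
    · rcases h2 with h2 | ⟨h2, h2'⟩
      · exact h1n ⟨rfl, h.antisymm _ _ h2 h1'⟩
      · exact hvu (h.trans _ _ _ h1' h2)

lemma po_step (w : ℕ) : KStep PO w := by
  intro n z z' hz hz' hne htw hn
  have hzs := htw.1
  have hzs' := htw.2.1
  -- agreement outside the pair of end points
  have hag : ∀ i j, ¬ (i = 0 ∧ j = n - 1) → ¬ (i = n - 1 ∧ j = 0) → (z.r i j ↔ z'.r i j) := by
    intro i j h1 h2
    by_cases hb : i < n ∧ j < n
    · obtain ⟨hi, hj⟩ := hb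
      by_cases h0 : i < n - 1 ∧ j < n - 1
      · have := htw.2.2.1
        rw [win_eq_iff] at this
        simpa using this i j h0.1 h0.2
      · have := htw.2.2.2
        rw [win_eq_iff] at this
        have := this (i - 1) (j - 1) (by omega) (by omega)
        rwa [show 1 + (i - 1) = i by omega, show 1 + (j - 1) = j by omega] at this
    · constructor
      · intro h
        have := r_lt h
        omega
      · intro h
        have := r_lt h
        omega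
  -- the intersection
  set z₀ : FinStr := mk' n (fun i j => z.r i j ∧ z'.r i j) with hz₀
  have hz₀s : z₀.size = n := rfl
  have hz₀r : ∀ i j, z₀.r i j ↔ z.r i j ∧ z'.r i j := by
    intro i j
    rw [hz₀, r_mk']
    constructor
    · exact fun h => h.2.2
    · intro h
      have := r_lt h.1
      exact ⟨by omega, by omega, h⟩
  have hz₀k : PO z₀ := by
    apply po_mk'
    refine ⟨fun i j h => ?_, fun i hi => ⟨hz.refl _ (by omega), hz'.refl _ (by omega)⟩,
      fun i j h1 h2 => hz.antisymm _ _ h1.1 h2.1,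
      fun i j k h1 h2 => ⟨hz.trans _ _ _ h1.1 h2.1, hz'.trans _ _ _ h1.2 h2.2⟩⟩
    have := r_lt h.1
    omega
  have hz₀z : ∀ i j, ¬ (i = 0 ∧ j = n - 1) → ¬ (i = n - 1 ∧ j = 0) → (z₀.r i j ↔ z.r i j) := by
    intro i j h1 h2
    rw [hz₀r, ← hag i j h1 h2]
    exact and_self_iff
  -- a member `y` of the pair, and `u, v`
  obtain ⟨y, hy, u, v, huv, hyuv, hyz, hn1, hn2⟩ : ∃ y, PO y ∧ ∃ u v,
      ((u = 0 ∧ v = n - 1) ∨ (u = n - 1 ∧ v = 0)) ∧ y.r u v ∧
      (∀ i j, ¬ (i = 0 ∧ j = n - 1) → ¬ (i = n - 1 ∧ j = 0) → (z₀.r i j ↔ y.r i j)) ∧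
      ¬ z₀.r u v ∧ ¬ z₀.r v u := by
    have hz₀z' : ∀ i j, ¬ (i = 0 ∧ j = n - 1) → ¬ (i = n - 1 ∧ j = 0) →
        (z₀.r i j ↔ z'.r i j) := fun i j h1 h2 => (hz₀z i j h1 h2).trans (hag i j h1 h2)
    -- if `z, z'` agree at both end pairs they are equal
    have hdiff : ¬ ((z.r 0 (n - 1) ↔ z'.r 0 (n - 1)) ∧ (z.r (n - 1) 0 ↔ z'.r (n - 1) 0)) := by
      rintro ⟨e1, e2⟩
      apply hne
      refine ext' (by omega) ?_
      intro i j hi hj
      by_cases h1 : i = 0 ∧ j = n - 1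
      · obtain ⟨rfl, rfl⟩ := h1; exact e1
      · by_cases h2 : i = n - 1 ∧ j = 0
        · obtain ⟨rfl, rfl⟩ := h2; exact e2
        · exact hag i j h1 h2
    have an1 : z.r 0 (n - 1) → z.r (n - 1) 0 → False := fun h1 h2 => by
      have := hz.antisymm _ _ h1 h2
      omega
    have an2 : z'.r 0 (n - 1) → z'.r (n - 1) 0 → False := fun h1 h2 => by
      have := hz'.antisymm _ _ h1 h2
      omega
    by_cases a1 : z.r 0 (n - 1)
    · have a2 : ¬ z.r (n - 1) 0 := fun h => an1 a1 h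
      refine ⟨z, hz, 0, n - 1, Or.inl ⟨rfl, rfl⟩, a1, hz₀z, ?_, ?_⟩
      · rw [hz₀r]
        rintro ⟨_, a3⟩
        exact hdiff ⟨⟨fun _ => a3, fun _ => a1⟩,
          ⟨fun h => absurd h a2, fun h => absurd h (fun h => an2 a3 h)⟩⟩
      · rw [hz₀r]
        rintro ⟨a3, _⟩
        exact a2 a3
    · by_cases a2 : z.r (n - 1) 0
      · refine ⟨z, hz, n - 1, 0, Or.inr ⟨rfl, rfl⟩, a2, hz₀z, ?_, ?_⟩
        · rw [hz₀r]
          rintro ⟨_, a3⟩
          exact hdiff ⟨⟨fun h => absurd h a1, fun h => absurd a3 (fun h' => an2 h h')⟩,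
            ⟨fun _ => a3, fun _ => a2⟩⟩
        · rw [hz₀r]
          rintro ⟨a3, _⟩
          exact a1 a3
      · by_cases a3 : z'.r 0 (n - 1)
        · refine ⟨z', hz', 0, n - 1, Or.inl ⟨rfl, rfl⟩, a3, hz₀z', ?_, ?_⟩
          · rw [hz₀r]
            rintro ⟨a4, _⟩
            exact a1 a4
          · rw [hz₀r]
            rintro ⟨a4, _⟩
            exact a2 a4
        · refine ⟨z', hz', n - 1, 0, Or.inr ⟨rfl, rfl⟩, ?_, hz₀z', ?_, ?_⟩
          · by_contra a4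
            exact hdiff ⟨⟨fun h => absurd h a1, fun h => absurd h a3⟩,
              ⟨fun h => absurd h a2, fun h => absurd h a4⟩⟩
          · rw [hz₀r]
            rintro ⟨a4, _⟩
            exact a2 a4
          · rw [hz₀r]
            rintro ⟨a4, _⟩
            exact a1 a4
  -- addability
  have hadd : ∀ i j, z₀.r i u → z₀.r v j → z₀.r i j ∨ (i = u ∧ j = v) := by
    intro i j h1 h2
    have hnuv : ∀ s t, z₀.r s t → y.r s t := by
      intro s t hst
      by_cases c1 : s = 0 ∧ t = n - 1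
      · exfalso
        obtain ⟨rfl, rfl⟩ := c1
        rcases huv with ⟨rfl, rfl⟩ | ⟨rfl, rfl⟩
        · exact hn1 hst
        · exact hn2 hst
      · by_cases c2 : s = n - 1 ∧ t = 0
        · exfalso
          obtain ⟨rfl, rfl⟩ := c2
          rcases huv with ⟨rfl, rfl⟩ | ⟨rfl, rfl⟩
          · exact hn2 hst
          · exact hn1 hst
        · exact (hyz s t c1 c2).mp hst
    have h3 := hy.trans _ _ _ (hy.trans _ _ _ (hnuv _ _ h1) hyuv) (hnuv _ _ h2)
    by_cases c : i = u ∧ j = v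
    · exact Or.inr c
    · left
      by_cases c' : i = v ∧ j = u
      · obtain ⟨rfl, rfl⟩ := c'
        exact absurd h1 hn2
      · refine (hyz i j ?_ ?_).mpr h3
        · rcases huv with ⟨rfl, rfl⟩ | ⟨rfl, rfl⟩
          · exact c
          · exact c'
        · rcases huv with ⟨rfl, rfl⟩ | ⟨rfl, rfl⟩
          · exact c'
          · exact c
  refine ⟨z₀, hz₀s, ?_⟩
  intro p q hp hq hpn hqn htyp hbig
  obtain ⟨hwin, hrel⟩ := typ_spec htyp
  set X := z₀.win 0 (p + w) with hX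
  set Y := z₀.win q (n - q) with hY
  set b := n - q - w with hb
  set m := p + (n - q) with hm
  have hXs : X.size = p + w := rfl
  have hYs : Y.size = w + b := by simp only [hY, size_win]; omega
  have hov : X.win p w = Y.win 0 w := by
    rw [hX, hY, win_win _ _ _ _ _ (by omega), win_win _ _ _ _ _ (by omega)]
    simpa using hwin
  have hXk : PO X := po_win z₀ hz₀k _ _ (by omega)
  have hYk : PO Y := po_win z₀ hz₀k _ _ (by omega)
  set F := glueP X Y p w b with hF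
  have hFs : F.size = m := by
    change p + w + b = m
    omega
  have hFk : PO F := glueP_po hXk hYk hXs hYs hov
  have hXr : ∀ i j, i < p + w → j < p + w → (X.r i j ↔ z₀.r i j) := by
    intro i j hi hj
    rw [hX, r_win]
    simp [hi, hj]
  have hshr : ∀ i j, shr Y p i j ↔ p ≤ i ∧ p ≤ j ∧ z₀.r (i - p + q) (j - p + q) := by
    intro i j
    unfold shr
    rw [hY, r_win]
    constructor
    · rintro ⟨h1, h2, h3, h4, h5⟩
      refine ⟨h1, h2, ?_⟩
      rwa [Nat.add_comm, Nat.add_comm (j - p)]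
    · rintro ⟨h1, h2, h3⟩
      have := r_lt h3
      refine ⟨h1, h2, by omega, by omega, ?_⟩
      rwa [Nat.add_comm q, Nat.add_comm q]
  have hAA : ∀ {i j}, i < p + w → j < p + w → (F.r i j ↔ z₀.r i j) := by
    intro i j hi hj
    rw [hF, glueP_AA hXk hYk hXs hYs hov hi hj, hXr i j hi hj]
  have hSS : ∀ {i j}, p ≤ i → i < m → p ≤ j → j < m →
      (F.r i j ↔ z₀.r (i - p + q) (j - p + q)) := by
    intro i j h1 h2 h3 h4
    rw [hF, glueP_SS hXk hYk hXs hYs hov ⟨h1, by omega⟩ ⟨h3, by omega⟩, hshr]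
    exact ⟨fun h => h.2.2, fun h => ⟨h1, h3, h⟩⟩
  have hAS : ∀ {i j}, i < p + w → p ≤ j → j < m → (F.r i j ↔
      ∃ c, c < w ∧ z₀.r i (p + c) ∧ z₀.r (q + c) (j - p + q)) := by
    intro i j h1 h2 h3
    rw [hF, glueP_AS hXk hYk hXs hYs hov h1 ⟨h2, by omega⟩]
    constructor
    · rintro ⟨c, hc1, hc2, hc3, hc4⟩
      refine ⟨c - p, by omega, ?_, ?_⟩
      · rw [show p + (c - p) = c by omega]
        exact (hXr i c h1 hc1).mp hc3
      · rw [Nat.add_comm q]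
        exact ((hshr c j).mp hc4).2.2
    · rintro ⟨c, hc, hc1, hc2⟩
      refine ⟨p + c, by omega, ⟨by omega, by omega⟩, (hXr i _ h1 (by omega)).mpr hc1, ?_⟩
      rw [hshr]
      refine ⟨by omega, h2, ?_⟩
      rwa [show p + c - p + q = q + c by omega]
  have hSA : ∀ {i j}, p ≤ i → i < m → j < p + w → (F.r i j ↔
      ∃ c, c < w ∧ z₀.r (i - p + q) (q + c) ∧ z₀.r (p + c) j) := by
    intro i j h1 h2 h3
    rw [hF, glueP_SA hXk hYk hXs hYs hov ⟨h1, by omega⟩ h3]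
    constructor
    · rintro ⟨c, hc1, hc2, hc3, hc4⟩
      refine ⟨c - p, by omega, ?_, ?_⟩
      · rw [Nat.add_comm q]
        exact ((hshr i c).mp hc3).2.2
      · rw [show p + (c - p) = c by omega]
        exact (hXr c j hc1 h3).mp hc4
    · rintro ⟨c, hc, hc1, hc2⟩
      refine ⟨p + c, by omega, ⟨by omega, by omega⟩, ?_, (hXr _ j (by omega) h3).mpr hc2⟩
      rw [hshr]
      refine ⟨h1, by omega, ?_⟩
      rwa [show p + c - p + q = q + c by omega]
  -- preimages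
  -- `e` is an end point of `F`, `e₀` the corresponding end point of `z₀`
  have hC1 : ∀ i, i < m → F.r 0 i → (i < p + w → z₀.r 0 i) ∧ (p ≤ i → z₀.r 0 (i - p + q)) := by
    intro i hi h
    refine ⟨fun h1 => (hAA (by omega) h1).mp h, fun h1 => ?_⟩
    obtain ⟨c, hc, hc1, hc2⟩ := (hAS (by omega) h1 hi).mp h
    exact hz₀k.trans _ _ _ ((hrel c hc).2.1.mp hc1) hc2
  have hC2 : ∀ i, i < m → F.r i 0 → (i < p + w → z₀.r i 0) ∧ (p ≤ i → z₀.r (i - p + q) 0) := by
    intro i hi h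
    refine ⟨fun h1 => (hAA h1 (by omega)).mp h, fun h1 => ?_⟩
    obtain ⟨c, hc, hc1, hc2⟩ := (hSA h1 hi (by omega)).mp h
    exact hz₀k.trans _ _ _ hc1 ((hrel c hc).1.mp hc2)
  have hlast : m - 1 - p + q = n - 1 := by omega
  have hC3 : ∀ i, i < m → F.r (m - 1) i →
      (i < p + w → z₀.r (n - 1) i) ∧ (p ≤ i → z₀.r (n - 1) (i - p + q)) := by
    intro i hi h
    refine ⟨fun h1 => ?_, fun h1 => ?_⟩
    · obtain ⟨c, hc, hc1, hc2⟩ := (hSA (by omega) (by omega) h1).mp h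
      rw [hlast] at hc1
      exact hz₀k.trans _ _ _ ((hrel c hc).2.2.2.mpr hc1) hc2
    · have := (hSS (by omega) (by omega) h1 hi).mp h
      rwa [hlast] at this
  have hC4 : ∀ i, i < m → F.r i (m - 1) →
      (i < p + w → z₀.r i (n - 1)) ∧ (p ≤ i → z₀.r (i - p + q) (n - 1)) := by
    intro i hi h
    refine ⟨fun h1 => ?_, fun h1 => ?_⟩
    · obtain ⟨c, hc, hc1, hc2⟩ := (hAS h1 (by omega) (by omega)).mp h
      rw [hlast] at hc2
      exact hz₀k.trans _ _ _ hc1 ((hrel c hc).2.2.1.mpr hc2)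
    · have := (hSS h1 hi (by omega) (by omega)).mp h
      rwa [hlast] at this
  -- the corresponding end points of `F`
  obtain ⟨U, V, hUV, hU1, hV1⟩ : ∃ U V, ((U = 0 ∧ V = m - 1 ∧ u = 0 ∧ v = n - 1) ∨
      (U = m - 1 ∧ V = 0 ∧ u = n - 1 ∧ v = 0)) ∧
      (∀ i, i < m → F.r i U → (i < p + w → z₀.r i u) ∧ (p ≤ i → z₀.r (i - p + q) u)) ∧
      (∀ i, i < m → F.r V i → (i < p + w → z₀.r v i) ∧ (p ≤ i → z₀.r v (i - p + q))) := by
    rcases huv with ⟨rfl, rfl⟩ | ⟨rfl, rfl⟩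
    · exact ⟨0, m - 1, Or.inl ⟨rfl, rfl, rfl, rfl⟩, hC2, hC3⟩
    · exact ⟨m - 1, 0, Or.inr ⟨rfl, rfl, rfl, rfl⟩, hC4, hC1⟩
  have hUVne : U ≠ V := by omega
  have hUm : U < m := by omega
  have hVm : V < m := by omega
  have hFVU : ¬ F.r V U := by
    intro h
    rcases hUV with ⟨rfl, rfl, rfl, rfl⟩ | ⟨rfl, rfl, rfl, rfl⟩
    · exact hn2 ((hV1 0 hUm h).1 (by omega))
    · have := (hV1 (m - 1) hUm h).2 (by omega)
      rw [hlast] at this
      exact hn2 this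
  have hFUV : ¬ F.r U V := by
    intro h
    rcases hUV with ⟨rfl, rfl, rfl, rfl⟩ | ⟨rfl, rfl, rfl, rfl⟩
    · have := (hC1 (m - 1) hVm h).2 (by omega)
      rw [hlast] at this
      exact hn1 this
    · exact hn1 ((hC3 0 hVm h).1 (by omega))
  -- near pairs
  have hnear : ∀ i j, i < m → j < m → i ≤ j + w → j ≤ i + w → F.r i U → F.r V j → F.r i j := by
    intro i j hi hj h1 h2 h3 h4
    by_cases hb : i < p + w ∧ j < p + w
    · have h5 := hadd i j ((hU1 i hi h3).1 hb.1) ((hV1 j hj h4).1 hb.2)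
      rcases h5 with h5 | ⟨h5, h6⟩
      · exact (hAA hb.1 hb.2).mpr h5
      · omega
    · have hpi : p ≤ i := by omega
      have hpj : p ≤ j := by omega
      have h5 := hadd _ _ ((hU1 i hi h3).2 hpi) ((hV1 j hj h4).2 hpj)
      rcases h5 with h5 | ⟨h5, h6⟩
      · exact (hSS hpi hi hpj hj).mpr h5
      · omega
  -- the new twins
  have hFp : POn (fun i => i < m) F.r := by
    have := hFk
    unfold PO at this
    rwa [hFs] at this
  let F₁ : FinStr := mk' m (fun i j => F.r i j ∨ (F.r i U ∧ F.r V j))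
  let F₂ : FinStr := mk' m (fun i j => (F.r i j ∨ (F.r i U ∧ F.r V j)) ∧ ¬ (i = U ∧ j = V))
  have hF₁r : ∀ i j, F₁.r i j ↔ i < m ∧ j < m ∧ (F.r i j ∨ (F.r i U ∧ F.r V j)) :=
    fun i j => r_mk' _ _ _ _
  have hF₂r : ∀ i j, F₂.r i j ↔ i < m ∧ j < m ∧
      ((F.r i j ∨ (F.r i U ∧ F.r V j)) ∧ ¬ (i = U ∧ j = V)) := fun i j => r_mk' _ _ _ _
  have hsub : SubWin w F z := by
    have h1 : SubWin w F z₀ := by
      refine subWin_of_glue hz₀s hpn.le hqn.le hFs (glueP_win0 hXk hYk hXs hYs hov) ?_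
      have := glueP_win1 hXk hYk hXs hYs hov
      rw [show w + b = n - q by omega] at this
      exact this
    intro k l hl hkl
    obtain ⟨k', hk', he⟩ := h1 k l hl hkl
    refine ⟨k', by omega, ?_⟩
    rw [he, win_eq_iff]
    intro i j hi hj
    exact hz₀z _ _ (by omega) (by omega)
  have hUU : F.r U U := hFp.refl U hUm
  have hVV : F.r V V := hFp.refl V hVm
  refine ⟨F₁, F₂, po_mk' (pon_add hFp hFVU), po_mk' (pon_add_sub hFp hFUV hFVU hUVne), ?_, ?_,
    ?_, ?_⟩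
  · intro hEq
    have h1 : F₁.r U V := (hF₁r U V).mpr ⟨hUm, hVm, Or.inr ⟨hUU, hVV⟩⟩
    rw [hEq, hF₂r] at h1
    exact h1.2.2.2 ⟨rfl, rfl⟩
  · refine twins_of_agree rfl rfl ?_
    intro i j hi hj h1 h2
    rw [hF₁r, hF₂r]
    have h3 : ¬ (i = U ∧ j = V) := by omega
    exact ⟨fun h => ⟨h.1, h.2.1, h.2.2, h3⟩, fun h => ⟨h.1, h.2.1, h.2.2.1⟩⟩
  · refine subWin_of_agree hFs rfl hbig ?_ hsub
    intro i j hi hj h1 h2
    rw [hF₁r]
    constructor
    · exact fun h => ⟨hi, hj, Or.inl h⟩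
    · rintro ⟨_, _, h | h⟩
      · exact h
      · exact hnear i j hi hj h1 h2 h.1 h.2
  · refine subWin_of_agree hFs rfl hbig ?_ hsub
    intro i j hi hj h1 h2
    rw [hF₂r]
    constructor
    · exact fun h => ⟨hi, hj, Or.inl h, by omega⟩
    · rintro ⟨_, _, h | h, _⟩
      · exact h
      · exact hnear i j hi hj h1 h2 h.1 h.2

end Pool.Agent.Helper48.Cons
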