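import Pool.Agent.Helper48.Cons.Theory

set_option autoImplicit false

namespace Pool.Agent.Helper48.Cons

open FinStr

variable {D : Set FinStr} {w : ℕ}

/-! ### From antichains to sequences -/

instance : PartialOrder FinStr where
  le := ConsEmb
  le_refl := ConsEmb.refl
  le_trans := fun _ _ _ => ConsEmb.trans
  le_antisymm := fun _ _ => ConsEmb.antisymm

lemma le_def {x y : FinStr} : x ≤ y ↔ ConsEmb x y := Iff.rfl

instance : WellFoundedLT FinStr where
  wf := by
    refine Subrelation.wf (r := InvImage (· < ·) FinStr.size) ?_ (InvImage.wf _ wellFounded_lt)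
    intro x y hxy
    have h1 := ConsEmb.size_le hxy.le
    rcases Nat.lt_or_ge x.size y.size with h | h
    · exact h
    · exfalso
      apply hxy.ne
      obtain ⟨k, hk, he⟩ := consEmb_iff.mp hxy.le
      have : k = 0 := by omega
      subst this
      rw [← he]
      exact y.win_full' (by omega)

lemma isWqo_iff : IsWqo D ↔ WellQuasiOrdered (fun a b : D => ConsEmb a.1 b.1) := by
  constructor
  · intro h
    have : WellQuasiOrderedLE D := by
      rw [wellQuasiOrderedLE_iff]
      refine ⟨?_, ?_⟩
      · constructor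
        exact InvImage.wf (fun x : D => x.1) (wellFounded_lt (α := FinStr))
      · intro s hs
        have hfin := h ((fun x : D => x.1) '' s) (by rintro _ ⟨x, _, rfl⟩; exact x.2) (by
          rintro _ ⟨x, hx, rfl⟩ _ ⟨y, hy, rfl⟩ hne hle
          exact hs hx hy (fun h => hne (by rw [h])) hle)
        exact hfin.of_finite_image (Subtype.val_injective.injOn)
    exact wellQuasiOrdered_le (α := D)
  · intro h A hA hanti
    by_contra hinf
    obtain ⟨m, n, hmn, hle⟩ := h (fun n => ⟨(Set.Infinite.natEmbedding A hinf n).1,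
      hA (Set.Infinite.natEmbedding A hinf n).2⟩)
    simp only at hle
    refine hanti _ (Set.Infinite.natEmbedding A hinf m).2 _
      (Set.Infinite.natEmbedding A hinf n).2 ?_ hle
    intro he
    exact hmn.ne ((Set.Infinite.natEmbedding A hinf).injective (Subtype.val_injective he))

/-! ### The antichain from a walk that breaks a period at both ends -/

lemma Good.break_lemma (hD : Good D w) {v : ℕ} (hv : w ≤ v) (per : ℕ → FinStr) (m : ℕ)
    (hm : 1 ≤ m) (hper : ∀ t, per (t + m) = per t)
    (hperD : ∀ t, per t ∈ D ∧ (per t).size = v + 1)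
    (hadj : ∀ t, (per t).win 1 v = (per (t + 1)).win 0 v)
    (a : FinStr) (ha : a ∈ D) (has : a.size = v + 1) (ha1 : a.win 1 v = (per 1).win 0 v)
    (hane : a ≠ per 0) (d : FinStr) (hd : d ∈ D) (hds : d.size = v + 1) (r : ℕ)
    (hd1 : (per r).win 1 v = d.win 0 v) (hdne : d ≠ per (r + 1)) : ¬ IsWqo D := by
  classical
  have hperk : ∀ k t, per (t + k * m) = per t := by
    intro k
    induction k with
    | zero => intro t; simp
    | succ k ih =>
      intro t
      rw [show t + (k + 1) * m = (t + k * m) + m by ring, hper, ih]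
  let l : ℕ → ℕ := fun k => r + (k + 1) * m
  let W : ℕ → ℕ → FinStr := fun k s => if s = 0 then a else if s ≤ l k then per s else d
  have hl1 : ∀ k, m ≤ l k := by
    intro k
    simp only [l]
    nlinarith
  have hlm : ∀ k k', k < k' → l k + m ≤ l k' := by
    intro k k' hkk
    simp only [l]
    have : (k + 1) * m + m ≤ (k' + 1) * m := by nlinarith
    omega
  have hreal : ∀ k, ∃ z ∈ D, z.size = l k + 1 + 1 + v ∧ ∀ s ≤ l k + 1, z.win s (v + 1) = W k s := by
    intro k
    have hlk := hl1 k
    refine hD.realize hv (W k) (l k + 1) ?_ ?_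
    · intro s _
      simp only [W]
      split_ifs
      · exact ⟨ha, has⟩
      · exact hperD s
      · exact ⟨hd, hds⟩
    · intro s hs
      simp only [W]
      by_cases h0 : s = 0
      · subst h0
        rw [if_pos rfl, if_neg (by omega), if_pos (by omega)]
        exact ha1
      · rw [if_neg h0, if_pos (by omega), if_neg (by omega)]
        by_cases h1 : s + 1 ≤ l k
        · rw [if_pos h1]
          exact hadj s
        · rw [if_neg h1]
          have : s = r + (k + 1) * m := by
            have : l k = r + (k + 1) * m := rfl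
            omega
          rw [this, hperk]
          exact hd1
  choose z hz hzs hzw using hreal
  intro hw
  have hinj : Function.Injective z := by
    intro k k' h
    by_contra hne
    have h1 := hzs k
    have h2 := hzs k'
    rw [h] at h1
    rcases lt_or_gt_of_ne hne with h' | h'
    · have := hlm _ _ h'; omega
    · have := hlm _ _ h'; omega
  refine Set.infinite_range_of_injective hinj (hw (Set.range z) ?_ ?_)
  · rintro _ ⟨k, rfl⟩
    exact hz k
  · rintro _ ⟨k, rfl⟩ _ ⟨k', rfl⟩ hne hle
    have hsz := hle.size_le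
    obtain ⟨s, hs, he⟩ := consEmb_iff.mp hle
    have hs1 := hzs k
    have hs2 := hzs k'
    have hlk := hl1 k
    have hkk : k < k' := by
      rcases Nat.lt_trichotomy k k' with h | h | h
      · exact h
      · subst h; exact absurd rfl hne
      · have := hlm _ _ h; omega
    have hgap := hlm _ _ hkk
    have key : ∀ t, t ≤ l k + 1 → W k' (s + t) = W k t := by
      intro t ht
      rw [← hzw k t ht, ← hzw k' (s + t) (by omega), ← he, win_win _ _ _ _ _ (by omega)]
    by_cases h0 : s = 0
    · subst h0
      have := key (l k + 1) le_rfl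
      simp only [W] at this
      rw [if_neg (by omega), if_pos (by omega), if_neg (by omega), if_neg (by omega)] at this
      apply hdne
      rw [← this, ← hperk (k + 1) (r + 1)]
      congr 1
      have : l k = r + (k + 1) * m := rfl
      omega
    · have k0 : per (s + 0) = a := by
        have := key 0 (by omega)
        simp only [W] at this
        rw [if_neg (by omega), if_pos (by omega)] at this
        simpa using this
      have km := key m (by omega)
      simp only [W] at km
      rw [if_neg (by omega), if_pos (by omega), if_neg (by omega), if_pos (by omega)] at km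
      apply hane
      rw [← k0, Nat.add_zero, ← hper s, km]
      have := hper 0
      rwa [Nat.zero_add] at this

/-- Two different twins occurring in the same member of `D` give an infinite antichain. -/
lemma Good.not_wqo_of_two (hD : Good D w) {M : ℕ} (hM : w + 1 ≤ M) {X : FinStr} (hX : X ∈ D)
    {s s' : ℕ} (hss : s < s') (hs' : s' + M ≤ X.size) (hne : X.win s M ≠ X.win s' M)
    (htw : Twins (X.win s M) (X.win s' M) M) : ¬ IsWqo D := by
  obtain ⟨v, rfl⟩ : ∃ v, M = v + 1 := ⟨M - 1, by omega⟩
  have htw0 : (X.win s (v + 1)).win 0 v = (X.win s' (v + 1)).win 0 v := htw.2.2.1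
  have htw1 : (X.win s (v + 1)).win 1 v = (X.win s' (v + 1)).win 1 v := htw.2.2.2
  set m := s' - s with hmdef
  have hm : 1 ≤ m := by omega
  have hlt : ∀ t, t % m < m := fun t => Nat.mod_lt _ (by omega)
  have hmem : ∀ t, X.win (s + t % m) (v + 1) ∈ D := fun t =>
    hD.win_mem _ hX _ _ (by have := hlt t; omega)
  have hadj : ∀ t, (X.win (s + t % m) (v + 1)).win 1 v =
      (X.win (s + (t + 1) % m) (v + 1)).win 0 v := by
    intro t
    have h := hlt t
    rcases Nat.lt_or_ge (t % m + 1) m with h' | h'
    · have : (t + 1) % m = t % m + 1 := by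
        rw [Nat.add_mod, Nat.mod_eq_of_lt (show 1 < m by omega), Nat.mod_eq_of_lt h']
      rw [this, win_win _ _ _ _ _ (by omega), win_win _ _ _ _ _ (by omega)]
      rfl
    · have he : t % m = m - 1 := by omega
      have : (t + 1) % m = 0 := by
        rw [← Nat.mod_add_div t m, he]
        rw [show m - 1 + m * (t / m) + 1 = m * (t / m + 1) by
          rw [Nat.mul_add, Nat.mul_one]; omega]
        simp
      rw [this, he, show s + 0 = s from rfl, htw0, win_win _ _ _ _ _ (by omega),
        win_win _ _ _ _ _ (by omega)]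
      congr 1
      omega
  refine hD.break_lemma (v := v) (by omega) (fun t => X.win (s + t % m) (v + 1)) m hm
    (fun t => by simp) (fun t => ⟨hmem t, by simp⟩) hadj
    (X.win s' (v + 1)) (hD.win_mem _ hX _ _ hs') (by simp) ?_ ?_
    (X.win s' (v + 1)) (hD.win_mem _ hX _ _ hs') (by simp) (m - 1) ?_ ?_
  · rw [← htw1, ← hadj 0]
    simp
  · simp only [Nat.zero_mod, Nat.add_zero]
    exact hne.symm
  · rw [Nat.mod_eq_of_lt (show m - 1 < m by omega), win_win _ _ _ _ _ (by omega),
      win_win _ _ _ _ _ (by omega)]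
    congr 1
    omega
  · rw [show m - 1 + 1 = m by omega, Nat.mod_self, Nat.add_zero]
    exact hne.symm

/-- Large twins prevent wqo. -/
lemma Good.not_wqo_of_twins (hD : Good D w) {N : ℕ} (hP : Pump D w N) {n : ℕ} (hn : N < n)
    (ht : HasTwins D n) : ¬ IsWqo D := by
  intro hw
  have hw' := isWqo_iff.mp hw
  have hN := hP.1
  obtain ⟨φ, hφ, hφt⟩ := Nat.exists_strictMono_subsequence
    (P := fun k => N < k ∧ HasTwins D k) (fun M => by
      obtain ⟨n', h1, h2, h3⟩ := large_twins hP hn ht M
      exact ⟨n', h1, h2, h3⟩)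
  choose hφN z hz z' hz' hne htw using hφt
  have : IsPreorder D (fun a b : D => ConsEmb a.1 b.1) :=
    { refl := fun a => ConsEmb.refl _
      trans := fun a b c => ConsEmb.trans }
  obtain ⟨i, j, hij, h1, h2⟩ := (hw'.prod hw') (fun i => (⟨z i, hz i⟩, ⟨z' i, hz' i⟩))
  simp only at h1 h2
  obtain ⟨s, hs, hse⟩ := consEmb_iff.mp h1
  obtain ⟨s', hs', hse'⟩ := consEmb_iff.mp h2
  rw [(htw i).1] at hs hse
  rw [(htw i).2.1] at hs' hse'
  have hlt := hφ hij
  have hNi := hφN i
  rw [(htw j).1] at hs
  rw [(htw j).2.1] at hs'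
  rw [← (htw j).win_eq hlt hs'] at hse'
  have hss : s ≠ s' := by
    rintro rfl
    exact hne i (by rw [← hse, hse'])
  have htw' := htw i
  rcases lt_or_gt_of_ne hss with h | h
  · refine hD.not_wqo_of_two (M := φ i) (by omega) (hz j) h (by rw [(htw j).1]; exact hs') ?_ ?_ hw
    · rw [hse, hse']; exact hne i
    · rw [hse, hse']; exact htw'
  · refine hD.not_wqo_of_two (M := φ i) (by omega) (hz j) h (by rw [(htw j).1]; exact hs) ?_ ?_ hw
    · rw [hse, hse']; exact (hne i).symm
    · rw [hse, hse']; exact htw'.symm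

/-! ### Branching vertices -/

/-- `u` has two incoming edges. -/
def LS (D : Set FinStr) (v : ℕ) (u : FinStr) : Prop :=
  ∃ x ∈ D, ∃ x' ∈ D, x.size = v + 1 ∧ x'.size = v + 1 ∧ x ≠ x' ∧ x.win 1 v = u ∧ x'.win 1 v = u

/-- `u` has two outgoing edges. -/
def RS (D : Set FinStr) (v : ℕ) (u : FinStr) : Prop :=
  ∃ x ∈ D, ∃ x' ∈ D, x.size = v + 1 ∧ x'.size = v + 1 ∧ x ≠ x' ∧ x.win 0 v = u ∧ x'.win 0 v = u

/-- A long walk from a left special vertex to a right special vertex prevents wqo. -/
lemma Good.not_wqo_of_special (hD : Good D w) {v : ℕ} (hv : w ≤ v) {z : FinStr} (hz : z ∈ D)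
    {T : ℕ} (hT : C v ≤ T) (hzs : z.size = T + v) (hL : LS D v (z.win 0 v))
    (hR : RS D v (z.win T v)) : ¬ IsWqo D := by
  classical
  obtain ⟨p, q, _, hpq, hq, he⟩ := pigeonhole_win v z 0
  set m := q - p with hmdef
  have hm : 1 ≤ m := by omega
  have hlt : ∀ t, t % m < m := fun t => Nat.mod_lt _ (by omega)
  let per0 : ℕ → FinStr := fun t => z.win (p + t % m) (v + 1)
  have hper0D : ∀ t, per0 t ∈ D := fun t => hD.win_mem _ hz _ _ (by have := hlt t; omega)
  have hper0s : ∀ t, (per0 t).size = v + 1 := fun t => by simp [per0]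
  have hper0m : ∀ t, per0 (t + m) = per0 t := fun t => by simp [per0]
  have hper0adj : ∀ t, (per0 t).win 1 v = (per0 (t + 1)).win 0 v := by
    intro t
    have h := hlt t
    simp only [per0]
    rcases Nat.lt_or_ge (t % m + 1) m with h' | h'
    · have : (t + 1) % m = t % m + 1 := by
        rw [Nat.add_mod, Nat.mod_eq_of_lt (show 1 < m by omega), Nat.mod_eq_of_lt h']
      rw [this, win_win _ _ _ _ _ (by omega), win_win _ _ _ _ _ (by omega)]
      rfl
    · have he' : t % m = m - 1 := by omega
      have : (t + 1) % m = 0 := by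
        rw [← Nat.mod_add_div t m, he']
        rw [show m - 1 + m * (t / m) + 1 = m * (t / m + 1) by
          rw [Nat.mul_add, Nat.mul_one]; omega]
        simp
      rw [this, he', win_win _ _ _ _ _ (by omega), win_win _ _ _ _ _ (by omega)]
      change z.win (p + (m - 1) + 1) v = z.win p v
      rw [he]
      congr 1
      omega
  -- the left part
  let G : FinStr → ℕ → FinStr := fun χ s =>
    if s = 0 then χ else if s ≤ p then z.win (s - 1) (v + 1) else per0 (s - (p + 1))
  have hGbig : ∀ χ s, p < s → G χ s = per0 (s - (p + 1)) := by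
    intro χ s hs
    simp only [G]
    rw [if_neg (by omega), if_neg (by omega)]
  have hGadj : ∀ χ, χ.win 1 v = z.win 0 v → ∀ s, (G χ s).win 1 v = (G χ (s + 1)).win 0 v := by
    intro χ hχ s
    rcases Nat.lt_or_ge p s with hs | hs
    · rw [hGbig _ _ hs, hGbig _ _ (by omega), hper0adj]
      congr 2
      omega
    · by_cases h0 : s = 0
      · subst h0
        have e0 : G χ 0 = χ := if_pos rfl
        rw [e0, hχ]
        by_cases h1 : 1 ≤ p
        · have e1 : G χ (0 + 1) = z.win 0 (v + 1) := by simp [G, h1]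
          rw [e1, win_win _ _ _ _ _ (by omega)]
        · rw [hGbig _ _ (by omega)]
          simp only [per0]
          have : p = 0 := by omega
          subst this
          rw [win_win _ _ _ _ _ (by omega)]
          simp
      · simp only [G]
        rw [if_neg h0, if_pos hs, if_neg (by omega), win_win _ _ _ _ _ (by omega),
          show s - 1 + 1 = s by omega]
        by_cases h1 : s + 1 ≤ p
        · rw [if_pos h1, win_win _ _ _ _ _ (by omega)]
          congr 1
        · rw [if_neg h1]
          have : s = p := by omega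
          subst this
          simp only [per0]
          rw [win_win _ _ _ _ _ (by omega)]
          simp
  have hGind : ∀ χ χ' s, 1 ≤ s → G χ s = G χ' s := by
    intro χ χ' s hs
    simp only [G]
    rw [if_neg (show ¬ s = 0 by omega), if_neg (show ¬ s = 0 by omega)]
  obtain ⟨χ, hχD, hχs, hχ1, hχne⟩ : ∃ χ ∈ D, χ.size = v + 1 ∧ χ.win 1 v = z.win 0 v ∧
      χ ≠ G χ m := by
    obtain ⟨x, hx, x', hx', hs, hs', hne, h1, h2⟩ := hL
    by_cases h : x = G x m
    · refine ⟨x', hx', hs', h2, fun h' => hne ?_⟩
      rw [h, h', hGind x x' m hm]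
    · exact ⟨x, hx, hs, h1, h⟩
  have hG0 : G χ 0 = χ := by simp [G]
  have hGD : ∀ s, G χ s ∈ D ∧ (G χ s).size = v + 1 := by
    intro s
    simp only [G]
    split_ifs with h0 h1
    · exact ⟨hχD, hχs⟩
    · exact ⟨hD.win_mem _ hz _ _ (by omega), by simp⟩
    · exact ⟨hper0D _, hper0s _⟩
  set s0 := Nat.findGreatest (fun s => G χ s ≠ G χ (s + m)) p with hs0def
  have hs0p : s0 ≤ p := Nat.findGreatest_le p
  have hs0 : G χ s0 ≠ G χ (s0 + m) :=
    Nat.findGreatest_spec (P := fun s => G χ s ≠ G χ (s + m)) (Nat.zero_le p)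
      (by rw [hG0, Nat.zero_add]; exact hχne)
  have hGper : ∀ s, s0 < s → G χ (s + m) = G χ s := by
    intro s hs
    rcases Nat.lt_or_ge p s with h | h
    · rw [hGbig _ _ h, hGbig _ _ (show p < s + m by omega),
        show s + m - (p + 1) = s - (p + 1) + m by omega, hper0m]
    · have := Nat.findGreatest_is_greatest hs h
      simp only [ne_eq, not_not] at this
      exact this.symm
  -- the right part
  let H : FinStr → ℕ → FinStr := fun ψ t => if t < T - p then z.win (p + t) (v + 1) else ψ
  have hHadj : ∀ ψ, ψ.win 0 v = z.win T v → ∀ t, t < T - p →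
      (H ψ t).win 1 v = (H ψ (t + 1)).win 0 v := by
    intro ψ hψ t ht
    simp only [H]
    rw [if_pos ht, win_win _ _ _ _ _ (by omega)]
    by_cases h : t + 1 < T - p
    · rw [if_pos h, win_win _ _ _ _ _ (by omega)]
      rfl
    · rw [if_neg h, hψ]
      congr 1
      omega
  have hHind : ∀ ψ ψ', H ψ (T - p - m) = H ψ' (T - p - m) := by
    intro ψ ψ'
    simp only [H]
    rw [if_pos (by omega), if_pos (by omega)]
  obtain ⟨ψ, hψD, hψs, hψ1, hψne⟩ : ∃ ψ ∈ D, ψ.size = v + 1 ∧ ψ.win 0 v = z.win T v ∧
      ψ ≠ H ψ (T - p - m) := by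
    obtain ⟨x, hx, x', hx', hs, hs', hne, h1, h2⟩ := hR
    by_cases h : x = H x (T - p - m)
    · refine ⟨x', hx', hs', h2, fun h' => hne ?_⟩
      rw [h, h', hHind x x']
    · exact ⟨x, hx, hs, h1, h⟩
  have hHend : H ψ (T - p) = ψ := by simp [H]
  have hHD : ∀ t, H ψ t ∈ D ∧ (H ψ t).size = v + 1 := by
    intro t
    simp only [H]
    split_ifs with h0
    · exact ⟨hD.win_mem _ hz _ _ (by omega), by simp⟩
    · exact ⟨hψD, hψs⟩
  have hex : ∃ t, m ≤ t ∧ t ≤ T - p ∧ H ψ t ≠ H ψ (t - m) :=
    ⟨T - p, by omega, le_rfl, by rw [hHend]; exact hψne⟩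
  obtain ⟨ht1m, ht1T, ht1⟩ := Nat.find_spec hex
  have hmin := fun k hk => Nat.find_min hex (m := k) hk
  set t1 := Nat.find hex with ht1def
  have hHper : ∀ t, t < t1 → H ψ t = per0 t := by
    intro t
    induction t using Nat.strong_induction_on with
    | _ t ih =>
      intro ht
      rcases Nat.lt_or_ge t m with h | h
      · simp only [H, per0]
        rw [if_pos (by omega), Nat.mod_eq_of_lt h]
      · have h1 := hmin t ht
        have h2 : H ψ t = H ψ (t - m) := by
          by_contra hcon
          exact h1 ⟨h, by omega, hcon⟩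
        rw [h2, ih (t - m) (by omega) (by omega)]
        have := hper0m (t - m)
        rw [show t - m + m = t by omega] at this
        exact this.symm
  have hHt1 : H ψ t1 ≠ per0 t1 := by
    intro h
    apply ht1
    rw [h, hHper (t1 - m) (by omega)]
    have := hper0m (t1 - m)
    rwa [show t1 - m + m = t1 by omega] at this
  -- apply the break lemma
  refine hD.break_lemma hv (fun t => G χ (s0 + m + t)) m hm ?_ (fun t => hGD _) (fun t => ?_)
    (G χ s0) (hGD s0).1 (hGD s0).2 ?_ ?_ (H ψ t1) (hHD t1).1 (hHD t1).2 (p - s0 + t1) ?_ ?_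
  · intro t
    rw [← add_assoc, hGper _ (by omega)]
  · rw [hGadj χ hχ1, add_assoc (s0 + m)]
  · rw [show s0 + m + 1 = s0 + 1 + m by omega, hGper _ (by omega), hGadj χ hχ1]
  · exact hs0
  · rw [show s0 + m + (p - s0 + t1) = m + p + t1 by omega, hGbig _ _ (by omega)]
    have h1 := hHadj ψ hψ1 (t1 - 1) (by omega)
    rw [show t1 - 1 + 1 = t1 by omega, hHper (t1 - 1) (by omega)] at h1
    rw [← h1]
    congr 1
    have := hper0m (t1 - 1)
    rw [← this]
    congr 1
    omega
  · rw [show s0 + m + (p - s0 + t1 + 1) = m + p + t1 + 1 by omega, hGbig _ _ (by omega)]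
    have := hper0m t1
    rw [show m + p + t1 + 1 - (p + 1) = t1 + m by omega, this]
    exact hHt1

/-! ### Sufficiency -/

/-- Uniqueness of the structure with given windows in the absence of large twins. -/
lemma eq_of_windows {v : ℕ} (hD : Good D w) (hA : ∀ n, v + 1 < n → ¬ HasTwins D n)
    {x x' : FinStr} (hx : x ∈ D) (hx' : x' ∈ D) {n : ℕ} (hn : x.size = n) (hn' : x'.size = n)
    (hvn : v + 1 ≤ n) (h : ∀ k, k + (v + 1) ≤ n → x.win k (v + 1) = x'.win k (v + 1)) :
    x = x' := by
  by_contra hne
  obtain ⟨k, l, hl1, hkl, hne', htw⟩ := exists_twins hn hn' hne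
  rcases Nat.lt_or_ge (v + 1) l with hl | hl
  · exact hA l hl ⟨_, hD.win_mem _ hx _ _ (by omega), _, hD.win_mem _ hx' _ _ (by omega),
      hne', htw⟩
  · apply hne'
    have h1 := h (min k (n - (v + 1))) (by omega)
    have h2 := win_eq_of_win_eq h1 (k - min k (n - (v + 1))) l (by omega)
    rwa [show min k (n - (v + 1)) + (k - min k (n - (v + 1))) = k by omega] at h2

/-- recurrent vertices -/
def Rec (D : Set FinStr) (v : ℕ) (u : FinStr) : Prop :=
  ∃ x ∈ D, ∃ m, 1 ≤ m ∧ x.size = m + v ∧ x.win 0 v = u ∧ x.win m v = u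

/-- backward forced vertices -/
def BF (D : Set FinStr) (v : ℕ) (u : FinStr) : Prop := ∀ u', Reach D v u' u → ¬ LS D v u'

/-- forward forced vertices -/
def FF (D : Set FinStr) (v : ℕ) (u : FinStr) : Prop := ∀ u', Reach D v u u' → ¬ RS D v u'

lemma Good.rec_long (hD : Good D w) {v : ℕ} (hv : w ≤ v) {u : FinStr} (h : Rec D v u) (k : ℕ) :
    ∃ x ∈ D, ∃ m, k + 1 ≤ m ∧ x.size = m + v ∧ x.win 0 v = u ∧ x.win m v = u := by
  induction k with
  | zero => exact h
  | succ k ih =>
    obtain ⟨x, hx, m, hm, hs, h0, h1⟩ := ih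
    obtain ⟨y, hy, m', hm', hs', h0', h1'⟩ := h
    obtain ⟨z, hz, hzs, hz0, hz1⟩ := hD.glue x hx y hy m v m' hv hs (by omega) (by rw [h1, h0'])
    refine ⟨z, hz, m + m', by omega, by omega, ?_, ?_⟩
    · rw [← h0, ← hz0, win_win _ _ _ _ _ (by omega), Nat.add_zero]
    · rw [← h1', ← hz1, win_win _ _ _ _ _ (by omega)]

lemma Good.bf_or_ff (hD : Good D w) {v : ℕ} (hv : w ≤ v)
    (hB : ∀ z ∈ D, ∀ T, C v ≤ T → z.size = T + v → LS D v (z.win 0 v) → ¬ RS D v (z.win T v))
    {u : FinStr} (hu : Rec D v u) : BF D v u ∨ FF D v u := by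
  by_contra hcon
  push Not at hcon
  obtain ⟨h1, h2⟩ := hcon
  unfold BF at h1
  unfold FF at h2
  push Not at h1 h2
  obtain ⟨u1, ⟨x, hx, m, hm, hx0, hx1⟩, hL⟩ := h1
  obtain ⟨u2, ⟨y, hy, m', hm', hy0, hy1⟩, hR⟩ := h2
  obtain ⟨c, hc, k, hk, hcs, hc0, hc1⟩ := hD.rec_long hv hu (C v)
  obtain ⟨z, hz, hzs, hz0, hz1⟩ := hD.glue x hx c hc m v k hv hm (by omega) (by rw [hx1, hc0])
  obtain ⟨z', hz', hzs', hz0', hz1'⟩ := hD.glue z hz y hy (m + k) v m' hv (by omega) (by omega)
    (by rw [← hz1] at hc1; rw [win_win _ _ _ _ _ (by omega)] at hc1; rw [hc1, hy0])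
  refine hB z' hz' (m + k + m') (by omega) (by omega) ?_ ?_
  · have : z'.win 0 v = u1 := by
      rw [← hx0, ← hz0, ← hz0', win_win _ _ _ _ _ (by omega), win_win _ _ _ _ _ (by omega)]
    rwa [this]
  · have : z'.win (m + k + m') v = u2 := by
      rw [← hy1, ← hz1', win_win _ _ _ _ _ (by omega)]
    rwa [this]

lemma Good.bf_spec (hD : Good D w) {v : ℕ} {x y : FinStr} (hx : x ∈ D)
    (hy : y ∈ D) {a b : ℕ} (ha : a + v ≤ x.size) (hb : b + v ≤ y.size) (hab : a ≤ b)
    (he : x.win a v = y.win b v) (hbf : BF D v (x.win a v)) :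
    ∀ t, t < a → x.win (a - 1 - t) (v + 1) = y.win (b - 1 - t) (v + 1) := by
  have step : ∀ t, t < a → x.win (a - t) v = y.win (b - t) v →
      x.win (a - 1 - t) (v + 1) = y.win (b - 1 - t) (v + 1) := by
    intro t ht hw
    by_contra hne
    refine hbf (x.win (a - t) v) (hD.reach_win hx (by omega) ha) ?_
    refine ⟨x.win (a - 1 - t) (v + 1), hD.win_mem _ hx _ _ (by omega),
      y.win (b - 1 - t) (v + 1), hD.win_mem _ hy _ _ (by omega), by simp, by simp, hne, ?_, ?_⟩
    · rw [win_win _ _ _ _ _ (by omega)]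
      congr 1
      omega
    · rw [win_win _ _ _ _ _ (by omega), hw]
      congr 1
      omega
  intro t
  induction t with
  | zero =>
    intro ht
    exact step 0 ht (by simpa using he)
  | succ t ih =>
    intro ht
    refine step (t + 1) ht ?_
    have := win_eq_of_win_eq (ih (by omega)) 0 v (by omega)
    rw [show a - 1 - t + 0 = a - (t + 1) by omega, show b - 1 - t + 0 = b - (t + 1) by omega] at this
    exact this

lemma Good.ff_spec (hD : Good D w) {v : ℕ} {x y : FinStr} (hx : x ∈ D)
    (hy : y ∈ D) {i j : ℕ}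
    (he : x.win i v = y.win j v) (hff : FF D v (x.win i v)) :
    ∀ t, i + t + (v + 1) ≤ x.size → j + t + (v + 1) ≤ y.size →
      x.win (i + t) (v + 1) = y.win (j + t) (v + 1) := by
  have step : ∀ t, i + t + (v + 1) ≤ x.size → j + t + (v + 1) ≤ y.size →
      x.win (i + t) v = y.win (j + t) v → x.win (i + t) (v + 1) = y.win (j + t) (v + 1) := by
    intro t h1 h2 hw
    by_contra hne
    refine hff (x.win (i + t) v) (hD.reach_win hx (by omega) (by omega)) ?_
    refine ⟨x.win (i + t) (v + 1), hD.win_mem _ hx _ _ (by omega),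
      y.win (j + t) (v + 1), hD.win_mem _ hy _ _ (by omega), by simp, by simp, hne, ?_, ?_⟩
    · rw [win_win _ _ _ _ _ (by omega), Nat.add_zero]
    · rw [win_win _ _ _ _ _ (by omega), hw, Nat.add_zero]
  intro t
  induction t with
  | zero =>
    intro h1 h2
    exact step 0 h1 h2 (by simpa using he)
  | succ t ih =>
    intro h1 h2
    refine step (t + 1) h1 h2 ?_
    exact win_eq_of_win_eq (ih (by omega) (by omega)) 1 v (by omega)

theorem Good.wqo_of_conditions (hD : Good D w) {v : ℕ} (hv : w ≤ v)
    (hA : ∀ n, v + 1 < n → ¬ HasTwins D n)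
    (hB : ∀ z ∈ D, ∀ T, C v ≤ T → z.size = T + v → LS D v (z.win 0 v) → ¬ RS D v (z.win T v)) :
    IsWqo D := by
  classical
  rw [isWqo_iff]
  let Q : FinStr → ℕ → Prop := fun z p => p + v ≤ z.size ∧ Rec D v (z.win p v) ∧ BF D v (z.win p v)
  let P : FinStr → ℕ := fun z => Nat.findGreatest (Q z) z.size
  let B0 : ℕ := v + C v + 1
  have hP1 : ∀ z, P z ≠ 0 → Q z (P z) := by
    intro z h
    exact Nat.findGreatest_of_ne_zero rfl h
  have hPle : ∀ z, P z ≤ z.size := fun z => Nat.findGreatest_le _
  have hPmax : ∀ z p, P z < p → p + v ≤ z.size → Rec D v (z.win p v) → ¬ BF D v (z.win p v) := by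
    intro z p hp hpz hr hb
    exact Nat.findGreatest_is_greatest (P := Q z) hp (by omega) ⟨hpz, hr, hb⟩
  let Sf : Type := {x : FinStr // x.size ≤ B0}
  have hfin : Finite Sf := (finite_size_le B0).to_subtype
  have hCv := C_pos v
  let g : FinStr → Sf := fun z => ⟨z.win (P z) (min (z.size - P z) B0), by simp⟩
  let h : FinStr → Sf := fun z => ⟨z.win 0 (min z.size (v + 1)), by
    simp only [size_win, B0]; omega⟩
  have hwq : WellQuasiOrdered (fun a b : (Prop × Sf × Sf) × (ℕ × ℕ) =>
      a.1 = b.1 ∧ (a.2.1 ≤ b.2.1 ∧ a.2.2 ≤ b.2.2)) := by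
    have h1 : WellQuasiOrdered (fun a b : Prop × Sf × Sf => a = b) := Finite.wellQuasiOrdered _
    have h2 : WellQuasiOrdered (fun a b : ℕ × ℕ => a.1 ≤ b.1 ∧ a.2 ≤ b.2) :=
      (wellQuasiOrdered_le (α := ℕ)).prod (wellQuasiOrdered_le (α := ℕ))
    have : IsPreorder (Prop × Sf × Sf) (fun a b => a = b) :=
      { refl := fun a => rfl
        trans := fun a b c => Eq.trans }
    exact h1.prod h2
  intro f
  obtain ⟨i, j, hij, hdata, hle1, hle2⟩ := hwq (fun i =>
    ((Q (f i).1 (P (f i).1), g (f i).1, h (f i).1), (P (f i).1, (f i).1.size - P (f i).1)))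
  refine ⟨i, j, hij, ?_⟩
  simp only [Prod.mk.injEq, eq_iff_iff] at hdata hle1 hle2
  obtain ⟨hflag, hg, hh⟩ := hdata
  have hzD := (f i).2
  have hz'D := (f j).2
  set z := (f i).1 with hzdef
  set z' := (f j).1 with hz'def
  -- small structures
  rcases Nat.lt_or_ge z.size (v + 1) with hsmall | hbig
  · have hh' : z.win 0 (min z.size (v + 1)) = z'.win 0 (min z'.size (v + 1)) :=
      congrArg Subtype.val hh
    rw [min_eq_left hsmall.le] at hh'
    have hs := congrArg FinStr.size hh'
    simp only [size_win] at hs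
    have : z'.size = z.size := by omega
    rw [win_full, min_eq_left (by omega), win_full] at hh'
    rw [hh']
    exact ConsEmb.refl _
  · have hg' : z.win (P z) (min (z.size - P z) B0) = z'.win (P z') (min (z'.size - P z') B0) :=
      congrArg Subtype.val hg
    have hgs := congrArg FinStr.size hg'
    simp only [size_win] at hgs
    rw [← hgs] at hg'
    have hPz := hPle z
    have hPz' := hPle z'
    rw [consEmb_iff]
    refine ⟨P z' - P z, by omega, ?_⟩
    refine eq_of_windows hD hA (hD.win_mem _ hz'D _ _ (by omega)) hzD (by simp) rfl hbig ?_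
    intro k hk
    rw [win_win _ _ _ _ _ hk]
    rcases Nat.lt_or_ge k (P z) with hkP | hkP
    · -- left part
      have hQ := hP1 z (by omega)
      have hQ' : Q z' (P z') := hflag.mp hQ
      have e1 : z.win (P z) v = z'.win (P z') v := by
        have := win_eq_of_win_eq hg' 0 v (by
          have h1 := hQ.1
          simp only [B0]
          omega)
        simpa using this
      have := hD.bf_spec hzD hz'D hQ.1 hQ'.1 hle1 e1 hQ.2.2 (P z - 1 - k) (by omega)
      rw [show P z - 1 - (P z - 1 - k) = k by omega,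
        show P z' - 1 - (P z - 1 - k) = P z' - P z + k by omega] at this
      exact this.symm
    · -- right part
      by_cases hin : k + (v + 1) ≤ P z + min (z.size - P z) B0
      · have := win_eq_of_win_eq hg' (k - P z) (v + 1) (by omega)
        rw [show P z + (k - P z) = k by omega,
          show P z' + (k - P z) = P z' - P z + k by omega] at this
        exact this.symm
      · have hB0 : min (z.size - P z) B0 = B0 := by
          rcases le_total (z.size - P z) B0 with h1 | h1
          · rw [min_eq_left h1] at hin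
            omega
          · exact min_eq_right h1
        rw [hB0] at hin hg' hgs
        have hB0le : B0 ≤ z.size - P z := by
          rw [← hB0]; exact min_le_left _ _
        have hB0def : B0 = v + C v + 1 := rfl
        obtain ⟨p', q', hp1, hp2, hp3, hpe⟩ := pigeonhole_win v z (P z + 1)
        have hrec : Rec D v (z.win p' v) := by
          refine ⟨z.win p' (q' - p' + v), hD.win_mem _ hzD _ _ (by omega), q' - p', by omega,
            by simp, ?_, ?_⟩
          · rw [win_win _ _ _ _ _ (by omega), Nat.add_zero]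
          · rw [win_win _ _ _ _ _ (by omega), show p' + (q' - p') = q' by omega, hpe]
        have hff : FF D v (z.win p' v) := by
          rcases hD.bf_or_ff hv hB hrec with h1 | h1
          · exact absurd h1 (hPmax z p' (by omega) (by omega) hrec)
          · exact h1
        have e1 : z.win p' v = z'.win (P z' + (p' - P z)) v := by
          have := win_eq_of_win_eq hg' (p' - P z) v (by omega)
          rwa [show P z + (p' - P z) = p' by omega] at this
        have := hD.ff_spec hzD hz'D e1 hff (k - p') (by omega) (by omega)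
        rw [show p' + (k - p') = k by omega,
          show P z' + (p' - P z) + (k - p') = P z' - P z + k by omega] at this
        exact this.symm

/-- The bounded criterion for wqo. -/
theorem isWqo_iff_bounded {v : ℕ} (hD : Good D w) (hP : Pump D w (v + 1)) :
    IsWqo D ↔ (∀ n, v + 1 < n → n ≤ 2 * (v + 1) → ¬ HasTwins D n) ∧
      ∀ z ∈ D, ∀ T, C v ≤ T → T ≤ 2 * C v → z.size = T + v →
        LS D v (z.win 0 v) → ¬ RS D v (z.win T v) := by
  have hwv : w ≤ v := by have := hP.1; omega
  constructor
  · intro h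
    refine ⟨?_, ?_⟩
    · intro n hn _ ht
      exact hD.not_wqo_of_twins hP hn ht h
    · intro z hz T hT _ hs hL hR
      exact hD.not_wqo_of_special hwv hz hT hs hL hR h
  · rintro ⟨hA, hB⟩
    refine hD.wqo_of_conditions hwv (noTwins_of_bounded hP hA) ?_
    -- full (B) from bounded (B)
    intro z hz T
    induction T using Nat.strong_induction_on generalizing z with
    | _ T ih =>
      intro hT hs hL hR
      rcases Nat.lt_or_ge (2 * C v) T with h | h
      · obtain ⟨p, q, _, hpq, hq, he⟩ := pigeonhole_win v z 0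
        obtain ⟨z', hz', hzs', hz0, hz1⟩ := hD.cut hwv hz hpq (by omega) he
        refine ih (T - (q - p)) (by omega) z' hz' (by omega) (by omega) ?_ ?_
        · have := win_eq_of_win_eq hz0 0 v (by omega)
          rw [Nat.zero_add] at this
          rwa [this]
        · have := win_eq_of_win_eq hz1 (T - q) v (by omega)
          rw [show p + (T - q) = T - (q - p) by omega, show q + (T - q) = T by omega] at this
          rwa [this]
      · exact hB z hz T hT h hs hL hR

end Pool.Agent.Helper48.Cons
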