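import Pool.Agent.Helper48.Cons.Atomic
import Pool.Agent.Helper48.Cons.Wqo
import Pool.Agent.Helper48.Cons.Poset

set_option autoImplicit false

namespace Pool.Agent.Helper48.Cons

open FinStr

/-! ### Primitive recursive predicates -/

section prim
variable {α : Type} [Primcodable α]

lemma pp_exists_lt {f : α → ℕ} (hf : Primrec f) {P : α → ℕ → Prop}
    (hP : PrimrecPred fun q : α × ℕ => P q.1 q.2) : PrimrecPred fun a => ∃ x < f a, P a x := by
  have hR : PrimrecRel fun (x : ℕ) (a : α) => P a x :=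
    hP.comp (Primrec.pair Primrec.snd Primrec.fst)
  exact (hR.exists_mem_list.comp (Primrec.list_range.comp hf) Primrec.id).of_eq (by simp)

lemma pp_forall_lt {f : α → ℕ} (hf : Primrec f) {P : α → ℕ → Prop}
    (hP : PrimrecPred fun q : α × ℕ => P q.1 q.2) : PrimrecPred fun a => ∀ x < f a, P a x := by
  have hR : PrimrecRel fun (x : ℕ) (a : α) => P a x :=
    hP.comp (Primrec.pair Primrec.snd Primrec.fst)
  exact (hR.forall_mem_list.comp (Primrec.list_range.comp hf) Primrec.id).of_eq (by simp)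

lemma pp_forall_mem {β : Type} [Primcodable β] {f : α → List β} (hf : Primrec f)
    {P : α → β → Prop} (hP : PrimrecPred fun q : α × β => P q.1 q.2) :
    PrimrecPred fun a => ∀ x ∈ f a, P a x := by
  have hR : PrimrecRel fun (x : β) (a : α) => P a x :=
    hP.comp (Primrec.pair Primrec.snd Primrec.fst)
  exact (hR.forall_mem_list.comp hf Primrec.id).of_eq (by simp)

lemma pp_mem {β : Type} [Primcodable β] {f : α → List β} (hf : Primrec f)
    {g : α → β} (hg : Primrec g) : PrimrecPred fun a => g a ∈ f a := by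
  have hR : PrimrecRel fun (x y : β) => x = y := Primrec.eq
  exact (hR.exists_mem_list.comp hf hg).of_eq (by simp)

lemma pp_imp {p q : α → Prop} (hp : PrimrecPred p) (hq : PrimrecPred q) :
    PrimrecPred fun a => p a → q a :=
  (hp.not.or hq).of_eq fun a => by tauto

lemma pp_iff {p q : α → Prop} (hp : PrimrecPred p) (hq : PrimrecPred q) :
    PrimrecPred fun a => p a ↔ q a :=
  ((hp.and hq).or (hp.not.and hq.not)).of_eq fun a => by tauto

lemma pp_lt {f g : α → ℕ} (hf : Primrec f) (hg : Primrec g) : PrimrecPred fun a => f a < g a :=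
  Primrec.nat_lt.comp hf hg

lemma pp_le {f g : α → ℕ} (hf : Primrec f) (hg : Primrec g) : PrimrecPred fun a => f a ≤ g a :=
  Primrec.nat_le.comp hf hg

lemma pp_eq {f g : α → ℕ} (hf : Primrec f) (hg : Primrec g) : PrimrecPred fun a => f a = g a :=
  Primrec.eq.comp hf hg

lemma p_add {f g : α → ℕ} (hf : Primrec f) (hg : Primrec g) : Primrec fun a => f a + g a :=
  Primrec.nat_add.comp hf hg

lemma p_mul {f g : α → ℕ} (hf : Primrec f) (hg : Primrec g) : Primrec fun a => f a * g a :=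
  Primrec.nat_mul.comp hf hg

lemma p_sub {f g : α → ℕ} (hf : Primrec f) (hg : Primrec g) : Primrec fun a => f a - g a :=
  Primrec.nat_sub.comp hf hg

lemma p_pow {f g : α → ℕ} (hf : Primrec f) (hg : Primrec g) : Primrec fun a => f a ^ g a := by
  have h : Primrec₂ (fun a b : ℕ => a ^ b) := Primrec₂.unpaired'.mp Nat.Primrec.pow
  exact h.comp hf hg

lemma p_C {f : α → ℕ} (hf : Primrec f) : Primrec fun a => C (f a) :=
  p_pow (Primrec.const 2) (p_mul hf hf)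

lemma pp_testBit {f g : α → ℕ} (hf : Primrec f) (hg : Primrec g) :
    PrimrecPred fun a => (f a).testBit (g a) = true := by
  have h := pp_eq (Primrec.nat_mod.comp (Primrec.nat_div.comp hf (p_pow (Primrec.const 2) hg))
    (Primrec.const 2)) (Primrec.const 1)
  exact h.of_eq fun a => by rw [Nat.testBit_eq_decide_div_mod_eq]; simp

/-- the relation of a coded structure -/
def rb (n c i j : ℕ) : Prop := c.testBit (i * n + j) = true

lemma pp_rb {n c i j : α → ℕ} (hn : Primrec n) (hc : Primrec c) (hi : Primrec i)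
    (hj : Primrec j) : PrimrecPred fun a => rb (n a) (c a) (i a) (j a) :=
  pp_testBit hc (p_add (p_mul hi hn) hj)

/-- equality of windows of coded structures -/
def we (n c k n' c' k' l : ℕ) : Prop :=
  ∀ i < l, ∀ j < l, (rb n c (k + i) (k + j) ↔ rb n' c' (k' + i) (k' + j))

lemma pp_we {n c k n' c' k' l : α → ℕ} (hn : Primrec n) (hc : Primrec c) (hk : Primrec k)
    (hn' : Primrec n') (hc' : Primrec c') (hk' : Primrec k') (hl : Primrec l) :
    PrimrecPred fun a => we (n a) (c a) (k a) (n' a) (c' a) (k' a) (l a) := by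
  unfold we
  refine pp_forall_lt hl (P := fun a i => ∀ j < l a,
    (rb (n a) (c a) (k a + i) (k a + j) ↔ rb (n' a) (c' a) (k' a + i) (k' a + j))) ?_
  refine pp_forall_lt (hl.comp Primrec.fst) (P := fun (q : α × ℕ) j =>
    (rb (n q.1) (c q.1) (k q.1 + q.2) (k q.1 + j) ↔
      rb (n' q.1) (c' q.1) (k' q.1 + q.2) (k' q.1 + j))) ?_
  have f1 : Primrec fun q : (α × ℕ) × ℕ => q.1.1 := Primrec.fst.comp Primrec.fst
  have f2 : Primrec fun q : (α × ℕ) × ℕ => q.1.2 := Primrec.snd.comp Primrec.fst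
  have f3 : Primrec fun q : (α × ℕ) × ℕ => q.2 := Primrec.snd
  exact pp_iff (pp_rb (hn.comp f1) (hc.comp f1) (p_add (hk.comp f1) f2) (p_add (hk.comp f1) f3))
    (pp_rb (hn'.comp f1) (hc'.comp f1) (p_add (hk'.comp f1) f2) (p_add (hk'.comp f1) f3))

end prim

lemma dec_r {n c i j : ℕ} (hi : i < n) (hj : j < n) : (dec n c).r i j ↔ rb n c i j := by
  rw [r_dec]
  exact ⟨fun h => h.2.2, fun h => ⟨hi, hj, h⟩⟩

lemma we_iff {n c k n' c' k' l : ℕ} (h : k + l ≤ n) (h' : k' + l ≤ n') :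
    (dec n c).win k l = (dec n' c').win k' l ↔ we n c k n' c' k' l := by
  rw [win_eq_iff]
  unfold we
  constructor
  · intro H i hi j hj
    rw [← dec_r (by omega) (by omega), ← dec_r (by omega) (by omega)]
    exact H i j hi hj
  · intro H i j hi hj
    rw [dec_r (by omega) (by omega), dec_r (by omega) (by omega)]
    exact H i hi j hj

lemma forall_size {P : FinStr → Prop} {n : ℕ} :
    (∀ x : FinStr, x.size = n → P x) ↔ ∀ c < 2 ^ (n * n), P (dec n c) := by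
  constructor
  · intro h c _
    exact h _ rfl
  · rintro h x rfl
    obtain ⟨c, hc, he⟩ := exists_code x
    rw [← he]
    exact h c hc

lemma exists_size {P : FinStr → Prop} {n : ℕ} :
    (∃ x : FinStr, x.size = n ∧ P x) ↔ ∃ c < 2 ^ (n * n), P (dec n c) := by
  constructor
  · rintro ⟨x, rfl, h⟩
    obtain ⟨c, hc, he⟩ := exists_code x
    rw [← he] at h
    exact ⟨c, hc, h⟩
  · rintro ⟨c, _, h⟩
    exact ⟨_, rfl, h⟩

lemma forall_size_le {P : FinStr → Prop} {N : ℕ} :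
    (∀ x : FinStr, x.size ≤ N → P x) ↔ ∀ n < N + 1, ∀ c < 2 ^ (n * n), P (dec n c) := by
  constructor
  · intro h n hn c _
    exact h _ (by rw [size_dec]; omega)
  · intro h x hx
    exact (forall_size (P := P)).mpr (h x.size (by omega)) x rfl

lemma exists_size_le {P : FinStr → Prop} {N : ℕ} :
    (∃ x : FinStr, x.size ≤ N ∧ P x) ↔ ∃ n < N + 1, ∃ c < 2 ^ (n * n), P (dec n c) := by
  constructor
  · rintro ⟨x, hx, h⟩
    exact ⟨x.size, by omega, (exists_size (P := P)).mp ⟨x, rfl, h⟩⟩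
  · rintro ⟨n, hn, c, _, h⟩
    exact ⟨_, by rw [size_dec]; omega, h⟩

/-- the structure coded by a pair -/
def D2 (p : ℕ × ℕ) : FinStr := dec p.1 p.2

@[simp] lemma size_D2 (p : ℕ × ℕ) : (D2 p).size = p.1 := rfl

/-- windows in range that are equal -/
def WE (x : FinStr) (k : ℕ) (y : FinStr) (k' l : ℕ) : Prop :=
  k + l ≤ x.size ∧ k' + l ≤ y.size ∧ x.win k l = y.win k' l

section prim
variable {α : Type} [Primcodable α]

lemma pp_forall_str {f : α → ℕ} (hf : Primrec f) {P : α → FinStr → Prop}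
    (hP : PrimrecPred fun q : α × (ℕ × ℕ) => P q.1 (D2 q.2)) :
    PrimrecPred fun a => ∀ x : FinStr, x.size ≤ f a → P a x := by
  have h : PrimrecPred fun a => ∀ n < f a + 1, ∀ c < 2 ^ (n * n), P a (dec n c) := by
    refine pp_forall_lt (p_add hf (Primrec.const 1))
      (P := fun a n => ∀ c < 2 ^ (n * n), P a (dec n c)) ?_
    refine pp_forall_lt (p_pow (Primrec.const 2) (p_mul Primrec.snd Primrec.snd))
      (P := fun (q : α × ℕ) c => P q.1 (dec q.2 c)) ?_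
    exact hP.comp (f := fun q : (α × ℕ) × ℕ => (q.1.1, (q.1.2, q.2)))
      (Primrec.pair (Primrec.fst.comp Primrec.fst)
        (Primrec.pair (Primrec.snd.comp Primrec.fst) Primrec.snd))
  exact h.of_eq fun a => forall_size_le.symm

lemma pp_exists_str {f : α → ℕ} (hf : Primrec f) {P : α → FinStr → Prop}
    (hP : PrimrecPred fun q : α × (ℕ × ℕ) => P q.1 (D2 q.2)) :
    PrimrecPred fun a => ∃ x : FinStr, x.size ≤ f a ∧ P a x := by
  have h : PrimrecPred fun a => ∃ n < f a + 1, ∃ c < 2 ^ (n * n), P a (dec n c) := by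
    refine pp_exists_lt (p_add hf (Primrec.const 1))
      (P := fun a n => ∃ c < 2 ^ (n * n), P a (dec n c)) ?_
    refine pp_exists_lt (p_pow (Primrec.const 2) (p_mul Primrec.snd Primrec.snd))
      (P := fun (q : α × ℕ) c => P q.1 (dec q.2 c)) ?_
    exact hP.comp (f := fun q : (α × ℕ) × ℕ => (q.1.1, (q.1.2, q.2)))
      (Primrec.pair (Primrec.fst.comp Primrec.fst)
        (Primrec.pair (Primrec.snd.comp Primrec.fst) Primrec.snd))
  exact h.of_eq fun a => exists_size_le.symm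

lemma pp_WE {s t : α → ℕ × ℕ} {k k' l : α → ℕ} (hs : Primrec s) (ht : Primrec t)
    (hk : Primrec k) (hk' : Primrec k') (hl : Primrec l) :
    PrimrecPred fun a => WE (D2 (s a)) (k a) (D2 (t a)) (k' a) (l a) := by
  have h := ((pp_le (p_add hk hl) (Primrec.fst.comp hs)).and
    ((pp_le (p_add hk' hl) (Primrec.fst.comp ht)).and
    (pp_we (Primrec.fst.comp hs) (Primrec.snd.comp hs) hk (Primrec.fst.comp ht)
      (Primrec.snd.comp ht) hk' hl)))
  refine h.of_eq fun a => ?_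
  unfold WE
  constructor
  · rintro ⟨h1, h2, h3⟩
    exact ⟨h1, h2, (we_iff h1 h2).mpr h3⟩
  · rintro ⟨h1, h2, h3⟩
    exact ⟨h1, h2, (we_iff h1 h2).mp h3⟩

lemma pp_eqs {s t : α → ℕ × ℕ} (hs : Primrec s) (ht : Primrec t) :
    PrimrecPred fun a => D2 (s a) = D2 (t a) := by
  have h := (pp_eq (Primrec.fst.comp hs) (Primrec.fst.comp ht)).and
    (pp_WE hs ht (Primrec.const 0) (Primrec.const 0) (Primrec.fst.comp hs))
  refine h.of_eq fun a => ?_
  unfold WE
  constructor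
  · rintro ⟨h1, _, _, h3⟩
    rwa [win_full' (D2 (s a)) (n := (s a).1) rfl, win_full' (D2 (t a)) (n := (s a).1) h1.symm] at h3
  · intro h
    have h1 : (s a).1 = (t a).1 := congrArg FinStr.size h
    refine ⟨h1, by simp, by simp [h1], ?_⟩
    rw [h]

lemma pp_consEmb {s t : α → ℕ × ℕ} (hs : Primrec s) (ht : Primrec t) :
    PrimrecPred fun a => ConsEmb (D2 (s a)) (D2 (t a)) := by
  have f1 : Primrec fun q : α × ℕ => q.1 := Primrec.fst
  have f2 : Primrec fun q : α × ℕ => q.2 := Primrec.snd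
  have h : PrimrecPred fun a => ∃ k < (t a).1 + 1, WE (D2 (t a)) k (D2 (s a)) 0 (s a).1 := by
    refine pp_exists_lt (p_add (Primrec.fst.comp ht) (Primrec.const 1))
      (P := fun a k => WE (D2 (t a)) k (D2 (s a)) 0 (s a).1) ?_
    exact pp_WE (ht.comp f1) (hs.comp f1) f2 (Primrec.const 0) (Primrec.fst.comp (hs.comp f1))
  refine h.of_eq fun a => ?_
  rw [consEmb_iff]
  simp only [size_D2]
  constructor
  · rintro ⟨k, _, hk, _, hw⟩
    refine ⟨k, hk, ?_⟩
    rw [hw]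
    exact win_full' _ rfl
  · rintro ⟨k, hk, hw⟩
    refine ⟨k, by omega, hk, by simp, ?_⟩
    rw [hw]
    exact (win_full' _ rfl).symm

/-- embedding of an explicitly given structure -/
lemma pp_consEmb_toStr {e : α → ℕ × List (ℕ × ℕ)} {s : α → ℕ × ℕ} (he : Primrec e)
    (hs : Primrec s) :
    PrimrecPred fun a => ConsEmb (toStr (e a)) (D2 (s a)) := by
  have h : PrimrecPred fun a => ∃ k < (s a).1 + 1, k + (e a).1 ≤ (s a).1 ∧ ∀ i < (e a).1,
      ∀ j < (e a).1, ((i, j) ∈ (e a).2 ↔ rb (s a).1 (s a).2 (k + i) (k + j)) := by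
    refine pp_exists_lt (p_add (Primrec.fst.comp hs) (Primrec.const 1))
      (P := fun a k => k + (e a).1 ≤ (s a).1 ∧
      ∀ i < (e a).1, ∀ j < (e a).1, ((i, j) ∈ (e a).2 ↔ rb (s a).1 (s a).2 (k + i) (k + j))) ?_
    have f1 : Primrec fun q : α × ℕ => q.1 := Primrec.fst
    have f2 : Primrec fun q : α × ℕ => q.2 := Primrec.snd
    refine (pp_le (p_add f2 (Primrec.fst.comp (he.comp f1))) (Primrec.fst.comp (hs.comp f1))).and ?_
    refine pp_forall_lt (Primrec.fst.comp (he.comp f1)) (P := fun (q : α × ℕ) i =>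
      ∀ j < (e q.1).1, ((i, j) ∈ (e q.1).2 ↔ rb (s q.1).1 (s q.1).2 (q.2 + i) (q.2 + j))) ?_
    have g1 : Primrec fun q : (α × ℕ) × ℕ => q.1.1 := Primrec.fst.comp Primrec.fst
    have g2 : Primrec fun q : (α × ℕ) × ℕ => q.1.2 := Primrec.snd.comp Primrec.fst
    have g3 : Primrec fun q : (α × ℕ) × ℕ => q.2 := Primrec.snd
    refine pp_forall_lt (Primrec.fst.comp (he.comp g1)) (P := fun (q : (α × ℕ) × ℕ) j =>
      ((q.2, j) ∈ (e q.1.1).2 ↔ rb (s q.1.1).1 (s q.1.1).2 (q.1.2 + q.2) (q.1.2 + j))) ?_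
    have k1 : Primrec fun q : ((α × ℕ) × ℕ) × ℕ => q.1.1.1 := g1.comp Primrec.fst
    have k2 : Primrec fun q : ((α × ℕ) × ℕ) × ℕ => q.1.1.2 := g2.comp Primrec.fst
    have k3 : Primrec fun q : ((α × ℕ) × ℕ) × ℕ => q.1.2 := g3.comp Primrec.fst
    have k4 : Primrec fun q : ((α × ℕ) × ℕ) × ℕ => q.2 := Primrec.snd
    exact pp_iff (pp_mem (Primrec.snd.comp (he.comp k1)) (Primrec.pair k3 k4))
      (pp_rb (Primrec.fst.comp (hs.comp k1)) (Primrec.snd.comp (hs.comp k1)) (p_add k2 k3)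
        (p_add k2 k4))
  refine h.of_eq fun a => ?_
  rw [consEmb_iff]
  have hsz : (toStr (e a)).size = (e a).1 := rfl
  have hr : ∀ i j, i < (e a).1 → j < (e a).1 → ((toStr (e a)).r i j ↔ (i, j) ∈ (e a).2) :=
    fun i j hi hj => ⟨fun h => h.2.2, fun h => ⟨hi, hj, h⟩⟩
  constructor
  · rintro ⟨k, _, hk, hw⟩
    refine ⟨k, hk, ?_⟩
    refine ext' (by simp) ?_
    intro i j hi hj
    simp only [size_win, hsz] at hi hj
    rw [r_win, D2, dec_r (by omega) (by omega), ← hw i hi j hj, hr i j hi hj, hsz]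
    exact ⟨fun h => h.2.2, fun h => ⟨hi, hj, h⟩⟩
  · rintro ⟨k, hk, hw⟩
    rw [hsz] at hk hw
    rw [size_D2] at hk
    refine ⟨k, by omega, hk, ?_⟩
    intro i hi j hj
    have h2 : ((D2 (s a)).win k (e a).1).r i j ↔ (toStr (e a)).r i j := by rw [hw]
    rw [r_win] at h2
    rw [← dec_r (by omega) (by omega), ← hr i j hi hj, ← h2]
    exact ⟨fun h => h.2.2, fun h => ⟨hi, hj, h⟩⟩

lemma pp_av {K : FinStr → Prop} (hK : PrimrecPred fun q : ℕ × ℕ => K (D2 q))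
    {L : α → List (ℕ × List (ℕ × ℕ))} {s : α → ℕ × ℕ} (hL : Primrec L) (hs : Primrec s) :
    PrimrecPred fun a => D2 (s a) ∈ Av K (L a) := by
  have h1 : PrimrecPred fun a => K (D2 (s a)) := hK.comp hs
  refine h1.and ?_
  refine pp_forall_mem hL (P := fun a e => ¬ ConsEmb (toStr e) (D2 (s a))) ?_
  exact (pp_consEmb_toStr Primrec.snd (hs.comp Primrec.fst)).not

end prim

/-! ### The decision procedures -/

/-- bound for the sizes of the forbidden structures -/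
def wB (L : List (ℕ × List (ℕ × ℕ))) : ℕ := (L.map Prod.fst).sum

lemma wB_spec (L : List (ℕ × List (ℕ × ℕ))) : ∀ c ∈ L, c.1 ≤ wB L + 1 := by
  intro c hc
  have : c.1 ≤ wB L := List.single_le_sum (by simp) _ (List.mem_map_of_mem (f := Prod.fst) hc)
  omega

lemma p_wB : Primrec wB := by
  have h : Primrec fun L : List (ℕ × List (ℕ × ℕ)) =>
      L.foldr (fun c s => c.1 + s) 0 := by
    refine Primrec.list_foldr (f := fun L : List (ℕ × List (ℕ × ℕ)) => L) (g := fun _ => 0)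
      (h := fun _ p => p.1.1 + p.2) Primrec.id (Primrec.const 0) ?_
    exact p_add (Primrec.fst.comp (Primrec.fst.comp Primrec.snd)) (Primrec.snd.comp Primrec.snd)
  refine h.of_eq fun L => ?_
  unfold wB
  induction L with
  | nil => rfl
  | cons c L ih => simp [ih]

lemma p_Nc {α : Type} [Primcodable α] {f : α → ℕ} (hf : Primrec f) : Primrec fun a => Nc (f a) :=
  p_add (p_add (p_C (p_add hf (Primrec.const 2))) hf) (Primrec.const 3)

/-- codes of the input -/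
abbrev Inp : Type := List (ℕ × List (ℕ × ℕ))

theorem atomic_primrec {K : FinStr → Prop} (hw : KWin K) (hg : KGlue K)
    (hs : ∀ w, KStep K w) (hK : PrimrecPred fun q : ℕ × ℕ => K (D2 q)) :
    PrimrecPred fun L : Inp => IsAtomic (Av K L) := by
  let N2 : Inp → ℕ := fun L => Nc (wB L) + 4 * wB L + C (wB L) + 10
  let M2 : Inp → ℕ := fun L => 2 * N2 L + wB L + C (wB L)
  have hN2 : Primrec N2 := p_add (p_add (p_add (p_Nc p_wB) (p_mul (Primrec.const 4) p_wB))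
    (p_C p_wB)) (Primrec.const 10)
  have hM2 : Primrec M2 := p_add (p_add (p_mul (Primrec.const 2) hN2) p_wB) (p_C p_wB)
  -- innermost
  have h3 : PrimrecPred fun q : (Inp × (ℕ × ℕ)) × (ℕ × ℕ) =>
      ∃ z : FinStr, z.size ≤ M2 q.1.1 ∧ (z ∈ Av K q.1.1 ∧ ConsEmb (D2 q.1.2) z ∧
        ConsEmb (D2 q.2) z) := by
    have i1 : Primrec fun q : (Inp × (ℕ × ℕ)) × (ℕ × ℕ) => q.1.1 := Primrec.fst.comp Primrec.fst
    refine pp_exists_str (hM2.comp i1) (P := fun q z => z ∈ Av K q.1.1 ∧ ConsEmb (D2 q.1.2) z ∧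
        ConsEmb (D2 q.2) z) ?_
    have j1 : Primrec fun q : ((Inp × (ℕ × ℕ)) × (ℕ × ℕ)) × (ℕ × ℕ) => q.1.1.1 :=
      Primrec.fst.comp (Primrec.fst.comp Primrec.fst)
    have j2 : Primrec fun q : ((Inp × (ℕ × ℕ)) × (ℕ × ℕ)) × (ℕ × ℕ) => q.1.1.2 :=
      Primrec.snd.comp (Primrec.fst.comp Primrec.fst)
    have j3 : Primrec fun q : ((Inp × (ℕ × ℕ)) × (ℕ × ℕ)) × (ℕ × ℕ) => q.1.2 :=
      Primrec.snd.comp Primrec.fst
    have j4 : Primrec fun q : ((Inp × (ℕ × ℕ)) × (ℕ × ℕ)) × (ℕ × ℕ) => q.2 := Primrec.snd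
    exact (pp_av hK j1 j4).and ((pp_consEmb j2 j4).and (pp_consEmb j3 j4))
  have h2 : PrimrecPred fun q : Inp × (ℕ × ℕ) => ∀ y : FinStr, y.size ≤ N2 q.1 →
      (y ∈ Av K q.1 → ∃ z : FinStr, z.size ≤ M2 q.1 ∧ (z ∈ Av K q.1 ∧ ConsEmb (D2 q.2) z ∧
        ConsEmb y z)) := by
    refine pp_forall_str (hN2.comp Primrec.fst) (P := fun q y => y ∈ Av K q.1 →
      ∃ z : FinStr, z.size ≤ M2 q.1 ∧ (z ∈ Av K q.1 ∧ ConsEmb (D2 q.2) z ∧ ConsEmb y z)) ?_
    exact pp_imp (pp_av hK (Primrec.fst.comp Primrec.fst) Primrec.snd) h3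
  have h1 : PrimrecPred fun L : Inp => ∀ x : FinStr, x.size ≤ N2 L → (x ∈ Av K L →
      ∀ y : FinStr, y.size ≤ N2 L →
      (y ∈ Av K L → ∃ z : FinStr, z.size ≤ M2 L ∧ (z ∈ Av K L ∧ ConsEmb x z ∧ ConsEmb y z))) := by
    refine pp_forall_str hN2 (P := fun L x => x ∈ Av K L → ∀ y : FinStr, y.size ≤ N2 L →
      (y ∈ Av K L → ∃ z : FinStr, z.size ≤ M2 L ∧ (z ∈ Av K L ∧ ConsEmb x z ∧ ConsEmb y z))) ?_
    exact pp_imp (pp_av hK Primrec.fst Primrec.snd) h2
  refine h1.of_eq fun L => ?_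
  rw [isAtomic_iff_jep (downClosed_av hw L),
    jep_iff_bounded (good_av hw hg L (wB L) (wB_spec L)) (pump_av (hs _) L (wB_spec L))]
  constructor
  · intro h x hx y hy hxs hys
    obtain ⟨z, hz1, hz2, hz3, hz4⟩ := h x hxs hx y hys hy
    exact ⟨z, hz2, hz1, hz3, hz4⟩
  · intro h x hxs hx y hys hy
    obtain ⟨z, hz1, hz2, hz3, hz4⟩ := h x hx y hy hxs hys
    exact ⟨z, hz2, hz1, hz3, hz4⟩

/-- one of two different extensions of a window of `z` -/
def Special (D : Set FinStr) (v a : ℕ) (z : FinStr) (k : ℕ) : Prop :=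
  ∃ x : FinStr, x.size ≤ v + 1 ∧ (x ∈ D ∧ x.size = v + 1 ∧ WE x a z k v ∧
    ∃ x' : FinStr, x'.size ≤ v + 1 ∧ (x' ∈ D ∧ x'.size = v + 1 ∧ x ≠ x' ∧ WE x' a z k v))

lemma special_LS {D : Set FinStr} {v : ℕ} {z : FinStr} {k : ℕ} (h : k + v ≤ z.size) :
    Special D v 1 z k ↔ LS D v (z.win k v) := by
  constructor
  · rintro ⟨x, _, hx, hxs, ⟨_, _, hw⟩, x', _, hx', hxs', hne, _, _, hw'⟩
    exact ⟨x, hx, x', hx', hxs, hxs', hne, hw, hw'⟩
  · rintro ⟨x, hx, x', hx', hxs, hxs', hne, hw, hw'⟩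
    exact ⟨x, hxs.le, hx, hxs, ⟨by omega, h, hw⟩, x', hxs'.le, hx', hxs', hne, by omega, h, hw'⟩

lemma special_RS {D : Set FinStr} {v : ℕ} {z : FinStr} {k : ℕ} (h : k + v ≤ z.size) :
    Special D v 0 z k ↔ RS D v (z.win k v) := by
  constructor
  · rintro ⟨x, _, hx, hxs, ⟨_, _, hw⟩, x', _, hx', hxs', hne, _, _, hw'⟩
    exact ⟨x, hx, x', hx', hxs, hxs', hne, hw, hw'⟩
  · rintro ⟨x, hx, x', hx', hxs, hxs', hne, hw, hw'⟩
    exact ⟨x, hxs.le, hx, hxs, ⟨by omega, h, hw⟩, x', hxs'.le, hx', hxs', hne, by omega, h, hw'⟩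

lemma pp_special {K : FinStr → Prop} (hK : PrimrecPred fun q : ℕ × ℕ => K (D2 q))
    {α : Type} [Primcodable α] {L : α → Inp} {v a k : α → ℕ} {s : α → ℕ × ℕ} (hL : Primrec L)
    (hv : Primrec v) (ha : Primrec a) (hs : Primrec s) (hk : Primrec k) :
    PrimrecPred fun t => Special (Av K (L t)) (v t) (a t) (D2 (s t)) (k t) := by
  have f1 : Primrec fun q : α × (ℕ × ℕ) => q.1 := Primrec.fst
  have f2 : Primrec fun q : α × (ℕ × ℕ) => q.2 := Primrec.snd
  have g1 : Primrec fun q : (α × (ℕ × ℕ)) × (ℕ × ℕ) => q.1.1 := Primrec.fst.comp Primrec.fst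
  have g2 : Primrec fun q : (α × (ℕ × ℕ)) × (ℕ × ℕ) => q.1.2 := Primrec.snd.comp Primrec.fst
  have g3 : Primrec fun q : (α × (ℕ × ℕ)) × (ℕ × ℕ) => q.2 := Primrec.snd
  have h2 : PrimrecPred fun q : α × (ℕ × ℕ) => ∃ x' : FinStr, x'.size ≤ v q.1 + 1 ∧
      (x' ∈ Av K (L q.1) ∧ x'.size = v q.1 + 1 ∧ D2 q.2 ≠ x' ∧
        WE x' (a q.1) (D2 (s q.1)) (k q.1) (v q.1)) := by
    refine pp_exists_str (p_add (hv.comp f1) (Primrec.const 1)) (P := fun q x' =>
      (x' ∈ Av K (L q.1) ∧ x'.size = v q.1 + 1 ∧ D2 q.2 ≠ x' ∧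
        WE x' (a q.1) (D2 (s q.1)) (k q.1) (v q.1))) ?_
    exact (pp_av hK (hL.comp g1) g3).and ((pp_eq (Primrec.fst.comp g3)
      (p_add (hv.comp g1) (Primrec.const 1))).and ((pp_eqs g2 g3).not.and
      (pp_WE g3 (hs.comp g1) (ha.comp g1) (hk.comp g1) (hv.comp g1))))
  refine pp_exists_str (p_add hv (Primrec.const 1)) (P := fun t x =>
      (x ∈ Av K (L t) ∧ x.size = v t + 1 ∧ WE x (a t) (D2 (s t)) (k t) (v t) ∧
    ∃ x' : FinStr, x'.size ≤ v t + 1 ∧ (x' ∈ Av K (L t) ∧ x'.size = v t + 1 ∧ x ≠ x' ∧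
      WE x' (a t) (D2 (s t)) (k t) (v t)))) ?_
  exact (pp_av hK (hL.comp f1) f2).and ((pp_eq (Primrec.fst.comp f2)
    (p_add (hv.comp f1) (Primrec.const 1))).and
    ((pp_WE f2 (hs.comp f1) (ha.comp f1) (hk.comp f1) (hv.comp f1)).and h2))

lemma hasTwins_iff {D : Set FinStr} {n : ℕ} (hn : 1 ≤ n) : HasTwins D n ↔
    ∃ z : FinStr, z.size ≤ n ∧ (z ∈ D ∧ z.size = n ∧ ∃ z' : FinStr, z'.size ≤ n ∧
      (z' ∈ D ∧ z'.size = n ∧ z ≠ z' ∧ WE z 0 z' 0 (n - 1) ∧ WE z 1 z' 1 (n - 1))) := by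
  constructor
  · rintro ⟨z, hz, z', hz', hne, h1, h2, h3, h4⟩
    exact ⟨z, h1.le, hz, h1, z', h2.le, hz', h2, hne, ⟨by omega, by omega, h3⟩,
      ⟨by omega, by omega, h4⟩⟩
  · rintro ⟨z, _, hz, h1, z', _, hz', h2, hne, ⟨_, _, h3⟩, ⟨_, _, h4⟩⟩
    exact ⟨z, hz, z', hz', hne, h1, h2, h3, h4⟩

theorem wqo_primrec {K : FinStr → Prop} (hw : KWin K) (hg : KGlue K)
    (hs : ∀ w, KStep K w) (hK : PrimrecPred fun q : ℕ × ℕ => K (D2 q)) :
    PrimrecPred fun L : Inp => IsWqo (Av K L) := by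
  let v : Inp → ℕ := fun L => C (wB L + 2) + wB L + 2
  have hv : Primrec v := p_add (p_add (p_C (p_add p_wB (Primrec.const 2))) p_wB) (Primrec.const 2)
  have hvN : ∀ L, v L + 1 = Nc (wB L) := fun L => rfl
  -- twins
  have t2 : PrimrecPred fun q : (Inp × ℕ) × (ℕ × ℕ) => ∃ z' : FinStr, z'.size ≤ q.1.2 ∧
      (z' ∈ Av K q.1.1 ∧ z'.size = q.1.2 ∧ D2 q.2 ≠ z' ∧ WE (D2 q.2) 0 z' 0 (q.1.2 - 1) ∧
        WE (D2 q.2) 1 z' 1 (q.1.2 - 1)) := by
    refine pp_exists_str (Primrec.snd.comp Primrec.fst) (P := fun q z' =>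
      (z' ∈ Av K q.1.1 ∧ z'.size = q.1.2 ∧ D2 q.2 ≠ z' ∧ WE (D2 q.2) 0 z' 0 (q.1.2 - 1) ∧
        WE (D2 q.2) 1 z' 1 (q.1.2 - 1))) ?_
    have g1 : Primrec fun q : ((Inp × ℕ) × (ℕ × ℕ)) × (ℕ × ℕ) => q.1.1.1 :=
      Primrec.fst.comp (Primrec.fst.comp Primrec.fst)
    have g2 : Primrec fun q : ((Inp × ℕ) × (ℕ × ℕ)) × (ℕ × ℕ) => q.1.1.2 :=
      Primrec.snd.comp (Primrec.fst.comp Primrec.fst)
    have g3 : Primrec fun q : ((Inp × ℕ) × (ℕ × ℕ)) × (ℕ × ℕ) => q.1.2 :=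
      Primrec.snd.comp Primrec.fst
    have g4 : Primrec fun q : ((Inp × ℕ) × (ℕ × ℕ)) × (ℕ × ℕ) => q.2 := Primrec.snd
    have g5 := p_sub g2 (Primrec.const 1)
    exact (pp_av hK g1 g4).and ((pp_eq (Primrec.fst.comp g4) g2).and ((pp_eqs g3 g4).not.and
      ((pp_WE g3 g4 (Primrec.const 0) (Primrec.const 0) g5).and
      (pp_WE g3 g4 (Primrec.const 1) (Primrec.const 1) g5))))
  have t1 : PrimrecPred fun q : Inp × ℕ => ∃ z : FinStr, z.size ≤ q.2 ∧ (z ∈ Av K q.1 ∧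
      z.size = q.2 ∧ ∃ z' : FinStr, z'.size ≤ q.2 ∧
      (z' ∈ Av K q.1 ∧ z'.size = q.2 ∧ z ≠ z' ∧ WE z 0 z' 0 (q.2 - 1) ∧
        WE z 1 z' 1 (q.2 - 1))) := by
    refine pp_exists_str Primrec.snd (P := fun q z => (z ∈ Av K q.1 ∧
      z.size = q.2 ∧ ∃ z' : FinStr, z'.size ≤ q.2 ∧
      (z' ∈ Av K q.1 ∧ z'.size = q.2 ∧ z ≠ z' ∧ WE z 0 z' 0 (q.2 - 1) ∧
        WE z 1 z' 1 (q.2 - 1)))) ?_
    exact (pp_av hK (Primrec.fst.comp Primrec.fst) Primrec.snd).and
      ((pp_eq (Primrec.fst.comp Primrec.snd) (Primrec.snd.comp Primrec.fst)).and t2)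
  have tA : PrimrecPred fun L : Inp => ∀ n < 2 * (v L + 1) + 1, (v L + 1 < n →
      ¬ ∃ z : FinStr, z.size ≤ n ∧ (z ∈ Av K L ∧
      z.size = n ∧ ∃ z' : FinStr, z'.size ≤ n ∧
      (z' ∈ Av K L ∧ z'.size = n ∧ z ≠ z' ∧ WE z 0 z' 0 (n - 1) ∧
        WE z 1 z' 1 (n - 1)))) := by
    refine pp_forall_lt (p_add (p_mul (Primrec.const 2) (p_add hv (Primrec.const 1)))
      (Primrec.const 1)) (P := fun L n => (v L + 1 < n →
      ¬ ∃ z : FinStr, z.size ≤ n ∧ (z ∈ Av K L ∧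
      z.size = n ∧ ∃ z' : FinStr, z'.size ≤ n ∧
      (z' ∈ Av K L ∧ z'.size = n ∧ z ≠ z' ∧ WE z 0 z' 0 (n - 1) ∧
        WE z 1 z' 1 (n - 1))))) ?_
    exact pp_imp (pp_lt (p_add (hv.comp Primrec.fst) (Primrec.const 1)) Primrec.snd) t1.not
  -- special
  have sB : PrimrecPred fun L : Inp => ∀ T < 2 * C (v L) + 1, (C (v L) ≤ T →
      ∀ z : FinStr, z.size ≤ T + v L → (z ∈ Av K L → z.size = T + v L →
        Special (Av K L) (v L) 1 z 0 → ¬ Special (Av K L) (v L) 0 z T)) := by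
    refine pp_forall_lt (p_add (p_mul (Primrec.const 2) (p_C hv)) (Primrec.const 1))
      (P := fun L T => (C (v L) ≤ T →
      ∀ z : FinStr, z.size ≤ T + v L → (z ∈ Av K L → z.size = T + v L →
        Special (Av K L) (v L) 1 z 0 → ¬ Special (Av K L) (v L) 0 z T))) ?_
    refine pp_imp (pp_le (p_C (hv.comp Primrec.fst)) Primrec.snd) ?_
    refine pp_forall_str (p_add Primrec.snd (hv.comp Primrec.fst)) (P := fun q z =>
      (z ∈ Av K q.1 → z.size = q.2 + v q.1 →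
        Special (Av K q.1) (v q.1) 1 z 0 → ¬ Special (Av K q.1) (v q.1) 0 z q.2)) ?_
    have g1 : Primrec fun q : (Inp × ℕ) × (ℕ × ℕ) => q.1.1 := Primrec.fst.comp Primrec.fst
    have g2 : Primrec fun q : (Inp × ℕ) × (ℕ × ℕ) => q.1.2 := Primrec.snd.comp Primrec.fst
    have g3 : Primrec fun q : (Inp × ℕ) × (ℕ × ℕ) => q.2 := Primrec.snd
    exact pp_imp (pp_av hK g1 g3) (pp_imp (pp_eq (Primrec.fst.comp g3) (p_add g2 (hv.comp g1)))
      (pp_imp (pp_special hK g1 (hv.comp g1) (Primrec.const 1) g3 (Primrec.const 0))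
        (pp_special hK g1 (hv.comp g1) (Primrec.const 0) g3 g2).not))
  refine (tA.and sB).of_eq fun L => ?_
  rw [isWqo_iff_bounded (v := v L) (good_av hw hg L (wB L) (wB_spec L))
    (by rw [hvN]; exact pump_av (hs _) L (wB_spec L))]
  constructor
  · rintro ⟨h1, h2⟩
    refine ⟨?_, ?_⟩
    · intro n hn1 hn2
      rw [hasTwins_iff (by omega)]
      exact h1 n (by omega) hn1
    · intro z hz T hT1 hT2 hzs
      rw [← special_LS (by omega), ← special_RS (by omega)]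
      exact h2 T (by omega) hT1 z hzs.le hz hzs
  · rintro ⟨h1, h2⟩
    refine ⟨?_, ?_⟩
    · intro n hn1 hn2
      rw [← hasTwins_iff (by omega)]
      exact h1 n hn2 (by omega)
    · intro T hT1 hT2 z _ hz hzs
      rw [special_LS (by omega), special_RS (by omega)]
      exact h2 z hz T hT2 (by omega) hzs

/-! ### The three classes -/

lemma pp_digraph : PrimrecPred fun q : ℕ × ℕ => KT (fun _ _ => True) (D2 q) := by
  have h : PrimrecPred fun q : ℕ × ℕ => ∀ i < q.1, ¬ rb q.1 q.2 i i := by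
    refine pp_forall_lt Primrec.fst (P := fun (q : ℕ × ℕ) i => ¬ rb q.1 q.2 i i) ?_
    exact (pp_rb (Primrec.fst.comp Primrec.fst) (Primrec.snd.comp Primrec.fst) Primrec.snd
      Primrec.snd).not
  refine h.of_eq fun q => ?_
  unfold KT D2
  constructor
  · intro h
    refine ⟨fun i hi => ?_, fun _ _ _ _ => trivial⟩
    have := r_lt hi
    rw [size_dec] at this
    exact h i this.1 ((dec_r this.1 this.1).mp hi)
  · rintro ⟨h, _⟩ i hi hr
    exact h i ((dec_r hi hi).mpr hr)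

lemma pp_tournament : PrimrecPred fun q : ℕ × ℕ => KT (fun a b => (a ↔ ¬ b)) (D2 q) := by
  have h1 : PrimrecPred fun q : ℕ × ℕ => ∀ i < q.1, ¬ rb q.1 q.2 i i := by
    refine pp_forall_lt Primrec.fst (P := fun (q : ℕ × ℕ) i => ¬ rb q.1 q.2 i i) ?_
    exact (pp_rb (Primrec.fst.comp Primrec.fst) (Primrec.snd.comp Primrec.fst) Primrec.snd
      Primrec.snd).not
  have h2 : PrimrecPred fun q : ℕ × ℕ => ∀ i < q.1, ∀ j < q.1,
      (i < j → (rb q.1 q.2 i j ↔ ¬ rb q.1 q.2 j i)) := by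
    refine pp_forall_lt Primrec.fst (P := fun (q : ℕ × ℕ) i => ∀ j < q.1,
      (i < j → (rb q.1 q.2 i j ↔ ¬ rb q.1 q.2 j i))) ?_
    refine pp_forall_lt (Primrec.fst.comp Primrec.fst) (P := fun (q : (ℕ × ℕ) × ℕ) j =>
      (q.2 < j → (rb q.1.1 q.1.2 q.2 j ↔ ¬ rb q.1.1 q.1.2 j q.2))) ?_
    have g1 : Primrec fun q : ((ℕ × ℕ) × ℕ) × ℕ => q.1.1.1 :=
      Primrec.fst.comp (Primrec.fst.comp Primrec.fst)
    have g2 : Primrec fun q : ((ℕ × ℕ) × ℕ) × ℕ => q.1.1.2 :=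
      Primrec.snd.comp (Primrec.fst.comp Primrec.fst)
    have g3 : Primrec fun q : ((ℕ × ℕ) × ℕ) × ℕ => q.1.2 := Primrec.snd.comp Primrec.fst
    have g4 : Primrec fun q : ((ℕ × ℕ) × ℕ) × ℕ => q.2 := Primrec.snd
    exact pp_imp (pp_lt g3 g4) (pp_iff (pp_rb g1 g2 g3 g4) (pp_rb g1 g2 g4 g3).not)
  refine (h1.and h2).of_eq fun q => ?_
  unfold KT D2
  constructor
  · rintro ⟨h1, h2⟩
    refine ⟨fun i hi => ?_, fun i j hij hj => ?_⟩
    · have := r_lt hi
      rw [size_dec] at this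
      exact h1 i this.1 ((dec_r this.1 this.1).mp hi)
    · rw [size_dec] at hj
      rw [dec_r (by omega) hj, dec_r hj (by omega)]
      exact h2 i (by omega) j hj hij
  · rintro ⟨h1, h2⟩
    refine ⟨fun i hi hr => h1 i ((dec_r hi hi).mpr hr), fun i hi j hj hij => ?_⟩
    rw [← dec_r hi hj, ← dec_r hj hi]
    exact h2 i j hij hj

lemma pp_poset : PrimrecPred fun q : ℕ × ℕ => PO (D2 q) := by
  have h1 : PrimrecPred fun q : ℕ × ℕ => ∀ i < q.1, rb q.1 q.2 i i := by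
    refine pp_forall_lt Primrec.fst (P := fun (q : ℕ × ℕ) i => rb q.1 q.2 i i) ?_
    exact (pp_rb (Primrec.fst.comp Primrec.fst) (Primrec.snd.comp Primrec.fst) Primrec.snd
      Primrec.snd)
  have h2 : PrimrecPred fun q : ℕ × ℕ => ∀ i < q.1, ∀ j < q.1,
      (rb q.1 q.2 i j → rb q.1 q.2 j i → i = j) := by
    refine pp_forall_lt Primrec.fst (P := fun (q : ℕ × ℕ) i => ∀ j < q.1,
      (rb q.1 q.2 i j → rb q.1 q.2 j i → i = j)) ?_
    refine pp_forall_lt (Primrec.fst.comp Primrec.fst) (P := fun (q : (ℕ × ℕ) × ℕ) j =>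
      (rb q.1.1 q.1.2 q.2 j → rb q.1.1 q.1.2 j q.2 → q.2 = j)) ?_
    have g1 : Primrec fun q : ((ℕ × ℕ) × ℕ) × ℕ => q.1.1.1 :=
      Primrec.fst.comp (Primrec.fst.comp Primrec.fst)
    have g2 : Primrec fun q : ((ℕ × ℕ) × ℕ) × ℕ => q.1.1.2 :=
      Primrec.snd.comp (Primrec.fst.comp Primrec.fst)
    have g3 : Primrec fun q : ((ℕ × ℕ) × ℕ) × ℕ => q.1.2 := Primrec.snd.comp Primrec.fst
    have g4 : Primrec fun q : ((ℕ × ℕ) × ℕ) × ℕ => q.2 := Primrec.snd
    exact pp_imp (pp_rb g1 g2 g3 g4) (pp_imp (pp_rb g1 g2 g4 g3) (pp_eq g3 g4))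
  have h3 : PrimrecPred fun q : ℕ × ℕ => ∀ i < q.1, ∀ j < q.1, ∀ k < q.1,
      (rb q.1 q.2 i j → rb q.1 q.2 j k → rb q.1 q.2 i k) := by
    refine pp_forall_lt Primrec.fst (P := fun (q : ℕ × ℕ) i => ∀ j < q.1, ∀ k < q.1,
      (rb q.1 q.2 i j → rb q.1 q.2 j k → rb q.1 q.2 i k)) ?_
    refine pp_forall_lt (Primrec.fst.comp Primrec.fst) (P := fun (q : (ℕ × ℕ) × ℕ) j =>
      ∀ k < q.1.1, (rb q.1.1 q.1.2 q.2 j → rb q.1.1 q.1.2 j k → rb q.1.1 q.1.2 q.2 k)) ?_
    refine pp_forall_lt (Primrec.fst.comp (Primrec.fst.comp Primrec.fst))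
      (P := fun (q : ((ℕ × ℕ) × ℕ) × ℕ) k =>
      (rb q.1.1.1 q.1.1.2 q.1.2 q.2 → rb q.1.1.1 q.1.1.2 q.2 k → rb q.1.1.1 q.1.1.2 q.1.2 k)) ?_
    have g1 : Primrec fun q : (((ℕ × ℕ) × ℕ) × ℕ) × ℕ => q.1.1.1.1 :=
      Primrec.fst.comp (Primrec.fst.comp (Primrec.fst.comp Primrec.fst))
    have g2 : Primrec fun q : (((ℕ × ℕ) × ℕ) × ℕ) × ℕ => q.1.1.1.2 :=
      Primrec.snd.comp (Primrec.fst.comp (Primrec.fst.comp Primrec.fst))
    have g3 : Primrec fun q : (((ℕ × ℕ) × ℕ) × ℕ) × ℕ => q.1.1.2 :=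
      Primrec.snd.comp (Primrec.fst.comp Primrec.fst)
    have g4 : Primrec fun q : (((ℕ × ℕ) × ℕ) × ℕ) × ℕ => q.1.2 := Primrec.snd.comp Primrec.fst
    have g5 : Primrec fun q : (((ℕ × ℕ) × ℕ) × ℕ) × ℕ => q.2 := Primrec.snd
    exact pp_imp (pp_rb g1 g2 g3 g4) (pp_imp (pp_rb g1 g2 g4 g5) (pp_rb g1 g2 g3 g5))
  refine (h1.and (h2.and h3)).of_eq fun q => ?_
  unfold PO D2
  constructor
  · rintro ⟨h1, h2, h3⟩
    refine ⟨fun i j h => r_lt h, fun i hi => (dec_r hi hi).mpr (h1 i hi), fun i j hij hji => ?_,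
      fun i j k hij hjk => ?_⟩
    · have := r_lt hij
      rw [size_dec] at this
      exact h2 i this.1 j this.2 ((dec_r this.1 this.2).mp hij) ((dec_r this.2 this.1).mp hji)
    · have e1 := r_lt hij
      have e2 := r_lt hjk
      rw [size_dec] at e1 e2
      exact (dec_r e1.1 e2.2).mpr (h3 i e1.1 j e1.2 k e2.2 ((dec_r e1.1 e1.2).mp hij)
        ((dec_r e1.2 e2.2).mp hjk))
  · intro h
    refine ⟨fun i hi => (dec_r hi hi).mp (h.refl i hi), fun i hi j hj hij hji => ?_,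
      fun i hi j hj k hk hij hjk => ?_⟩
    · exact h.antisymm i j ((dec_r hi hj).mpr hij) ((dec_r hj hi).mpr hji)
    · exact (dec_r hi hk).mp (h.trans i j k ((dec_r hi hj).mpr hij) ((dec_r hj hk).mpr hjk))

lemma av_congr {K K' : FinStr → Prop} (h : ∀ x, K x ↔ K' x) : Av K = Av K' := by
  have : K = K' := funext fun x => propext (h x)
  rw [this]

theorem digraph_atomic : ComputablePred fun L : Inp => IsAtomic (Av IsDigraph L) := by
  rw [av_congr isDigraph_iff]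
  exact (atomic_primrec (kt_win _) (kt_glue (d₁ := False) (d₂ := False) trivial)
    (kt_step (d₁ := False) (d₂ := False) (e₁ := True) (e₂ := False) trivial trivial
      (by tauto)) pp_digraph).computablePred

theorem digraph_wqo : ComputablePred fun L : Inp => IsWqo (Av IsDigraph L) := by
  rw [av_congr isDigraph_iff]
  exact (wqo_primrec (kt_win _) (kt_glue (d₁ := False) (d₂ := False) trivial)
    (kt_step (d₁ := False) (d₂ := False) (e₁ := True) (e₂ := False) trivial trivial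
      (by tauto)) pp_digraph).computablePred

theorem tournament_atomic : ComputablePred fun L : Inp => IsAtomic (Av IsTournament L) := by
  rw [av_congr isTournament_iff]
  exact (atomic_primrec (kt_win _) (kt_glue (d₁ := True) (d₂ := False) (by tauto))
    (kt_step (d₁ := True) (d₂ := False) (e₁ := False) (e₂ := True) (by tauto) (by tauto)
      (by tauto)) pp_tournament).computablePred

theorem tournament_wqo : ComputablePred fun L : Inp => IsWqo (Av IsTournament L) := by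
  rw [av_congr isTournament_iff]
  exact (wqo_primrec (kt_win _) (kt_glue (d₁ := True) (d₂ := False) (by tauto))
    (kt_step (d₁ := True) (d₂ := False) (e₁ := False) (e₂ := True) (by tauto) (by tauto)
      (by tauto)) pp_tournament).computablePred

theorem poset_atomic : ComputablePred fun L : Inp => IsAtomic (Av IsPoset L) := by
  rw [av_congr isPoset_iff]
  exact (atomic_primrec po_win po_glue po_step pp_poset).computablePred

theorem poset_wqo : ComputablePred fun L : Inp => IsWqo (Av IsPoset L) := by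
  rw [av_congr isPoset_iff]
  exact (wqo_primrec po_win po_glue po_step pp_poset).computablePred

end Pool.Agent.Helper48.Cons
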