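import Mathlib

set_option autoImplicit false

namespace Pool.Agent.Helper48.Cons

/-- A finite structure `(V, R, <)` with one binary relation `R` and a linear order, up to
isomorphism: the vertex set is `Fin size` (that is `0 < 1 < ... < size - 1`) with its usual
linear order. Every isomorphism type of such structures has exactly one representative of
this form. -/
structure FinStr where
  /-- the number of vertices -/
  size : ℕ
  /-- the relation `R` -/
  rel : Fin size → Fin size → Prop

/-- `ConsEmb A B`: there is a consecutive embedding of `A` into `B`, i.e. for some shift `k`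
the map `i ↦ k + i` is an embedding of `A` onto the interval `[k, k + |A|)` of `B`. -/
def ConsEmb (A B : FinStr) : Prop :=
  ∃ (k : ℕ) (h : k + A.size ≤ B.size), ∀ i j : Fin A.size,
    A.rel i j ↔ B.rel ⟨k + i, by omega⟩ ⟨k + j, by omega⟩

/-- Digraphs: the relation is irreflexive. -/
def IsDigraph (A : FinStr) : Prop := ∀ i, ¬ A.rel i i

/-- Tournaments: the relation is irreflexive and for distinct `i, j` exactly one of
`(i, j)`, `(j, i)` is in it. -/
def IsTournament (A : FinStr) : Prop :=
  (∀ i, ¬ A.rel i i) ∧ ∀ i j, i ≠ j → (A.rel i j ↔ ¬ A.rel j i)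

/-- Partial orders: the relation is reflexive, antisymmetric and transitive. -/
def IsPoset (A : FinStr) : Prop :=
  (∀ i, A.rel i i) ∧ (∀ i j, A.rel i j → A.rel j i → i = j) ∧
    ∀ i j k, A.rel i j → A.rel j k → A.rel i k

/-- The structure explicitly given by the code `(n, E)`: it has `n` vertices and its relation
is `{(i, j) : (i, j) ∈ E}`. -/
def toStr (c : ℕ × List (ℕ × ℕ)) : FinStr where
  size := c.1
  rel := fun i j => ((i : ℕ), (j : ℕ)) ∈ c.2

/-- `Av K B`: the structures of the class `K` into which no member of the list `B` (given by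
codes) has a consecutive embedding. -/
def Av (K : FinStr → Prop) (B : List (ℕ × List (ℕ × ℕ))) : Set FinStr :=
  {x | K x ∧ ∀ c ∈ B, ¬ ConsEmb (toStr c) x}

/-- Downward closed sets of structures. -/
def DownClosed (D : Set FinStr) : Prop := ∀ x y, ConsEmb x y → y ∈ D → x ∈ D

/-- `D` is atomic: it is not the union of two proper downward closed subsets. -/
def IsAtomic (D : Set FinStr) : Prop :=
  ¬ ∃ D₁ D₂ : Set FinStr, D₁ ⊂ D ∧ D₂ ⊂ D ∧ DownClosed D₁ ∧ DownClosed D₂ ∧ D = D₁ ∪ D₂

/-- `D` is wqo: it contains no infinite antichain. -/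
def IsWqo (D : Set FinStr) : Prop :=
  ∀ A ⊆ D, (∀ x ∈ A, ∀ y ∈ A, x ≠ y → ¬ ConsEmb x y) → A.Finite

end Pool.Agent.Helper48.Cons
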