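import Pool.Agent.Helper48.Cons.Basic

set_option autoImplicit false

namespace Pool.Agent.Helper48.Cons

open FinStr

/-- Closure under windows and under gluing along overlaps of size at least `w`. -/
structure Good (D : Set FinStr) (w : ℕ) : Prop where
  win_mem : ∀ x ∈ D, ∀ k l, k + l ≤ x.size → x.win k l ∈ D
  glue : ∀ x ∈ D, ∀ y ∈ D, ∀ a o b, w ≤ o → x.size = a + o → y.size = o + b →
    x.win a o = y.win 0 o →
    ∃ z ∈ D, z.size = a + o + b ∧ z.win 0 (a + o) = x ∧ z.win a (o + b) = y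

variable {D : Set FinStr} {w : ℕ}

/-- A sequence of overlapping windows is realized by a structure. -/
lemma Good.realize (hD : Good D w) {v : ℕ} (hv : w ≤ v) (W : ℕ → FinStr) (t : ℕ)
    (h1 : ∀ s ≤ t, W s ∈ D ∧ (W s).size = v + 1)
    (h2 : ∀ s < t, (W s).win 1 v = (W (s + 1)).win 0 v) :
    ∃ z ∈ D, z.size = t + 1 + v ∧ ∀ s ≤ t, z.win s (v + 1) = W s := by
  induction t with
  | zero =>
    refine ⟨W 0, (h1 0 le_rfl).1, by rw [(h1 0 le_rfl).2]; omega, ?_⟩
    intro s hs
    obtain rfl : s = 0 := by omega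
    exact win_full' _ (h1 0 le_rfl).2
  | succ t ih =>
    obtain ⟨z, hz, hzs, hzw⟩ := ih (fun s hs => h1 s (by omega)) (fun s hs => h2 s (by omega))
    have hW := h1 (t + 1) le_rfl
    have hov : z.win (t + 1) v = (W (t + 1)).win 0 v := by
      rw [← h2 t (by omega), ← hzw t le_rfl, win_win _ _ _ _ _ (by omega)]
    obtain ⟨z', hz', hs', h1', h2'⟩ := hD.glue z hz (W (t + 1)) hW.1 (t + 1) v 1 hv
      (by omega) (by omega) hov
    refine ⟨z', hz', by omega, ?_⟩
    intro s hs
    rcases Nat.lt_or_ge s (t + 1) with h | h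
    · rw [← hzw s (by omega), ← h1', win_win _ _ _ _ _ (by omega), Nat.zero_add]
    · obtain rfl : s = t + 1 := by omega
      exact h2'

/-- Cutting out a segment between two equal windows. -/
lemma Good.cut (hD : Good D w) {v : ℕ} (hv : w ≤ v) {x : FinStr} (hx : x ∈ D) {p q : ℕ}
    (hpq : p < q) (hq : q + v ≤ x.size) (he : x.win p v = x.win q v) :
    ∃ z ∈ D, z.size + (q - p) = x.size ∧ z.win 0 (p + v) = x.win 0 (p + v) ∧
      z.win p (x.size - q) = x.win q (x.size - q) := by
  obtain ⟨z, hz, hs, h1, h2⟩ := hD.glue (x.win 0 (p + v)) (hD.win_mem x hx _ _ (by omega))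
    (x.win q (x.size - q)) (hD.win_mem x hx _ _ (by omega)) p v (x.size - q - v) hv
    (by simp) (by simp; omega)
    (by rw [win_win _ _ _ _ _ (by omega), win_win _ _ _ _ _ (by omega)]; simpa using he)
  refine ⟨z, hz, by omega, h1, ?_⟩
  rw [← h2]
  congr 1
  omega

lemma pigeonhole_win (v : ℕ) (x : FinStr) (s : ℕ) :
    ∃ p q, s ≤ p ∧ p < q ∧ q ≤ s + C v ∧ x.win p v = x.win q v := by
  obtain ⟨p, q, hpq, hq, he⟩ := pigeonhole v (fun i => x.win (s + i) v) (fun i _ => by simp)
  exact ⟨s + p, s + q, by omega, by omega, by omega, he⟩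

/-- There is a walk from the window `u` to the window `u'`. -/
def Reach (D : Set FinStr) (v : ℕ) (u u' : FinStr) : Prop :=
  ∃ x ∈ D, ∃ m, x.size = m + v ∧ x.win 0 v = u ∧ x.win m v = u'

lemma Good.reach_win (hD : Good D w) {v : ℕ} {z : FinStr} (hz : z ∈ D) {i j : ℕ}
    (hij : i ≤ j) (hj : j + v ≤ z.size) : Reach D v (z.win i v) (z.win j v) := by
  refine ⟨z.win i (j - i + v), hD.win_mem z hz _ _ (by omega), j - i, by simp, ?_, ?_⟩
  · rw [win_win _ _ _ _ _ (by omega), Nat.add_zero]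
  · rw [win_win _ _ _ _ _ (by omega)]
    congr 1
    omega

lemma Reach.refl {v : ℕ} {u : FinStr} (hu : u ∈ D) (hs : u.size = v) : Reach D v u u :=
  ⟨u, hu, 0, by omega, win_full' _ hs, win_full' _ hs⟩

lemma Good.reach_trans (hD : Good D w) {v : ℕ} (hv : w ≤ v) {a b c : FinStr}
    (h1 : Reach D v a b) (h2 : Reach D v b c) : Reach D v a c := by
  obtain ⟨x, hx, m, hm, hx0, hx1⟩ := h1
  obtain ⟨y, hy, n, hn, hy0, hy1⟩ := h2
  obtain ⟨z, hz, hs, hzx, hzy⟩ := hD.glue x hx y hy m v n hv hm (by omega) (by rw [hx1, hy0])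
  refine ⟨z, hz, m + n, by omega, ?_, ?_⟩
  · rw [← hx0, ← hzx, win_win _ _ _ _ _ (by omega), Nat.add_zero]
  · rw [← hy1, ← hzy, win_win _ _ _ _ _ (by omega)]

/-- Walks can be chosen short. -/
lemma Good.reach_short (hD : Good D w) {v : ℕ} (hv : w ≤ v) {u u' : FinStr}
    (h : Reach D v u u') :
    ∃ x ∈ D, ∃ m ≤ C v, x.size = m + v ∧ x.win 0 v = u ∧ x.win m v = u' := by
  classical
  have hex : ∃ m, ∃ x ∈ D, x.size = m + v ∧ x.win 0 v = u ∧ x.win m v = u' := by
    obtain ⟨x, hx, m, h⟩ := h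
    exact ⟨m, x, hx, h⟩
  obtain ⟨x, hx, hm, hx0, hx1⟩ := Nat.find_spec hex
  have hmin := fun k hk => Nat.find_min hex (m := k) hk
  set m := Nat.find hex with hmdef
  by_cases hmC : m ≤ C v
  · exact ⟨x, hx, m, hmC, hm, hx0, hx1⟩
  · exfalso
    obtain ⟨p, q, _, hpq, hq, he⟩ := pigeonhole_win v x 0
    obtain ⟨z, hz, hzs, hz0, hz1⟩ := hD.cut hv hx hpq (by omega) he
    refine hmin (m - (q - p)) (by omega) ⟨z, hz, by omega, ?_, ?_⟩
    · have := win_eq_of_win_eq hz0 0 v (by omega)
      simpa [hx0] using this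
    · have := win_eq_of_win_eq hz1 (m - q) v (by omega)
      rw [show q + (m - q) = m by omega, hx1] at this
      rw [← this]
      congr 1
      omega

/-- If `x` and `y` embed in a common member of `D` then they embed in a short one. -/
lemma Good.joint_short (hD : Good D w) {v : ℕ} (hv : w ≤ v) {x y z : FinStr} (hz : z ∈ D)
    (hx : ConsEmb x z) (hy : ConsEmb y z) :
    ∃ z' ∈ D, z'.size ≤ x.size + y.size + v + C v ∧ ConsEmb x z' ∧ ConsEmb y z' := by
  classical
  have hex : ∃ n, ∃ z ∈ D, z.size = n ∧ ConsEmb x z ∧ ConsEmb y z := ⟨_, z, hz, rfl, hx, hy⟩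
  obtain ⟨z', hz', hn, hx', hy'⟩ := Nat.find_spec hex
  have hmin := fun k hk => Nat.find_min hex (m := k) hk
  set n := Nat.find hex with hndef
  refine ⟨z', hz', ?_, hx', hy'⟩
  by_contra hlt
  push Not at hlt
  -- a symmetric statement
  have key : ∀ (a b : FinStr) (i j : ℕ), i + a.size ≤ z'.size → z'.win i a.size = a →
      j + b.size ≤ z'.size → z'.win j b.size = b → i ≤ j →
      a.size + b.size + v + C v < z'.size →
      ∃ z'' ∈ D, z''.size < n ∧ ConsEmb a z'' ∧ ConsEmb b z'' := by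
    intro a b i j hi hai hj hbj hij hbig
    by_cases hull : i = 0 ∧ j + b.size = z'.size
    · obtain ⟨rfl, hjb⟩ := hull
      obtain ⟨p, q, hp, hpq, hq, he⟩ := pigeonhole_win v z' a.size
      obtain ⟨z'', hz'', hzs, hz0, hz1⟩ := hD.cut hv hz' hpq (by omega) he
      refine ⟨z'', hz'', by omega, ?_, ?_⟩
      · rw [consEmb_iff]
        refine ⟨0, by omega, ?_⟩
        have := win_eq_of_win_eq hz0 0 a.size (by omega)
        simpa [hai] using this
      · rw [consEmb_iff]
        refine ⟨p + (j - q), by omega, ?_⟩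
        have := win_eq_of_win_eq hz1 (j - q) b.size (by omega)
        rw [this, show q + (j - q) = j by omega, hbj]
    · -- restrict to the hull
      set e := max (i + a.size) (j + b.size) with he
      have he1 : i + a.size ≤ e := le_max_left _ _
      have he2 : j + b.size ≤ e := le_max_right _ _
      have he3 : e ≤ z'.size := max_le hi hj
      refine ⟨z'.win i (e - i), hD.win_mem z' hz' _ _ (by omega), ?_, ?_, ?_⟩
      · simp only [size_win]
        by_contra hge
        apply hull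
        have : e = z'.size ∧ i = 0 := by omega
        refine ⟨this.2, ?_⟩
        rcases le_total (i + a.size) (j + b.size) with h | h
        · rw [max_eq_right h] at he; omega
        · rw [max_eq_left h] at he; omega
      · rw [consEmb_iff]
        refine ⟨0, by simp; omega, ?_⟩
        rw [win_win _ _ _ _ _ (by omega)]
        simpa using hai
      · rw [consEmb_iff]
        refine ⟨j - i, by simp; omega, ?_⟩
        rw [win_win _ _ _ _ _ (by omega), show i + (j - i) = j by omega, hbj]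
  obtain ⟨i, hi, hxi⟩ := consEmb_iff.mp hx'
  obtain ⟨j, hj, hyj⟩ := consEmb_iff.mp hy'
  rcases le_total i j with hij | hij
  · obtain ⟨z'', hz'', hlt', h1, h2⟩ := key x y i j hi hxi hj hyj hij (by omega)
    exact hmin _ hlt' ⟨z'', hz'', rfl, h1, h2⟩
  · obtain ⟨z'', hz'', hlt', h1, h2⟩ := key y x j i hj hyj hi hxi hij (by omega)
    exact hmin _ hlt' ⟨z'', hz'', rfl, h2, h1⟩

/-! ### Twins and pumping -/

/-- `z` and `z'` have the same size `n`, the same prefix and the same suffix of size `n - 1`. -/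
def Twins (z z' : FinStr) (n : ℕ) : Prop :=
  z.size = n ∧ z'.size = n ∧ z.win 0 (n - 1) = z'.win 0 (n - 1) ∧
    z.win 1 (n - 1) = z'.win 1 (n - 1)

/-- there is a pair of distinct twins of size `n` in `D` -/
def HasTwins (D : Set FinStr) (n : ℕ) : Prop :=
  ∃ z ∈ D, ∃ z' ∈ D, z ≠ z' ∧ Twins z z' n

/-- The pumping hypothesis. -/
def Pump (D : Set FinStr) (w N : ℕ) : Prop :=
  w + 2 ≤ N ∧ ∀ n, N < n → HasTwins D n →
    (∃ n', w + 1 < n' ∧ n' < n ∧ n ≤ n' + N ∧ HasTwins D n') ∧ (∃ n', n < n' ∧ HasTwins D n')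

lemma Twins.symm {z z' : FinStr} {n : ℕ} (h : Twins z z' n) : Twins z' z n :=
  ⟨h.2.1, h.1, h.2.2.1.symm, h.2.2.2.symm⟩

/-- Proper windows of twins agree. -/
lemma Twins.win_eq {z z' : FinStr} {n : ℕ} (h : Twins z z' n) {k l : ℕ} (hl : l < n)
    (hk : k + l ≤ n) : z.win k l = z'.win k l := by
  rcases Nat.lt_or_ge (k + l) n with h' | h'
  · have := win_eq_of_win_eq h.2.2.1 k l (by omega)
    simpa using this
  · have := win_eq_of_win_eq h.2.2.2 (k - 1) l (by omega)
    rwa [show 1 + (k - 1) = k by omega] at this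

/-- full (A) from bounded (A) -/
lemma noTwins_of_bounded {N : ℕ} (hP : Pump D w N)
    (hA : ∀ n, N < n → n ≤ 2 * N → ¬ HasTwins D n) : ∀ n, N < n → ¬ HasTwins D n := by
  intro n
  induction n using Nat.strong_induction_on with
  | _ n ih =>
    intro hn ht
    rcases Nat.lt_or_ge (2 * N) n with h | h
    · obtain ⟨⟨n', h1, h2, h3, h4⟩, _⟩ := hP.2 n hn ht
      exact ih n' h2 (by omega) h4
    · exact hA n hn h ht

/-- twins can be made small -/
lemma small_twins {N : ℕ} (hP : Pump D w N) {n : ℕ} (hn : w + 1 < n) (ht : HasTwins D n) :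
    ∃ n', w + 1 < n' ∧ n' ≤ N ∧ HasTwins D n' := by
  induction n using Nat.strong_induction_on with
  | _ n ih =>
    rcases Nat.lt_or_ge N n with h | h
    · obtain ⟨⟨n', h1, h2, h3, h4⟩, _⟩ := hP.2 n h ht
      exact ih n' h2 h1 h4
    · exact ⟨n, hn, h, ht⟩

/-- twins can be made large -/
lemma large_twins {N : ℕ} (hP : Pump D w N) {n : ℕ} (hn : N < n) (ht : HasTwins D n) (M : ℕ) :
    ∃ n', M < n' ∧ N < n' ∧ HasTwins D n' := by
  induction M with
  | zero => exact ⟨n, by omega, hn, ht⟩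
  | succ M ih =>
    obtain ⟨n', h1, h2, h3⟩ := ih
    obtain ⟨_, ⟨n'', h4, h5⟩⟩ := hP.2 n' h2 h3
    exact ⟨n'', by omega, by omega, h5⟩

/-- Two structures that differ contain distinct twins as windows at the same place. -/
lemma exists_twins {x x' : FinStr} {n : ℕ} (hx : x.size = n) (hx' : x'.size = n) (hne : x ≠ x') :
    ∃ k l, 1 ≤ l ∧ k + l ≤ n ∧ x.win k l ≠ x'.win k l ∧ Twins (x.win k l) (x'.win k l) l := by
  classical
  have hex : ∃ l, ∃ k, k + l ≤ n ∧ x.win k l ≠ x'.win k l :=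
    ⟨n, 0, by omega, by rwa [win_full' _ hx, win_full' _ hx']⟩
  obtain ⟨k, hk, hne'⟩ := Nat.find_spec hex
  have hmin := fun l hl => Nat.find_min hex (m := l) hl
  set l := Nat.find hex with hl
  have hl1 : 1 ≤ l := by
    by_contra h0
    apply hne'
    rw [win_eq_iff]
    intro i j hi
    omega
  refine ⟨k, l, hl1, hk, hne', by simp, by simp, ?_, ?_⟩
  · rw [win_win _ _ _ _ _ (by omega), win_win _ _ _ _ _ (by omega)]
    by_contra h
    exact hmin (l - 1) (by omega) ⟨k + 0, by omega, h⟩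
  · rw [win_win _ _ _ _ _ (by omega), win_win _ _ _ _ _ (by omega)]
    by_contra h
    exact hmin (l - 1) (by omega) ⟨k + 1, by omega, h⟩

end Pool.Agent.Helper48.Cons
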